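import Mathlib

/-! Convex 4-polytopes, their faces and face numbers; 2-simple and 2-simplicial polytopes. -/

namespace Pool.Agent.Lib.MP_087efe_co

/-- A 4-polytope: the convex hull of finitely many points of `ℝ⁴` that affinely span `ℝ⁴`. -/
def IsPolytope (P : Set (EuclideanSpace ℝ (Fin 4))) : Prop :=
  (∃ S : Finset (EuclideanSpace ℝ (Fin 4)),
    P = convexHull ℝ (S : Set (EuclideanSpace ℝ (Fin 4)))) ∧ affineSpan ℝ P = ⊤

/-- `F` is a face of `P` of dimension `i`. -/
def IsFace (P F : Set (EuclideanSpace ℝ (Fin 4))) (i : ℕ) : Prop :=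
  IsExposed ℝ P F ∧ F.Nonempty ∧ Module.finrank ℝ (vectorSpan ℝ F) = i

/-- The number `f_i` of faces of dimension `i`. -/
noncomputable def fnum (P : Set (EuclideanSpace ℝ (Fin 4))) (i : ℕ) : ℕ :=
  {F | IsFace P F i}.ncard

/-- Every 2-dimensional face is a triangle. -/
def TwoSimplicial (P : Set (EuclideanSpace ℝ (Fin 4))) : Prop :=
  ∀ F, IsFace P F 2 → ∃ a b c, F = convexHull ℝ {a, b, c}

/-- Every edge lies in exactly three facets. -/
def TwoSimple (P : Set (EuclideanSpace ℝ (Fin 4))) : Prop :=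
  ∀ e, IsFace P e 1 → {F | IsFace P F 3 ∧ e ⊆ F}.ncard = 3

end Pool.Agent.Lib.MP_087efe_co
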