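import Mathlib
import Pool.Agent.Lib.MP_087efe_co.Defs

-- part Pool.Agent.Lib.MP_087efe_co.Pat
section

/-! Incidence patterns of 2-simple 2-simplicial 4-polytopes and their slack factorizations. -/

namespace Pool.Agent.Lib.MP_087efe_co

open Matrix

variable {V F : Type}

/-- Two facets are adjacent if they are distinct and share two vertices. -/
def Adj (I : V → F → Prop) (f g : F) : Prop :=
  f ≠ g ∧ ∃ v w, v ≠ w ∧ I v f ∧ I v g ∧ I w f ∧ I w g

structure Half (I : V → F → Prop) : Prop where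
  a2 : ∀ f g v w, f ≠ g → v ≠ w → I v f → I v g → I w f → I w g →
    ∃ u, u ≠ v ∧ u ≠ w ∧ I u f ∧ I u g
  nb : ∀ f, ∃ g, Adj I f g

def K33 (I : V → F → Prop) : Prop :=
  ∀ f g h, f ≠ g → f ≠ h → g ≠ h → ∀ a b c, I a f → I a g → I a h → I b f → I b g → I b h →
    I c f → I c g → I c h → a = b ∨ a = c ∨ b = c

structure Pat (I : V → F → Prop) : Prop where
  l : Half I
  r : Half (flip I)
  k : K33 I

def Real (I : V → F → Prop) : Prop :=
  ∃ (p : V → Fin 5 → ℝ) (h : F → Fin 5 → ℝ),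
    ∀ v f, 0 ≤ h f ⬝ᵥ p v ∧ (h f ⬝ᵥ p v = 0 ↔ I v f)

theorem Adj.symm {I : V → F → Prop} {f g : F} (h : Adj I f g) : Adj I g f := by
  obtain ⟨h0, v, w, h1, h2, h3, h4, h5⟩ := h
  exact ⟨h0.symm, v, w, h1, h3, h2, h5, h4⟩

theorem adj_comm {I : V → F → Prop} {f g : F} : Adj I f g ↔ Adj I g f := ⟨Adj.symm, Adj.symm⟩

theorem K33.flip {I : V → F → Prop} (h : K33 I) : K33 (flip I) := by
  intro a b c hab hac hbc f g k h1 h2 h3 h4 h5 h6 h7 h8 h9
  by_contra hc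
  push Not at hc
  obtain ⟨e1, e2, e3⟩ := hc
  rcases h f g k e1 e2 e3 a b c h1 h4 h7 h2 h5 h8 h3 h6 h9 with e | e | e <;> contradiction

theorem Pat.flip {I : V → F → Prop} (h : Pat I) : Pat (flip I) := ⟨h.r, h.l, h.k.flip⟩

theorem Real.flip {I : V → F → Prop} (h : Real I) : Real (flip I) := by
  obtain ⟨p, k, hp⟩ := h
  refine ⟨k, p, fun f v => ?_⟩
  rw [dotProduct_comm]
  exact hp v f

/-- The local picture at an edge. -/
structure Edge (I : V → F → Prop) (v w : V) (f g k : F) (x y z : V) : Prop where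
  vw : v ≠ w
  fg : f ≠ g
  fk : f ≠ k
  gk : g ≠ k
  vf : I v f
  vg : I v g
  vk : I v k
  wf : I w f
  wg : I w g
  wk : I w k
  xf : ¬ I x f
  xg : I x g
  xk : I x k
  yf : I y f
  yg : ¬ I y g
  yk : I y k
  zf : I z f
  zg : I z g
  zk : ¬ I z k

theorem Pat.edge3 {I : V → F → Prop} (h : Pat I) {v w : V} {f g k : F} (hvw : v ≠ w)
    (hfg : f ≠ g) (hfk : f ≠ k) (hgk : g ≠ k) (h1 : I v f) (h2 : I v g) (h3 : I v k)
    (h4 : I w f) (h5 : I w g) (h6 : I w k) : ∃ x y z, Edge I v w f g k x y z := by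
  obtain ⟨x, x1, x2, x3, x4⟩ := h.l.a2 g k v w hgk hvw h2 h3 h5 h6
  obtain ⟨y, y1, y2, y3, y4⟩ := h.l.a2 f k v w hfk hvw h1 h3 h4 h6
  obtain ⟨z, z1, z2, z3, z4⟩ := h.l.a2 f g v w hfg hvw h1 h2 h4 h5
  refine ⟨x, y, z, hvw, hfg, hfk, hgk, h1, h2, h3, h4, h5, h6, fun e => ?_, x3, x4, y3,
    fun e => ?_, y4, z3, z4, fun e => ?_⟩
  · rcases h.k f g k hfg hfk hgk v w x h1 h2 h3 h4 h5 h6 e x3 x4 with e | e | e
    exacts [hvw e, x1 e.symm, x2 e.symm]
  · rcases h.k f g k hfg hfk hgk v w y h1 h2 h3 h4 h5 h6 y3 e y4 with e | e | e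
    exacts [hvw e, y1 e.symm, y2 e.symm]
  · rcases h.k f g k hfg hfk hgk v w z h1 h2 h3 h4 h5 h6 z3 z4 e with e | e | e
    exacts [hvw e, z1 e.symm, z2 e.symm]

theorem Pat.edge {I : V → F → Prop} (h : Pat I) {v w : V} {f g : F} (hvw : v ≠ w)
    (hfg : f ≠ g) (h1 : I v f) (h2 : I v g) (h4 : I w f) (h5 : I w g) :
    ∃ k x y z, Edge I v w f g k x y z := by
  obtain ⟨k, k1, k2, k3, k4⟩ := h.r.a2 v w f g hvw hfg h1 h4 h2 h5
  exact ⟨k, h.edge3 hvw hfg k1.symm k2.symm h1 h2 k3 h4 h5 k4⟩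

/-- No facet is contained in another one. -/
theorem Pat.anti {I : V → F → Prop} (h : Pat I) {k f : F} (hkf : k ≠ f) :
    ∃ v, I v k ∧ ¬ I v f := by
  by_contra hc
  push Not at hc
  obtain ⟨g, hkg, v, w, hvw, h1, h2, h3, h4⟩ := h.l.nb k
  obtain ⟨g', x, y, z, e⟩ := h.edge hvw hkg h1 h2 h3 h4
  have hzv : v ≠ z := fun q => e.zk (q ▸ e.vk)
  have hzw : w ≠ z := fun q => e.zk (q ▸ e.wk)
  have hyv : v ≠ y := fun q => e.yg (q ▸ e.vg)
  have hyw : w ≠ y := fun q => e.yg (q ▸ e.wg)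
  have e1 : f = g := by
    by_contra q
    rcases h.k k f g hkf hkg q v w z h1 (hc _ h1) h2 h3 (hc _ h3) h4 e.zf (hc _ e.zf) e.zg
      with q | q | q <;> contradiction
  exact e.yg (e1 ▸ hc _ e.yf)

theorem Pat.anti' {I : V → F → Prop} (h : Pat I) {v w : V} (hvw : v ≠ w) :
    ∃ f, I v f ∧ ¬ I w f := h.flip.anti hvw

theorem Pat.miss {I : V → F → Prop} (h : Pat I) (v : V) : ∃ f, ¬ I v f := by
  obtain ⟨w, hvw, -⟩ := h.r.nb v
  obtain ⟨f, -, hf⟩ := h.anti' hvw.symm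
  exact ⟨f, hf⟩

/-- Five vectors with a triangular pairing against five functionals span `ℝ⁵`. -/
theorem span5 (a b : Fin 5 → Fin 5 → ℝ) (hd : ∀ i, a i ⬝ᵥ b i ≠ 0)
    (hl : ∀ i j, j < i → a i ⬝ᵥ b j = 0) (X : Fin 5 → ℝ) :
    ∃ c : Fin 5 → ℝ, X = ∑ j, c j • b j := by
  have hM : (Matrix.of a * (Matrix.of b)ᵀ).BlockTriangular id := by
    intro i j hij
    exact hl i j hij
  have hdet : (Matrix.of a * (Matrix.of b)ᵀ).det ≠ 0 := by
    rw [Matrix.det_of_isUpperTriangular hM]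
    exact Finset.prod_ne_zero_iff.mpr fun i _ => hd i
  rw [Matrix.det_mul] at hdet
  have hB : IsUnit (Matrix.of b)ᵀ.det := isUnit_iff_ne_zero.mpr (right_ne_zero_of_mul hdet)
  refine ⟨((Matrix.of b)ᵀ)⁻¹ *ᵥ X, ?_⟩
  have : (Matrix.of b)ᵀ *ᵥ (((Matrix.of b)ᵀ)⁻¹ *ᵥ X) = X := by
    rw [Matrix.mulVec_mulVec, Matrix.mul_nonsing_inv _ hB, Matrix.one_mulVec]
  conv_lhs => rw [← this]
  ext i
  simp [Matrix.mulVec, dotProduct, Finset.sum_apply, mul_comm]

end Pool.Agent.Lib.MP_087efe_co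
end

-- part Pool.Agent.Lib.MP_087efe_co.Cone
section

/-! A realized pattern is automatically complete: the listed facets are all facets. -/

namespace Pool.Agent.Lib.MP_087efe_co

open Matrix

variable {V F : Type} {I : V → F → Prop} {p : V → Fin 5 → ℝ} {h : F → Fin 5 → ℝ}

/-- `p`, `h` factor a slack matrix with zero pattern `I`. -/
def Fac (I : V → F → Prop) (p : V → Fin 5 → ℝ) (h : F → Fin 5 → ℝ) : Prop :=
  ∀ v f, 0 ≤ h f ⬝ᵥ p v ∧ (h f ⬝ᵥ p v = 0 ↔ I v f)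

theorem Fac.zero (H : Fac I p h) {v f} (e : I v f) : h f ⬝ᵥ p v = 0 := (H v f).2.mpr e

theorem Fac.pos (H : Fac I p h) {v f} (e : ¬ I v f) : 0 < h f ⬝ᵥ p v :=
  lt_of_le_of_ne (H v f).1 fun q => e ((H v f).2.mp q.symm)

theorem Fac.flip (H : Fac I p h) : Fac (flip I) h p := by
  intro f v
  rw [dotProduct_comm]
  exact H v f

theorem edge_decomp (P : Pat I) (H : Fac I p h) {v w f g k x y z}
    (e : Edge I v w f g k x y z) (X : Fin 5 → ℝ) :
    ∃ a b c1 c2 c3 : ℝ, X = a • p v + b • p w + c1 • p x + c2 • p y + c3 • p z ∧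
      h f ⬝ᵥ X = c1 * (h f ⬝ᵥ p x) ∧ h g ⬝ᵥ X = c2 * (h g ⬝ᵥ p y) ∧
      h k ⬝ᵥ X = c3 * (h k ⬝ᵥ p z) := by
  obtain ⟨f0, h0⟩ := P.miss v
  obtain ⟨f1, h1, h2⟩ := P.anti' e.vw
  obtain ⟨c, hc⟩ := span5 ![h f0, h f1, h f, h g, h k] ![p v, p w, p x, p y, p z]
    (by
      intro i
      fin_cases i
      exacts [(H.pos h0).ne', (H.pos h2).ne', (H.pos e.xf).ne', (H.pos e.yg).ne',
        (H.pos e.zk).ne'])
    (by
      intro i j hij
      fin_cases i <;> fin_cases j <;> simp at hij ⊢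
      exacts [H.zero h1, H.zero e.vf, H.zero e.wf, H.zero e.vg, H.zero e.wg, H.zero e.xg,
        H.zero e.vk, H.zero e.wk, H.zero e.xk, H.zero e.yk]) X
  rw [Fin.sum_univ_five] at hc
  simp only [Matrix.cons_val] at hc
  refine ⟨c 0, c 1, c 2, c 3, c 4, hc, ?_, ?_, ?_⟩ <;> rw [hc] <;>
    simp only [dotProduct_add, dotProduct_smul, smul_eq_mul, H.zero e.vf, H.zero e.wf,
      H.zero e.vg, H.zero e.wg, H.zero e.xg, H.zero e.vk, H.zero e.wk, H.zero e.xk,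
      H.zero e.yk, H.zero e.yf, H.zero e.zf, H.zero e.zg] <;> ring

/-- Two vertices lie in at most three facets. -/
theorem Edge.only (P : Pat I) (H : Real I) {v w f g k x y z}
    (e : Edge I v w f g k x y z) {l : F} (hv : I v l) (hw : I w l) : l = f ∨ l = g ∨ l = k := by
  obtain ⟨p, h, H⟩ := H
  have H : Fac I p h := H
  by_contra hc
  push Not at hc
  obtain ⟨n1, n2, n3⟩ := hc
  obtain ⟨u, hu1, hu2⟩ := P.anti n1
  obtain ⟨a, b, c1, c2, c3, hX, e1, e2, e3⟩ := edge_decomp P H e (p u)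
  have hx : ¬ I x l := by
    intro q
    rcases P.k g k l e.gk n2.symm n3.symm v w x e.vg e.vk hv e.wg e.wk hw e.xg e.xk q
      with q | q | q
    exacts [e.vw q, e.xf (q ▸ e.vf), e.xf (q ▸ e.wf)]
  have k1 : 0 < c1 := by
    have := H.pos hu2
    rw [e1] at this
    exact (mul_pos_iff_of_pos_right (H.pos e.xf)).mp this
  have k2 : 0 ≤ c2 := by
    have := (H u g).1
    rw [e2] at this
    exact nonneg_of_mul_nonneg_left this (H.pos e.yg)
  have k3 : 0 ≤ c3 := by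
    have := (H u k).1
    rw [e3] at this
    exact nonneg_of_mul_nonneg_left this (H.pos e.zk)
  have := H.zero hu1
  rw [hX] at this
  simp only [dotProduct_add, dotProduct_smul, smul_eq_mul, H.zero hv, H.zero hw] at this
  have q1 := mul_pos k1 (H.pos hx)
  have q2 := mul_nonneg k2 (H y l).1
  have q3 := mul_nonneg k3 (H z l).1
  linarith

theorem Pat.b3 (P : Pat I) (H : Real I) {v w : V} {f g k l : F} (hvw : v ≠ w) (hfg : f ≠ g)
    (hfk : f ≠ k) (hgk : g ≠ k) (h1 : I v f) (h2 : I v g) (h3 : I v k) (h4 : I w f) (h5 : I w g)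
    (h6 : I w k) (h7 : I v l) (h8 : I w l) : l = f ∨ l = g ∨ l = k := by
  obtain ⟨x, y, z, e⟩ := P.edge3 hvw hfg hfk hgk h1 h2 h3 h4 h5 h6
  exact e.only P H h7 h8

theorem Pat.a3 (P : Pat I) (H : Real I) {f g : F} {a b c d : V} (hfg : f ≠ g) (hab : a ≠ b)
    (hac : a ≠ c) (hbc : b ≠ c) (h1 : I a f) (h2 : I b f) (h3 : I c f) (h4 : I a g) (h5 : I b g)
    (h6 : I c g) (h7 : I d f) (h8 : I d g) : d = a ∨ d = b ∨ d = c :=
  P.flip.b3 H.flip hfg hab hac hbc h1 h2 h3 h4 h5 h6 h7 h8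

theorem kl_edge (P : Pat I) (H : Fac I p h) {v w f g k x y z} (e : Edge I v w f g k x y z)
    (φ X : Fin 5 → ℝ) (hv : φ ⬝ᵥ p v = 0) (hw : φ ⬝ᵥ p w = 0) (hx : 0 ≤ φ ⬝ᵥ p x)
    (hy : 0 ≤ φ ⬝ᵥ p y) (hz : 0 ≤ φ ⬝ᵥ p z) (hf : 0 ≤ h f ⬝ᵥ X) (hg : 0 ≤ h g ⬝ᵥ X)
    (hk : 0 ≤ h k ⬝ᵥ X) : 0 ≤ φ ⬝ᵥ X := by
  obtain ⟨a, b, c1, c2, c3, hX, e1, e2, e3⟩ := edge_decomp P H e X
  rw [e1] at hf
  rw [e2] at hg
  rw [e3] at hk
  have k1 := nonneg_of_mul_nonneg_left hf (H.pos e.xf)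
  have k2 := nonneg_of_mul_nonneg_left hg (H.pos e.yg)
  have k3 := nonneg_of_mul_nonneg_left hk (H.pos e.zk)
  rw [hX]
  simp only [dotProduct_add, dotProduct_smul, smul_eq_mul, hv, hw]
  have q1 := mul_nonneg k1 hx
  have q2 := mul_nonneg k2 hy
  have q3 := mul_nonneg k3 hz
  linarith

/-- Subtracting the best multiple of a positive functional. -/
theorem exists_min {α : Type} [Finite α] (s : Set α) (hs : s.Nonempty) (a b : α → ℝ)
    (ha : ∀ x ∈ s, 0 ≤ a x) (hb : ∀ x ∈ s, 0 < b x) :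
    ∃ μ : ℝ, 0 ≤ μ ∧ (∀ x ∈ s, 0 ≤ a x - μ * b x) ∧ ∃ x ∈ s, a x - μ * b x = 0 := by
  obtain ⟨x, hx, hm⟩ := Set.exists_min_image s (fun x => a x / b x) (Set.toFinite s) hs
  refine ⟨a x / b x, div_nonneg (ha x hx) (hb x hx).le, fun y hy => ?_, x, hx, ?_⟩
  · have := hm y hy
    rw [le_div_iff₀ (hb y hy)] at this
    linarith
  · field_simp [(hb x hx).ne']
    ring

open Classical in
theorem kl_vertex [Fintype V] [Fintype F] (P : Pat I) (H : Fac I p h) (v : V)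
    (φ X : Fin 5 → ℝ) (hv : φ ⬝ᵥ p v = 0) (hw : ∀ w, Adj (flip I) v w → 0 ≤ φ ⬝ᵥ p w)
    (hX : ∀ f, I v f → 0 ≤ h f ⬝ᵥ X) : 0 ≤ φ ⬝ᵥ X := by
  set L : Fin 5 → ℝ := ∑ f ∈ Finset.univ.filter (fun f => I v f), h f with hL
  have L0 : L ⬝ᵥ p v = 0 := by
    rw [hL, sum_dotProduct]
    exact Finset.sum_eq_zero fun f hf => H.zero (Finset.mem_filter.mp hf).2
  have LX : 0 ≤ L ⬝ᵥ X := by
    rw [hL, sum_dotProduct]
    exact Finset.sum_nonneg fun f hf => hX f (Finset.mem_filter.mp hf).2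
  have Lp : ∀ w, v ≠ w → 0 < L ⬝ᵥ p w := by
    intro w hvw
    obtain ⟨f, h1, h2⟩ := P.anti' hvw
    rw [hL, sum_dotProduct]
    exact Finset.sum_pos' (fun f _ => (H w f).1) ⟨f, by simp [h1], H.pos h2⟩
  obtain ⟨μ, hμ, h1, w, hw0, h2⟩ := exists_min {w | Adj (flip I) v w} (P.r.nb v)
    (fun w => φ ⬝ᵥ p w) (fun w => L ⬝ᵥ p w) hw (fun w hw => Lp w hw.1)
  obtain ⟨hvw, f, g, hfg, i1, i2, i3, i4⟩ := hw0
  obtain ⟨k, x, y, z, e⟩ := P.edge hvw hfg i1 i3 i2 i4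
  have key := kl_edge P H e (φ - μ • L) X (by simp [sub_dotProduct, hv, L0])
    (by simpa [sub_dotProduct] using h2)
    (by
      simpa [sub_dotProduct] using
        h1 x ⟨fun q => e.xf (q ▸ e.vf), g, k, e.gk, e.vg, e.xg, e.vk, e.xk⟩)
    (by
      simpa [sub_dotProduct] using
        h1 y ⟨fun q => e.yg (q ▸ e.vg), f, k, e.fk, e.vf, e.yf, e.vk, e.yk⟩)
    (by
      simpa [sub_dotProduct] using
        h1 z ⟨fun q => e.zk (q ▸ e.vk), f, g, e.fg, e.vf, e.zf, e.vg, e.zg⟩)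
    (hX f e.vf) (hX g e.vg) (hX k e.vk)
  simp only [sub_dotProduct, smul_dotProduct, smul_eq_mul] at key
  have := mul_nonneg hμ LX
  linarith

theorem tot_pos [Fintype F] (P : Pat I) (H : Fac I p h) (v : V) : 0 < (∑ f, h f) ⬝ᵥ p v := by
  obtain ⟨f, hf⟩ := P.miss v
  rw [sum_dotProduct]
  exact Finset.sum_pos' (fun f _ => (H v f).1) ⟨f, Finset.mem_univ _, H.pos hf⟩

/-- The key lemma: every functional that is non-negative on the vertices is non-negative on the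
cone cut out by the facets. -/
theorem kl [Fintype V] [Fintype F] [Nonempty V] (P : Pat I) (H : Fac I p h)
    (φ X : Fin 5 → ℝ) (hv : ∀ v, 0 ≤ φ ⬝ᵥ p v) (hX : ∀ f, 0 ≤ h f ⬝ᵥ X) : 0 ≤ φ ⬝ᵥ X := by
  obtain ⟨μ, hμ, h1, v, -, h2⟩ := exists_min (Set.univ : Set V) Set.univ_nonempty
    (fun w => φ ⬝ᵥ p w) (fun w => (∑ f, h f) ⬝ᵥ p w) (fun w _ => hv w)
    (fun w _ => tot_pos P H w)
  have key := kl_vertex P H v (φ - μ • ∑ f, h f) X (by simpa [sub_dotProduct] using h2)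
    (fun w _ => by simpa [sub_dotProduct] using h1 w trivial) (fun f _ => hX f)
  have LX : 0 ≤ (∑ f, h f) ⬝ᵥ X := by
    rw [sum_dotProduct]
    exact Finset.sum_nonneg fun f _ => hX f
  simp only [sub_dotProduct, smul_dotProduct, smul_eq_mul] at key
  have := mul_nonneg hμ LX
  linarith

/-- The zero set of a valid functional is closed in the incidence structure. -/
theorem closed [Fintype V] [Fintype F] (P : Pat I) (H : Fac I p h)
    (φ : Fin 5 → ℝ) (hv : ∀ v, 0 ≤ φ ⬝ᵥ p v) (u : V)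
    (hu : ∀ f, (∀ v, φ ⬝ᵥ p v = 0 → I v f) → I u f) : φ ⬝ᵥ p u = 0 := by
  classical
  have : Nonempty V := ⟨u⟩
  set Y : Fin 5 → ℝ := ∑ v ∈ Finset.univ.filter (fun v => φ ⬝ᵥ p v = 0), p v with hY
  have Y0 : φ ⬝ᵥ Y = 0 := by
    rw [hY, dotProduct_sum]
    exact Finset.sum_eq_zero fun v hv => (Finset.mem_filter.mp hv).2
  have Yn : ∀ f, 0 ≤ h f ⬝ᵥ Y := by
    intro f
    rw [hY, dotProduct_sum]
    exact Finset.sum_nonneg fun v _ => (H v f).1
  have Yp : ∀ f, ¬ I u f → 0 < h f ⬝ᵥ Y := by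
    intro f hf
    have : ¬ ∀ v, φ ⬝ᵥ p v = 0 → I v f := fun q => hf (hu f q)
    push Not at this
    obtain ⟨v, h1, h2⟩ := this
    rw [hY, dotProduct_sum]
    exact Finset.sum_pos' (fun v _ => (H v f).1) ⟨v, by simp [h1], H.pos h2⟩
  obtain ⟨f0, hf0⟩ := P.miss u
  obtain ⟨f, hf, hm⟩ := Set.exists_min_image {f | ¬ I u f}
    (fun f => h f ⬝ᵥ Y / h f ⬝ᵥ p u) (Set.toFinite _) ⟨f0, hf0⟩
  have hε : 0 < h f ⬝ᵥ Y / h f ⬝ᵥ p u := div_pos (Yp f hf) (H.pos hf)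
  have key := kl P H φ (Y - (h f ⬝ᵥ Y / h f ⬝ᵥ p u) • p u) hv (by
    intro g
    rw [dotProduct_sub, dotProduct_smul, smul_eq_mul]
    by_cases hg : I u g
    · rw [H.zero hg, mul_zero, sub_zero]
      exact Yn g
    · have := hm g hg
      rw [le_div_iff₀ (H.pos hg)] at this
      linarith)
  rw [dotProduct_sub, dotProduct_smul, smul_eq_mul, Y0] at key
  have h2 : φ ⬝ᵥ p u ≤ 0 := by
    by_contra q
    have := mul_pos hε (not_le.mp q)
    linarith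
  exact le_antisymm h2 (hv u)

end Pool.Agent.Lib.MP_087efe_co
end

-- part Pool.Agent.Lib.MP_087efe_co.Comb
section

/-! Closed sets of a realized pattern and the number of adjacent pairs. -/

namespace Pool.Agent.Lib.MP_087efe_co

open Matrix

variable {V F : Type} {I : V → F → Prop}

open Classical in
/-- The number of ordered pairs of adjacent facets. -/
noncomputable def nadj [Fintype F] (I : V → F → Prop) : ℕ :=
  (Finset.univ.filter fun x : F × F => Adj I x.1 x.2).card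

open Classical in
theorem nadj_eq [Fintype F] (I : V → F → Prop) :
    nadj I = ∑ f, ∑ g, if Adj I f g then 1 else 0 := by
  rw [nadj, Finset.card_filter, Fintype.sum_prod_type]

theorem Adj.three (P : Pat I) (H : Real I) {f g : F} (a : Adj I f g) :
    ∃ a b c, a ≠ b ∧ a ≠ c ∧ b ≠ c ∧ {v | I v f ∧ I v g} = {a, b, c} := by
  obtain ⟨hfg, v, w, hvw, h1, h2, h3, h4⟩ := a
  obtain ⟨u, u1, u2, u3, u4⟩ := P.l.a2 f g v w hfg hvw h1 h2 h3 h4
  refine ⟨v, w, u, hvw, u1.symm, u2.symm, ?_⟩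
  ext d
  simp only [Set.mem_ofPred_eq, Set.mem_insert_iff, Set.mem_singleton_iff]
  constructor
  · rintro ⟨d1, d2⟩
    exact P.a3 H hfg hvw u1.symm u2.symm h1 h3 u3 h2 h4 u4 d1 d2
  · rintro (rfl | rfl | rfl)
    exacts [⟨h1, h2⟩, ⟨h3, h4⟩, ⟨u3, u4⟩]

open Classical in
theorem rect_count [Fintype V] [Fintype F] (P : Pat I) (H : Real I) :
    (∑ f, ∑ g, ∑ v, ∑ w, if f ≠ g ∧ v ≠ w ∧ I v f ∧ I v g ∧ I w f ∧ I w g then 1 else 0) =
      6 * nadj I := by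
  rw [nadj_eq, Finset.mul_sum]
  refine Finset.sum_congr rfl fun f _ => ?_
  rw [Finset.mul_sum]
  refine Finset.sum_congr rfl fun g _ => ?_
  by_cases a : Adj I f g
  · obtain ⟨x, y, z, h1, h2, h3, e⟩ := a.three P H
    have e' : ∀ v, (I v f ∧ I v g) ↔ v ∈ ({x, y, z} : Finset V) := by
      intro v
      have := Set.ext_iff.mp e v
      simpa using this
    have c3 : ({x, y, z} : Finset V).card = 3 := Finset.card_eq_three.mpr ⟨x, y, z, h1, h2, h3, rfl⟩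
    rw [if_pos a, ← Fintype.sum_prod_type', ← Finset.card_filter]
    have : (Finset.univ.filter fun t : V × V => f ≠ g ∧ t.1 ≠ t.2 ∧ I t.1 f ∧ I t.1 g ∧
        I t.2 f ∧ I t.2 g) = ({x, y, z} : Finset V).offDiag := by
      ext t
      rw [Finset.mem_offDiag, ← e', ← e']
      have := a.1
      simp only [Finset.mem_filter, Finset.mem_univ, true_and]
      tauto
    rw [this, Finset.offDiag_card, c3]
    norm_num
  · rw [if_neg a, mul_zero]
    refine Finset.sum_eq_zero fun v _ => Finset.sum_eq_zero fun w _ => if_neg fun q => a ?_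
    exact ⟨q.1, v, w, q.2⟩

theorem nadj_flip [Fintype V] [Fintype F] (P : Pat I) (H : Real I) :
    nadj (flip I) = nadj I := by
  classical
  have h1 := rect_count P H
  have h2 := rect_count P.flip H.flip
  have h3 : 6 * nadj (flip I) = 6 * nadj I := by
    rw [← h1, ← h2, ← Fintype.sum_prod_type', ← Fintype.sum_prod_type' (α₁ := F)]
    simp_rw [← Fintype.sum_prod_type']
    refine Fintype.sum_equiv (Equiv.prodComm _ _) _ _ fun a => ?_
    refine if_congr ?_ rfl rfl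
    simp only [Equiv.prodComm_apply, Prod.fst_swap, Prod.snd_swap]
    simp only [flip]
    tauto
  omega

/-- The sets closed under the Galois closure of the incidence relation. -/
def Cl (I : V → F → Prop) (S : Set V) : Prop :=
  ∀ u, (∀ f, (∀ v ∈ S, I v f) → I u f) → u ∈ S

theorem Cl.cases (P : Pat I) {S : Set V} (c : Cl I S) (hS : S.Nonempty) :
    S = Set.univ ∨ (∃ f, S = {v | I v f}) ∨ (∃ f g, Adj I f g ∧ S = {v | I v f ∧ I v g}) ∨
      (∃ v w, Adj (flip I) v w ∧ S = {v, w}) ∨ ∃ v, S = {v} := by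
  by_cases h0 : ∃ v, S = {v}
  · simp [h0]
  obtain ⟨v, hv⟩ := hS
  obtain ⟨w, hw, hwv⟩ : ∃ w ∈ S, w ≠ v := by
    by_contra q
    push Not at q
    exact h0 ⟨v, Set.eq_singleton_iff_unique_mem.mpr ⟨hv, q⟩⟩
  by_cases h1 : ∃ f, ∀ v ∈ S, I v f
  swap
  · left
    exact Set.eq_univ_of_forall fun u => c u fun f hf => (h1 ⟨f, hf⟩).elim
  obtain ⟨f, hf⟩ := h1
  by_cases h2 : ∃ g, g ≠ f ∧ ∀ v ∈ S, I v g
  swap
  · right; left
    refine ⟨f, Set.Subset.antisymm hf fun u hu => c u fun g hg => ?_⟩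
    by_cases e : g = f
    · exact e ▸ hu
    · exact (h2 ⟨g, e, hg⟩).elim
  obtain ⟨g, hgf, hg⟩ := h2
  by_cases h3 : ∃ k, k ≠ f ∧ k ≠ g ∧ ∀ v ∈ S, I v k
  swap
  · right; right; left
    refine ⟨f, g, ⟨hgf.symm, v, w, hwv.symm, hf v hv, hg v hv, hf w hw, hg w hw⟩,
      Set.Subset.antisymm (fun u hu => ⟨hf u hu, hg u hu⟩) fun u hu => c u fun k hk => ?_⟩
    by_cases e : k = f
    · exact e ▸ hu.1
    by_cases e' : k = g
    · exact e' ▸ hu.2
    exact (h3 ⟨k, e, e', hk⟩).elim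
  obtain ⟨k, hkf, hkg, hk⟩ := h3
  right; right; right; left
  refine ⟨v, w, ⟨hwv.symm, f, g, hgf.symm, hf v hv, hf w hw, hg v hv, hg w hw⟩, ?_⟩
  ext u
  constructor
  · intro hu
    rcases P.k f g k hgf.symm hkf.symm hkg.symm v w u (hf v hv) (hg v hv) (hk v hv) (hf w hw)
      (hg w hw) (hk w hw) (hf u hu) (hg u hu) (hk u hu) with e | e | e
    exacts [(hwv e.symm).elim, Or.inl e.symm, Or.inr e.symm]
  · rintro (rfl | rfl)
    exacts [hv, hw]

theorem cl_facet (f : F) : Cl I {v | I v f} := fun _ hu => hu f fun _ hv => hv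

theorem cl_two (f g : F) : Cl I {v | I v f ∧ I v g} :=
  fun _ hu => ⟨hu f fun _ hv => hv.1, hu g fun _ hv => hv.2⟩

theorem cl_vertex (P : Pat I) (v : V) : Cl I {v} := by
  intro u hu
  by_contra q
  obtain ⟨f, h1, h2⟩ := P.anti' (Ne.symm q)
  exact h2 (hu f fun x hx => hx ▸ h1)

theorem cl_edge (P : Pat I) {v w : V} (a : Adj (flip I) v w) : Cl I {v, w} := by
  obtain ⟨hvw, f, g, hfg, i1, i2, i3, i4⟩ := a
  obtain ⟨k, x, y, z, e⟩ := P.edge hvw hfg i1 i3 i2 i4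
  intro u hu
  have t : ∀ l, I v l → I w l → I u l := fun l h1 h2 => hu l (by
    rintro x (rfl | rfl)
    exacts [h1, h2])
  rcases P.k f g k e.fg e.fk e.gk v w u e.vf e.vg e.vk e.wf e.wg e.wk (t f e.vf e.wf)
    (t g e.vg e.wg) (t k e.vk e.wk) with q | q | q
  exacts [(hvw q).elim, Or.inl q.symm, Or.inr q.symm]

end Pool.Agent.Lib.MP_087efe_co
end

-- part Pool.Agent.Lib.MP_087efe_co.Glue
section

/-! The connected sum: a simple vertex of one polytope is replaced by a second polytope, glued in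
along a simplex facet. -/

namespace Pool.Agent.Lib.MP_087efe_co

open Matrix Sum

variable {V F : Type}

/-- A simplex facet `S` with vertices `s i` and neighbouring facets `A i`. -/
structure SFacet (I : V → F → Prop) where
  S : F
  s : Fin 4 → V
  A : Fin 4 → F
  hS : ∀ v, I v S ↔ ∃ i, v = s i
  hA : ∀ i j, I (s i) (A j) ↔ i ≠ j

namespace SFacet

variable {I : V → F → Prop} (σ : SFacet I)

theorem sS (i : Fin 4) : I (σ.s i) σ.S := (σ.hS _).mpr ⟨i, rfl⟩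

theorem s_inj : Function.Injective σ.s := by
  intro i j e
  by_contra q
  have := (σ.hA i j).mpr q
  rw [e, σ.hA] at this
  exact this rfl

theorem A_inj : Function.Injective σ.A := by
  intro i j e
  by_contra q
  have := (σ.hA i j).mpr q
  rw [← e, σ.hA] at this
  exact this rfl

theorem A_ne (i : Fin 4) : σ.A i ≠ σ.S := by
  intro e
  have := σ.sS i
  rw [← e, σ.hA] at this
  exact this rfl

/-- The facets other than `S` and its neighbours. -/
def Rest : Type := {f : F // f ≠ σ.S ∧ ∀ i, f ≠ σ.A i}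

noncomputable instance [Finite F] : Fintype σ.Rest :=
  have : Finite σ.Rest := Subtype.finite
  Fintype.ofFinite _

theorem pure (P : Pat I) (H : Real I) (r : σ.Rest) {i j : Fin 4} (h1 : I (σ.s i) r.1)
    (h2 : I (σ.s j) r.1) : i = j := by
  by_contra q
  obtain ⟨k, l, hkl, a1, a2, a3, a4⟩ : ∃ k l : Fin 4, k ≠ l ∧ i ≠ k ∧ i ≠ l ∧ j ≠ k ∧ j ≠ l := by
    clear h1 h2
    revert i j
    decide
  rcases P.b3 H (fun e => q (σ.s_inj e)) (σ.A_ne k).symm (σ.A_ne l).symm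
    (fun e => hkl (σ.A_inj e)) (σ.sS i) ((σ.hA _ _).mpr a1) ((σ.hA _ _).mpr a2) (σ.sS j)
    ((σ.hA _ _).mpr a3) ((σ.hA _ _).mpr a4) h1 h2 with e | e | e
  exacts [r.2.1 e, r.2.2 _ e, r.2.2 _ e]

theorem sum_eq [Fintype F] (φ : F → ℕ) :
    ∑ f, φ f = φ σ.S + ∑ i, φ (σ.A i) + ∑ r : σ.Rest, φ r.1 := by
  have hb : Function.Bijective
      (Sum.elim (fun o : Option (Fin 4) => o.elim σ.S σ.A) fun r : σ.Rest => r.1) := by
    constructor
    · rintro ((_ | i) | r) ((_ | j) | t) e <;> simp only [elim_inl, elim_inr, Option.elim] at e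
      · rfl
      · exact (σ.A_ne j e.symm).elim
      · exact (t.2.1 e.symm).elim
      · exact (σ.A_ne i e).elim
      · rw [σ.A_inj e]
      · exact (t.2.2 i e.symm).elim
      · exact (r.2.1 e).elim
      · exact (r.2.2 j e).elim
      · rw [Subtype.ext e]
    · intro f
      by_cases h1 : f = σ.S
      · exact ⟨inl none, h1.symm⟩
      by_cases h2 : ∃ i, f = σ.A i
      · obtain ⟨i, hi⟩ := h2
        exact ⟨inl (some i), hi.symm⟩
      push Not at h2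
      exact ⟨inr ⟨f, h1, h2⟩, rfl⟩
  rw [← Fintype.sum_bijective _ hb (fun x => φ _) φ fun _ => rfl, Fintype.sum_sum_type,
    Fintype.sum_option]
  rfl

theorem card_eq [Fintype F] : Fintype.card F = 5 + Fintype.card σ.Rest := by
  have := σ.sum_eq fun _ => 1
  simpa using this

theorem normal (P : Pat I) (H : Real I) : ∃ X k, Fac I X k ∧ (∀ v i, 0 ≤ X v i) ∧
    (∀ v, X v 0 = 0 ↔ I v σ.S) ∧ (∀ v i, X v (Fin.succ i) = 0 ↔ I v (σ.A i)) ∧
    ∀ r : σ.Rest, k r.1 0 < 0 ∧ ∀ i, 0 ≤ k r.1 (Fin.succ i) := by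
  obtain ⟨p, h, H⟩ := H
  have H : Fac I p h := H
  obtain ⟨u, hu⟩ := P.flip.miss σ.S
  have sp := span5 (Fin.cons (p u) fun i => p (σ.s i)) (Fin.cons (h σ.S) fun i => h (σ.A i))
    (by
      intro i
      refine Fin.cases ?_ (fun i => ?_) i
      · exact (H.flip.pos hu).ne'
      · exact (H.flip.pos (v := σ.A i) (f := σ.s i) fun q => (σ.hA i i).mp q rfl).ne')
    (by
      intro i j
      refine Fin.cases ?_ (fun i => ?_) i
      · simp
      · refine Fin.cases ?_ (fun j => ?_) j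
        · exact fun _ => H.flip.zero (v := σ.S) (σ.sS i)
        · exact fun q => H.flip.zero (v := σ.A j)
            ((σ.hA i j).mpr (Fin.succ_lt_succ_iff.mp q).ne'))
  choose k hk using sp
  set X : V → Fin 5 → ℝ := fun v => Fin.cons (h σ.S ⬝ᵥ p v) fun i => h (σ.A i) ⬝ᵥ p v with hX
  have e : ∀ v f, k (h f) ⬝ᵥ X v = h f ⬝ᵥ p v := by
    intro v f
    conv_rhs => rw [hk (h f)]
    rw [sum_dotProduct, dotProduct]
    refine Finset.sum_congr rfl fun i _ => ?_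
    refine Fin.cases ?_ (fun i => ?_) i <;> simp [hX]
  have X0 : ∀ v i, 0 ≤ X v i := fun v i => Fin.cases (H v _).1 (fun i => (H v _).1) i
  have k1 : ∀ f i, 0 ≤ k (h f) (Fin.succ i) := by
    intro f i
    have := (H (σ.s i) f).1
    rw [← e, dotProduct, Finset.sum_eq_single (Fin.succ i)] at this
    · exact nonneg_of_mul_nonneg_left this (H.pos fun q => (σ.hA i i).mp q rfl)
    · intro j _
      refine Fin.cases ?_ (fun j => ?_) j
      · exact fun _ => mul_eq_zero_of_right _ (H.zero (σ.sS i))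
      · exact fun q => mul_eq_zero_of_right _
          (H.zero ((σ.hA i j).mpr fun e => q (e ▸ rfl)))
    · simp
  refine ⟨X, fun f => k (h f), fun v f => by rw [e]; exact H v f, X0, fun v => (H v _).2,
    fun v i => (H v _).2, fun r => ⟨?_, k1 _⟩⟩
  by_contra q
  have k2 : ∀ i, 0 ≤ k (h r.1) i := fun i => Fin.cases (not_lt.mp q) (k1 _) i
  obtain ⟨i, hi⟩ : ∃ i, k (h r.1) i ≠ 0 := by
    by_contra q
    push Not at q
    obtain ⟨w, hw⟩ := P.flip.miss r.1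
    have := H.pos (v := w) hw
    rw [← e] at this
    simp [dotProduct, q] at this
  have t : ∀ v, I v r.1 → X v i = 0 := by
    intro v hv
    have := H.zero hv
    rw [← e, dotProduct, Finset.sum_eq_zero_iff_of_nonneg
      fun i _ => mul_nonneg (k2 i) (X0 v i)] at this
    exact (mul_eq_zero.mp (this i (Finset.mem_univ _))).resolve_left hi
  revert t
  refine Fin.cases (fun t => ?_) (fun i t => ?_) i
  · obtain ⟨v, h1, h2⟩ := P.anti r.2.1
    exact h2 ((H v _).2.mp (t v h1))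
  · obtain ⟨v, h1, h2⟩ := P.anti (r.2.2 i)
    exact h2 ((H v _).2.mp (t v h1))

end SFacet

variable {V' F' : Type} {I : V → F → Prop} {J : V' → F' → Prop}

/-- The incidences of the connected sum. -/
def glue (σ : SFacet I) (τ : SFacet (flip J)) : V ⊕ τ.Rest → F' ⊕ σ.Rest → Prop
  | inl v, inl K => (∃ i, K = τ.s i ∧ I v (σ.A i)) ∨ ∃ i, v = σ.s i ∧ J (τ.A i) K
  | inl v, inr f => I v f.1
  | inr u, inl K => J u.1 K
  | inr _, inr _ => False

theorem glue_flip (σ : SFacet I) (τ : SFacet (flip J)) :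
    flip (glue σ τ) = glue (I := flip J) (J := flip I) τ σ := by
  funext a b
  rcases a with a | a <;> rcases b with b | b
  · exact propext or_comm
  all_goals rfl

theorem glue_real (σ : SFacet I) (τ : SFacet (flip J)) (P : Pat I) (H : Real I) (P' : Pat J)
    (H' : Real J) : Real (glue σ τ) := by
  obtain ⟨X, k, a1, a2, a3, a4, a5⟩ := σ.normal P H
  obtain ⟨Y, y, b1, b2, b3, b4, b5⟩ := τ.normal P'.flip H'.flip
  refine ⟨Sum.elim X fun u => y u.1, Sum.elim Y fun f => k f.1, ?_⟩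
  rintro (v | u) (K | f)
  · refine ⟨Finset.sum_nonneg fun i _ => mul_nonneg (b2 K i) (a2 v i), ?_⟩
    simp only [elim_inl, dotProduct]
    rw [Finset.sum_eq_zero_iff_of_nonneg fun i _ => mul_nonneg (b2 K i) (a2 v i)]
    simp only [Finset.mem_univ, true_imp_iff, mul_eq_zero, Fin.forall_fin_succ (n := 4), a3, a4,
      b3, b4, σ.hS, τ.hS]
    constructor
    · rintro ⟨⟨i, rfl⟩ | ⟨i, rfl⟩, q⟩
      · exact Or.inl ⟨i, rfl, (q i).resolve_left fun e => (τ.hA i i).mp e rfl⟩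
      · exact Or.inr ⟨i, rfl, (q i).resolve_right fun e => (σ.hA i i).mp e rfl⟩
    · rintro (⟨i, rfl, q⟩ | ⟨i, rfl, q⟩)
      · refine ⟨Or.inl ⟨i, rfl⟩, fun j => ?_⟩
        by_cases e : i = j
        · exact Or.inr (e ▸ q)
        · exact Or.inl ((τ.hA i j).mpr e)
      · refine ⟨Or.inr ⟨i, rfl⟩, fun j => ?_⟩
        by_cases e : i = j
        · exact Or.inl (e ▸ q)
        · exact Or.inr ((σ.hA i j).mpr e)
  · exact a1 v f.1
  · exact b1.flip u.1 K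
  · have : 0 < k f.1 ⬝ᵥ y u.1 := by
      rw [dotProduct, Fin.sum_univ_succ (n := 4)]
      exact add_pos_of_pos_of_nonneg (mul_pos_of_neg_of_neg (a5 f).1 (b5 u).1)
        (Finset.sum_nonneg fun i _ => mul_nonneg ((a5 f).2 i) ((b5 u).2 i))
    exact ⟨this.le, iff_of_false this.ne' id⟩

/-- The facet of the sum that extends the facet `f ≠ S` of the first summand. -/
def Rep (σ : SFacet I) (τ : SFacet (flip J)) (f : F) (f' : F' ⊕ σ.Rest) : Prop :=
  (∃ i, f = σ.A i ∧ f' = inl (τ.s i)) ∨ ∃ r : σ.Rest, f = r.1 ∧ f' = inr r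

section
variable {σ : SFacet I} {τ : SFacet (flip J)}

theorem Rep.ex (τ : SFacet (flip J)) {f : F} (hf : f ≠ σ.S) : ∃ f', Rep σ τ f f' := by
  by_cases h2 : ∃ i, f = σ.A i
  · obtain ⟨i, hi⟩ := h2
    exact ⟨_, Or.inl ⟨i, hi, rfl⟩⟩
  · push Not at h2
    exact ⟨_, Or.inr ⟨⟨f, hf, h2⟩, rfl, rfl⟩⟩

theorem Rep.inc {f f'} (r : Rep σ τ f f') (v : V) : glue σ τ (inl v) f' ↔ I v f := by
  rcases r with ⟨i, rfl, rfl⟩ | ⟨r, rfl, rfl⟩
  · constructor
    · rintro (⟨j, e, q⟩ | ⟨j, rfl, q⟩)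
      · exact τ.s_inj e ▸ q
      · exact (σ.hA j i).mpr ((τ.hA i j).mp q).symm
    · exact fun q => Or.inl ⟨i, rfl, q⟩
  · rfl

theorem Rep.eq_iff {f f' g g'} (r : Rep σ τ f f') (t : Rep σ τ g g') : f' = g' ↔ f = g := by
  rcases r with ⟨i, rfl, rfl⟩ | ⟨r, rfl, rfl⟩ <;> rcases t with ⟨j, rfl, rfl⟩ | ⟨t, rfl, rfl⟩
  · rw [inl.injEq, τ.s_inj.eq_iff, σ.A_inj.eq_iff]
  · exact iff_of_false inl_ne_inr (t.2.2 i).symm
  · exact iff_of_false inr_ne_inl (r.2.2 j)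
  · rw [inr.injEq]
    exact Subtype.ext_iff

theorem rep_or (f' : F' ⊕ σ.Rest) : (∃ f, Rep σ τ f f') ∨ ∃ K, f' = inl K ∧ ¬ J τ.S K := by
  rcases f' with K | r
  · by_cases q : J τ.S K
    · obtain ⟨i, rfl⟩ := (τ.hS K).mp q
      exact Or.inl ⟨_, Or.inl ⟨i, rfl, rfl⟩⟩
    · exact Or.inr ⟨K, rfl, q⟩
  · exact Or.inl ⟨_, Or.inr ⟨r, rfl, rfl⟩⟩

/-- The same for the vertices of the second summand. -/
abbrev Rep' (σ : SFacet I) (τ : SFacet (flip J)) (u : V') (u' : V ⊕ τ.Rest) : Prop :=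
  Rep (I := flip J) (J := flip I) τ σ u u'

theorem Rep.inc' {u u'} (r : Rep' σ τ u u') (K : F') : glue σ τ u' (inl K) ↔ J u K := by
  have := Rep.inc r K
  rwa [← glue_flip] at this

theorem rep_of_pure {K : F'} (hK : ¬ J τ.S K) {u'} (q : glue σ τ u' (inl K)) :
    ∃ u, Rep' σ τ u u' := by
  rcases u' with v | u
  · rcases q with ⟨i, rfl, -⟩ | ⟨i, rfl, -⟩
    · exact (hK (τ.sS i)).elim
    · exact ⟨_, Or.inl ⟨i, rfl, rfl⟩⟩
  · exact ⟨_, Or.inr ⟨u, rfl, rfl⟩⟩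

theorem inl_of_rep (P' : Pat J) (H' : Real J) {f f' g g'} (r : Rep σ τ f f') (t : Rep σ τ g g')
    (e : f' ≠ g') {v'} (h1 : glue σ τ v' f') (h2 : glue σ τ v' g') : ∃ v, v' = inl v := by
  rcases v' with v | u
  · exact ⟨v, rfl⟩
  rcases r with ⟨i, rfl, rfl⟩ | ⟨r, rfl, rfl⟩
  · rcases t with ⟨j, rfl, rfl⟩ | ⟨t, rfl, rfl⟩
    · exact (e (by rw [τ.pure P'.flip H'.flip u h1 h2])).elim
    · exact h2.elim
  · exact h1.elim

theorem pure_pure (P : Pat I) (H : Real I) {K : F'} (hK : ¬ J τ.S K) (r : σ.Rest) {v' w'}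
    (h1 : glue σ τ v' (inl K)) (h2 : glue σ τ v' (inr r)) (h3 : glue σ τ w' (inl K))
    (h4 : glue σ τ w' (inr r)) : v' = w' := by
  obtain ⟨_, ⟨i, rfl, rfl⟩ | ⟨u, rfl, rfl⟩⟩ := rep_of_pure hK h1
  · obtain ⟨_, ⟨j, rfl, rfl⟩ | ⟨u, rfl, rfl⟩⟩ := rep_of_pure hK h3
    · rw [σ.pure P H r h2 h4]
    · exact h4.elim
  · exact h2.elim

theorem adj_rep (P' : Pat J) (H' : Real J) {f f' g g'} (r : Rep σ τ f f') (t : Rep σ τ g g') :
    Adj (glue σ τ) f' g' ↔ Adj I f g := by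
  constructor
  · rintro ⟨e, v', w', hvw, h1, h2, h3, h4⟩
    obtain ⟨v, rfl⟩ := inl_of_rep P' H' r t e h1 h2
    obtain ⟨w, rfl⟩ := inl_of_rep P' H' r t e h3 h4
    exact ⟨fun q => e ((r.eq_iff t).mpr q), v, w, fun q => hvw (q ▸ rfl), (r.inc _).mp h1,
      (t.inc _).mp h2, (r.inc _).mp h3, (t.inc _).mp h4⟩
  · rintro ⟨e, v, w, hvw, h1, h2, h3, h4⟩
    exact ⟨fun q => e ((r.eq_iff t).mp q), inl v, inl w, fun q => hvw (inl.inj q),
      (r.inc _).mpr h1, (t.inc _).mpr h2, (r.inc _).mpr h3, (t.inc _).mpr h4⟩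

theorem adj_pure {K L : F'} (hK : ¬ J τ.S K) : Adj (glue σ τ) (inl K) (inl L) ↔ Adj J K L := by
  constructor
  · rintro ⟨e, v', w', hvw, h1, h2, h3, h4⟩
    obtain ⟨v, r⟩ := rep_of_pure hK h1
    obtain ⟨w, t⟩ := rep_of_pure hK h3
    exact ⟨fun q => e (q ▸ rfl), v, w, fun q => hvw ((r.eq_iff t).mpr q), (r.inc' _).mp h1,
      (r.inc' _).mp h2, (t.inc' _).mp h3, (t.inc' _).mp h4⟩
  · rintro ⟨e, v, w, hvw, h1, h2, h3, h4⟩
    obtain ⟨v', r⟩ := Rep.ex (I := flip J) (J := flip I) (σ := τ) σ (f := v)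
      fun q => hK (q ▸ h1)
    obtain ⟨w', t⟩ := Rep.ex (I := flip J) (J := flip I) (σ := τ) σ (f := w)
      fun q => hK (q ▸ h3)
    exact ⟨fun q => e (inl.inj q), v', w', fun q => hvw ((r.eq_iff t).mp q), (r.inc' _).mpr h1,
      (r.inc' _).mpr h2, (t.inc' _).mpr h3, (t.inc' _).mpr h4⟩

theorem SFacet.adj_A (σ : SFacet I) (i j : Fin 4) : Adj I (σ.A i) (σ.A j) ↔ i ≠ j := by
  refine ⟨fun a e => a.1 (e ▸ rfl), fun q => ?_⟩
  obtain ⟨k, l, hkl, a1, a2, a3, a4⟩ : ∃ k l : Fin 4, k ≠ l ∧ k ≠ i ∧ k ≠ j ∧ l ≠ i ∧ l ≠ j := by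
    revert i j
    decide
  exact ⟨fun e => q (σ.A_inj e), σ.s k, σ.s l, fun e => hkl (σ.s_inj e), (σ.hA _ _).mpr a1,
    (σ.hA _ _).mpr a2, (σ.hA _ _).mpr a3, (σ.hA _ _).mpr a4⟩

theorem SFacet.adj_S (σ : SFacet I) (i : Fin 4) : Adj I σ.S (σ.A i) := by
  obtain ⟨k, l, hkl, a1, a2⟩ : ∃ k l : Fin 4, k ≠ l ∧ k ≠ i ∧ l ≠ i := by
    revert i
    decide
  exact ⟨(σ.A_ne i).symm, σ.s k, σ.s l, fun e => hkl (σ.s_inj e), σ.sS _, (σ.hA _ _).mpr a1,
    σ.sS _, (σ.hA _ _).mpr a2⟩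

theorem SFacet.adj_s (τ : SFacet (flip J)) (i j : Fin 4) : Adj J (τ.s i) (τ.s j) ↔ i ≠ j := by
  refine ⟨fun a e => a.1 (e ▸ rfl), fun q => ?_⟩
  obtain ⟨k, a1, a2⟩ : ∃ k : Fin 4, i ≠ k ∧ j ≠ k := by
    revert i j
    decide
  exact ⟨fun e => q (τ.s_inj e), τ.S, τ.A k, (τ.A_ne k).symm, τ.sS _, τ.sS _, (τ.hA _ _).mpr a1,
    (τ.hA _ _).mpr a2⟩

theorem adj_inl (P' : Pat J) (H' : Real J) (K L : F') :
    Adj (glue σ τ) (inl K) (inl L) ↔ Adj J K L := by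
  by_cases hK : J τ.S K
  swap
  · exact adj_pure hK
  by_cases hL : J τ.S L
  swap
  · rw [adj_comm, adj_pure hL, adj_comm]
  obtain ⟨i, rfl⟩ := (τ.hS K).mp hK
  obtain ⟨j, rfl⟩ := (τ.hS L).mp hL
  rw [adj_rep P' H' (Or.inl ⟨i, rfl, rfl⟩) (Or.inl ⟨j, rfl, rfl⟩), σ.adj_A, τ.adj_s]

theorem glue_half (P : Pat I) (H : Real I) (P' : Pat J) (H' : Real J) : Half (glue σ τ) := by
  have key : ∀ K g' v' w', ¬ J τ.S K → inl K ≠ g' → v' ≠ w' → glue σ τ v' (inl K) →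
      glue σ τ v' g' → glue σ τ w' (inl K) → glue σ τ w' g' →
      ∃ u, u ≠ v' ∧ u ≠ w' ∧ glue σ τ u (inl K) ∧ glue σ τ u g' := by
    intro K g' v' w' hK e hvw h1 h2 h3 h4
    rcases g' with L | r
    · obtain ⟨v, r⟩ := rep_of_pure hK h1
      obtain ⟨w, t⟩ := rep_of_pure hK h3
      obtain ⟨u, u1, u2, u3, u4⟩ := P'.l.a2 K L v w (fun q => e (q ▸ rfl))
        (fun q => hvw ((r.eq_iff t).mpr q)) ((r.inc' _).mp h1) ((r.inc' _).mp h2)
        ((t.inc' _).mp h3) ((t.inc' _).mp h4)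
      obtain ⟨u', s⟩ := Rep.ex (I := flip J) (J := flip I) (σ := τ) σ (f := u)
        fun q => hK (q ▸ u3)
      exact ⟨u', fun q => u1 ((s.eq_iff r).mp q), fun q => u2 ((s.eq_iff t).mp q),
        (s.inc' _).mpr u3, (s.inc' _).mpr u4⟩
    · exact (hvw (pure_pure P H hK r h1 h2 h3 h4)).elim
  constructor
  · intro f' g' v' w' e hvw h1 h2 h3 h4
    rcases rep_or (τ := τ) f' with ⟨f, r⟩ | ⟨K, rfl, hK⟩
    swap
    · exact key K g' v' w' hK e hvw h1 h2 h3 h4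
    rcases rep_or (τ := τ) g' with ⟨g, t⟩ | ⟨K, rfl, hK⟩
    swap
    · obtain ⟨u, u1, u2, u3, u4⟩ := key K f' v' w' hK e.symm hvw h2 h1 h4 h3
      exact ⟨u, u1, u2, u4, u3⟩
    obtain ⟨v, rfl⟩ := inl_of_rep P' H' r t e h1 h2
    obtain ⟨w, rfl⟩ := inl_of_rep P' H' r t e h3 h4
    obtain ⟨u, u1, u2, u3, u4⟩ := P.l.a2 f g v w (fun q => e ((r.eq_iff t).mpr q))
      (fun q => hvw (q ▸ rfl)) ((r.inc _).mp h1) ((t.inc _).mp h2) ((r.inc _).mp h3)
      ((t.inc _).mp h4)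
    exact ⟨inl u, fun q => u1 (inl.inj q), fun q => u2 (inl.inj q), (r.inc _).mpr u3,
      (t.inc _).mpr u4⟩
  · intro f'
    rcases rep_or (τ := τ) f' with ⟨f, r⟩ | ⟨K, rfl, hK⟩
    · obtain ⟨g, hfg, v, w, hvw, i1, i2, i3, i4⟩ := P.l.nb f
      obtain ⟨k, x, y, z, e⟩ := P.edge hvw hfg i1 i2 i3 i4
      by_cases q : g = σ.S
      · obtain ⟨k', t⟩ := Rep.ex τ (f := k) fun s => e.gk (q.trans s.symm)
        exact ⟨k', (adj_rep P' H' r t).mpr ⟨e.fk, v, w, hvw, i1, e.vk, i3, e.wk⟩⟩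
      · obtain ⟨g', t⟩ := Rep.ex τ q
        exact ⟨g', (adj_rep P' H' r t).mpr ⟨hfg, v, w, hvw, i1, i2, i3, i4⟩⟩
    · obtain ⟨L, a⟩ := P'.l.nb K
      exact ⟨inl L, (adj_pure hK).mpr a⟩

theorem glue_k33 (P : Pat I) (H : Real I) (P' : Pat J) (H' : Real J) : K33 (glue σ τ) := by
  have key : ∀ K g' k', ¬ J τ.S K → inl K ≠ g' → inl K ≠ k' → g' ≠ k' → ∀ a b c,
      glue σ τ a (inl K) → glue σ τ a g' → glue σ τ a k' → glue σ τ b (inl K) →
      glue σ τ b g' → glue σ τ b k' → glue σ τ c (inl K) → glue σ τ c g' → glue σ τ c k' →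
      a = b ∨ a = c ∨ b = c := by
    intro K g' k' hK e1 e2 e3 a b c h1 h2 h3 h4 h5 h6 h7 h8 h9
    rcases g' with L | r
    swap
    · exact Or.inl (pure_pure P H hK r h1 h2 h4 h5)
    rcases k' with M | r
    swap
    · exact Or.inl (pure_pure P H hK r h1 h3 h4 h6)
    obtain ⟨a', r⟩ := rep_of_pure hK h1
    obtain ⟨b', s⟩ := rep_of_pure hK h4
    obtain ⟨c', t⟩ := rep_of_pure hK h7
    rw [r.eq_iff s, r.eq_iff t, s.eq_iff t]
    exact P'.k K L M (fun q => e1 (q ▸ rfl)) (fun q => e2 (q ▸ rfl)) (fun q => e3 (q ▸ rfl))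
      a' b' c' ((r.inc' _).mp h1) ((r.inc' _).mp h2) ((r.inc' _).mp h3) ((s.inc' _).mp h4)
      ((s.inc' _).mp h5) ((s.inc' _).mp h6) ((t.inc' _).mp h7) ((t.inc' _).mp h8)
      ((t.inc' _).mp h9)
  intro f' g' k' e1 e2 e3 a b c h1 h2 h3 h4 h5 h6 h7 h8 h9
  rcases rep_or (τ := τ) f' with ⟨f, r⟩ | ⟨K, rfl, hK⟩
  swap
  · exact key K g' k' hK e1 e2 e3 a b c h1 h2 h3 h4 h5 h6 h7 h8 h9
  rcases rep_or (τ := τ) g' with ⟨g, s⟩ | ⟨K, rfl, hK⟩
  swap
  · exact key K f' k' hK e1.symm e3 e2 a b c h2 h1 h3 h5 h4 h6 h8 h7 h9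
  rcases rep_or (τ := τ) k' with ⟨k, t⟩ | ⟨K, rfl, hK⟩
  swap
  · exact key K f' g' hK e2.symm e3.symm e1 a b c h3 h1 h2 h6 h4 h5 h9 h7 h8
  obtain ⟨a, rfl⟩ := inl_of_rep P' H' r s e1 h1 h2
  obtain ⟨b, rfl⟩ := inl_of_rep P' H' r s e1 h4 h5
  obtain ⟨c, rfl⟩ := inl_of_rep P' H' r s e1 h7 h8
  simp only [inl.injEq]
  exact P.k f g k (fun q => e1 ((r.eq_iff s).mpr q)) (fun q => e2 ((r.eq_iff t).mpr q))
    (fun q => e3 ((s.eq_iff t).mpr q)) a b c ((r.inc _).mp h1) ((s.inc _).mp h2)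
    ((t.inc _).mp h3) ((r.inc _).mp h4) ((s.inc _).mp h5) ((t.inc _).mp h6) ((r.inc _).mp h7)
    ((s.inc _).mp h8) ((t.inc _).mp h9)

theorem glue_pat (P : Pat I) (H : Real I) (P' : Pat J) (H' : Real J) : Pat (glue σ τ) :=
  ⟨glue_half P H P' H', glue_flip σ τ ▸ glue_half P'.flip H'.flip P.flip H.flip,
    glue_k33 P H P' H'⟩

theorem glue_nadj [Fintype F] [Fintype F'] (P : Pat I) (H : Real I) (P' : Pat J) (H' : Real J) :
    nadj (glue σ τ) + 20 = nadj I + nadj J := by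
  classical
  have rA : ∀ i, Rep σ τ (σ.A i) (inl (τ.s i)) := fun i => Or.inl ⟨i, rfl, rfl⟩
  have rR : ∀ r : σ.Rest, Rep σ τ r.1 (inr r) := fun r => Or.inr ⟨r, rfl, rfl⟩
  have c1 : ∀ r : σ.Rest, (∑ K, if Adj (glue σ τ) (inr r) (inl K) then 1 else 0) =
      ∑ i, if Adj I r.1 (σ.A i) then 1 else 0 := by
    intro r
    refine (Fintype.sum_of_injective τ.s τ.s_inj _ _ (fun K hK => if_neg ?_) fun i => ?_).symm
    · rintro ⟨-, v, w, hvw, h1, h2, h3, h4⟩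
      refine hvw (pure_pure P H (fun q => hK ?_) r h2 h1 h4 h3)
      obtain ⟨i, rfl⟩ := (τ.hS K).mp q
      exact ⟨i, rfl⟩
    · exact if_congr (adj_rep P' H' (rR r) (rA i)).symm rfl rfl
  have c2 : ∀ r : σ.Rest, ¬ Adj I r.1 σ.S := by
    rintro r ⟨-, v, w, hvw, h1, h2, h3, h4⟩
    obtain ⟨i, rfl⟩ := (σ.hS v).mp h2
    obtain ⟨j, rfl⟩ := (σ.hS w).mp h4
    exact hvw (by rw [σ.pure P H r h1 h3])
  have c3 : ¬ Adj I σ.S σ.S := fun a => a.1 rfl
  have c4 : (∑ K, ∑ r : σ.Rest, if Adj (glue σ τ) (inl K) (inr r) then 1 else 0) =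
      ∑ i, ∑ r : σ.Rest, if Adj I (σ.A i) r.1 then 1 else 0 := by
    rw [Finset.sum_comm, Finset.sum_comm (s := (Finset.univ : Finset (Fin 4)))]
    refine Finset.sum_congr rfl fun r _ => ?_
    simp only [adj_comm (f := inl _), adj_comm (f := σ.A _)]
    exact c1 r
  have c5 : (∑ i : Fin 4, ∑ j : Fin 4, if i ≠ j then 1 else 0) = 12 := by decide
  rw [nadj_eq, nadj_eq I, nadj_eq J, σ.sum_eq]
  simp only [σ.sum_eq, Fintype.sum_sum_type, Finset.sum_add_distrib, adj_inl P' H', c1, c4,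
    adj_rep P' H' (rR _) (rR _), σ.adj_A, σ.adj_S, (σ.adj_S _).symm, c2, c3,
    fun r : σ.Rest => adj_comm.not.mp (c2 r), if_true, if_false, c5]
  simp
  ring

end

end Pool.Agent.Lib.MP_087efe_co
end

-- part Pool.Agent.Lib.MP_087efe_co.Geo
section

/-! From a realized pattern to a convex polytope: faces and their dimensions. -/

namespace Pool.Agent.Lib.MP_087efe_co

open Matrix

variable {V F : Type} {I : V → F → Prop}

theorem Real.normal [Fintype F] [Nonempty V] (P : Pat I) (H : Real I) :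
    ∃ p h, Fac I p h ∧ ∀ v, p v 0 = 1 := by
  obtain ⟨p, h, H⟩ := H
  have H : Fac I p h := H
  set L : Fin 5 → ℝ := ∑ f, h f with hL
  have Lp : ∀ v, 0 < L ⬝ᵥ p v := tot_pos P H
  obtain ⟨j, hj⟩ : ∃ j, L j ≠ 0 := by
    by_contra q
    push Not at q
    have := Lp (Classical.arbitrary V)
    simp [dotProduct, q] at this
  have key : ∀ v f, (Fin.cons (h f j / L j)
      (fun i => h f (j.succAbove i) - h f j * L (j.succAbove i) / L j) : Fin 5 → ℝ) ⬝ᵥ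
      (Fin.cons 1 (fun i => p v (j.succAbove i) / L ⬝ᵥ p v) : Fin 5 → ℝ) =
      h f ⬝ᵥ p v / L ⬝ᵥ p v := by
    intro v f
    have e1 : L ⬝ᵥ p v = L j * p v j + ∑ i : Fin 4, L (j.succAbove i) * p v (j.succAbove i) :=
      Fin.sum_univ_succAbove (fun i => L i * p v i) j
    have e2 : h f ⬝ᵥ p v =
        h f j * p v j + ∑ i : Fin 4, h f (j.succAbove i) * p v (j.succAbove i) :=
      Fin.sum_univ_succAbove (fun i => h f i * p v i) j
    have hl := (Lp v).ne'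
    generalize L ⬝ᵥ p v = l at e1 hl ⊢
    rw [e2, dotProduct, Fin.sum_univ_succ]
    simp only [Fin.cons_zero, Fin.cons_succ, Fin.sum_univ_four] at e1 ⊢
    field_simp
    rw [e1]
    ring
  refine ⟨fun v => Fin.cons 1 (fun i => p v (j.succAbove i) / L ⬝ᵥ p v), fun f =>
    Fin.cons (h f j / L j) (fun i => h f (j.succAbove i) - h f j * L (j.succAbove i) / L j),
    fun v f => ?_, fun v => rfl⟩
  rw [key]
  exact ⟨div_nonneg (H v f).1 (Lp v).le, by rw [div_eq_zero_iff, or_iff_left (Lp v).ne', (H v f).2]⟩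

abbrev E4 := EuclideanSpace ℝ (Fin 4)

/-- The point of `ℝ⁴` with homogeneous coordinates `a`. -/
def pt (a : Fin 5 → ℝ) : E4 := WithLp.toLp 2 fun i => a i.succ

/-- The linear part of an affine functional. -/
noncomputable def lin (φ : Fin 5 → ℝ) : E4 →L[ℝ] ℝ :=
  ∑ i : Fin 4, φ i.succ • EuclideanSpace.proj i

theorem lin_apply (φ : Fin 5 → ℝ) (x : E4) : lin φ x = ∑ i : Fin 4, φ i.succ * x i := by
  simp [lin]

theorem lin_pt (φ a : Fin 5 → ℝ) (ha : a 0 = 1) : φ 0 + lin φ (pt a) = φ ⬝ᵥ a := by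
  rw [lin_apply, dotProduct, Fin.sum_univ_succ (n := 4), ha, mul_one]
  rfl

theorem exists_lin (l : E4 →L[ℝ] ℝ) (c : ℝ) : ∃ φ : Fin 5 → ℝ, φ 0 = c ∧ lin φ = l := by
  refine ⟨Fin.cons c fun i => l (EuclideanSpace.single i 1), rfl, ?_⟩
  ext x
  rw [lin_apply]
  conv_rhs => rw [← (EuclideanSpace.basisFun (Fin 4) ℝ).sum_repr x]
  simp [mul_comm]

variable {p : V → Fin 5 → ℝ} {h : F → Fin 5 → ℝ}

/-- The convex hull of a set of vertices. -/
def cv (p : V → Fin 5 → ℝ) (S : Set V) : Set E4 := convexHull ℝ ((fun v => pt (p v)) '' S)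

theorem mem_cv {S : Set V} {v : V} (hv : v ∈ S) : pt (p v) ∈ cv p S :=
  subset_convexHull _ _ ⟨v, hv, rfl⟩

theorem cv_mono {S T : Set V} (hv : S ⊆ T) : cv p S ⊆ cv p T :=
  convexHull_mono (Set.image_mono hv)

theorem cv_nonneg (p1 : ∀ v, p v 0 = 1) {S : Set V} {φ : Fin 5 → ℝ}
    (hφ : ∀ v ∈ S, 0 ≤ φ ⬝ᵥ p v) {x : E4} (hx : x ∈ cv p S) : 0 ≤ φ 0 + lin φ x := by
  have : Convex ℝ {x : E4 | -φ 0 ≤ lin φ x} := convex_halfSpace_ge (lin φ).toLinearMap.isLinear _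
  have := convexHull_min (s := (fun v => pt (p v)) '' S) (by
    rintro _ ⟨v, hv, rfl⟩
    have := hφ v hv
    rw [← lin_pt φ _ (p1 v)] at this
    show -φ 0 ≤ lin φ (pt (p v))
    linarith) this hx
  have : -φ 0 ≤ lin φ x := this
  linarith

theorem cv_zero (p1 : ∀ v, p v 0 = 1) {S : Set V} {φ : Fin 5 → ℝ}
    (hφ : ∀ v ∈ S, φ ⬝ᵥ p v = 0) {x : E4} (hx : x ∈ cv p S) : φ 0 + lin φ x = 0 := by
  have : Convex ℝ {x : E4 | lin φ x = -φ 0} := convex_hyperplane (lin φ).toLinearMap.isLinear _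
  have := convexHull_min (s := (fun v => pt (p v)) '' S) (by
    rintro _ ⟨v, hv, rfl⟩
    have := hφ v hv
    rw [← lin_pt φ _ (p1 v)] at this
    show lin φ (pt (p v)) = -φ 0
    linarith) this hx
  have : lin φ x = -φ 0 := this
  linarith

theorem face_eq [Fintype V] (p1 : ∀ v, p v 0 = 1) {φ : Fin 5 → ℝ} (hφ : ∀ v, 0 ≤ φ ⬝ᵥ p v) :
    {x ∈ cv p Set.univ | φ 0 + lin φ x = 0} = cv p {v | φ ⬝ᵥ p v = 0} := by
  classical
  ext x
  constructor
  · rintro ⟨hx, h0⟩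
    obtain ⟨ι, _, w, z, hw0, hw1, hz, rfl⟩ := mem_convexHull_iff_exists_fintype.mp hx
    choose u _ hu using hz
    have e : ∑ i, w i * (φ ⬝ᵥ p (u i)) = 0 := by
      rw [← h0, map_sum]
      simp_rw [← lin_pt φ _ (p1 _), mul_add]
      rw [Finset.sum_add_distrib, ← Finset.sum_mul, hw1, one_mul]
      simp [← hu]
    rw [Finset.sum_eq_zero_iff_of_nonneg fun i _ => mul_nonneg (hw0 i) (hφ _)] at e
    have e2 : ∀ i, w i ≠ 0 → φ ⬝ᵥ p (u i) = 0 := fun i hi =>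
      (mul_eq_zero.mp (e i (Finset.mem_univ _))).resolve_left hi
    rw [← Finset.sum_filter_of_ne (p := fun i => w i ≠ 0) fun i _ q => left_ne_zero_of_smul q]
    refine (convex_convexHull ℝ _).sum_mem (fun i _ => hw0 i) ?_ fun i hi => ?_
    · rw [Finset.sum_filter_ne_zero, hw1]
    · rw [← hu i]
      exact mem_cv (e2 i (Finset.mem_filter.mp hi).2)
  · intro hx
    exact ⟨cv_mono (Set.subset_univ _) hx, cv_zero p1 (fun v hv => hv) hx⟩

theorem Cl.functional [Fintype F] (H : Fac I p h) {S : Set V} (c : Cl I S) :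
    ∃ φ : Fin 5 → ℝ, (∀ v, 0 ≤ φ ⬝ᵥ p v) ∧ S = {v | φ ⬝ᵥ p v = 0} := by
  classical
  refine ⟨∑ f ∈ Finset.univ.filter (fun f => ∀ v ∈ S, I v f), h f, fun v => ?_, ?_⟩
  · rw [sum_dotProduct]
    exact Finset.sum_nonneg fun f _ => (H v f).1
  · ext u
    simp only [Set.mem_ofPred_eq, sum_dotProduct]
    rw [Finset.sum_eq_zero_iff_of_nonneg fun f _ => (H u f).1]
    constructor
    · intro hu f hf
      exact H.zero ((Finset.mem_filter.mp hf).2 u hu)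
    · intro q
      exact c u fun f hf => (H u f).2.mp (q f (by simpa using hf))

theorem exposed_iff [Fintype V] [Fintype F] (P : Pat I) (H : Fac I p h) (p1 : ∀ v, p v 0 = 1)
    (G : Set E4) : (IsExposed ℝ (cv p Set.univ) G ∧ G.Nonempty) ↔
      ∃ S, Cl I S ∧ S.Nonempty ∧ G = cv p S := by
  constructor
  · rintro ⟨hG, hne⟩
    obtain ⟨l, hl⟩ := hG hne
    obtain ⟨x0, hx0⟩ := hne
    have hx1 := hx0
    rw [hl] at hx1
    obtain ⟨φ, h0, h1⟩ := exists_lin (-l) (l x0)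
    have hφ : ∀ v, 0 ≤ φ ⬝ᵥ p v := by
      intro v
      rw [← lin_pt φ _ (p1 v), h0, h1]
      have := hx1.2 _ (mem_cv (p := p) (Set.mem_univ v))
      simpa using this
    have hG2 : G = cv p {v | φ ⬝ᵥ p v = 0} := by
      rw [← face_eq p1 hφ, hl, h0, h1]
      ext x
      simp only [Set.mem_ofPred_eq, _root_.neg_apply]
      refine and_congr_right fun hx => ⟨fun q => ?_, fun q y hy => ?_⟩
      · have := q x0 hx1.1
        have := hx1.2 x hx
        linarith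
      · have := hx1.2 y hy
        linarith
    refine ⟨{v | φ ⬝ᵥ p v = 0}, fun u hu => closed P H φ hφ u hu, ?_, hG2⟩
    rw [hG2] at hx0
    by_contra q
    rw [Set.not_nonempty_iff_eq_empty] at q
    rw [q] at hx0
    simp [cv] at hx0
  · rintro ⟨S, c, ⟨v, hv⟩, rfl⟩
    obtain ⟨φ, hφ, rfl⟩ := c.functional H
    refine ⟨fun _ => ⟨-lin φ, ?_⟩, _, mem_cv hv⟩
    rw [← face_eq p1 hφ]
    ext x
    simp only [Set.mem_ofPred_eq, _root_.neg_apply]
    refine and_congr_right fun hx => ⟨fun q y hy => ?_, fun q => ?_⟩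
    · have := cv_nonneg p1 (fun v _ => hφ v) hy
      linarith
    · have h1 := q _ (mem_cv (p := p) (Set.mem_univ v))
      have h2 := cv_nonneg p1 (fun v _ => hφ v) hx
      have h3 := lin_pt φ _ (p1 v)
      have h4 : φ ⬝ᵥ p v = 0 := hv
      linarith

theorem mem_cv_iff [Fintype F] (H : Fac I p h) (p1 : ∀ v, p v 0 = 1) {S : Set V} (c : Cl I S)
    {v : V} : pt (p v) ∈ cv p S ↔ v ∈ S := by
  refine ⟨fun q => ?_, mem_cv⟩
  obtain ⟨φ, hφ, rfl⟩ := c.functional H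
  have := cv_zero p1 (fun v hv => hv) q
  rwa [lin_pt φ _ (p1 v)] at this

theorem cv_subset_iff [Fintype F] (H : Fac I p h) (p1 : ∀ v, p v 0 = 1) {S T : Set V}
    (c : Cl I T) : cv p S ⊆ cv p T ↔ S ⊆ T :=
  ⟨fun q _ hv => (mem_cv_iff H p1 c).mp (q (mem_cv hv)), cv_mono⟩

theorem cv_inj [Fintype F] (H : Fac I p h) (p1 : ∀ v, p v 0 = 1) {S T : Set V}
    (c : Cl I S) (d : Cl I T) (e : cv p S = cv p T) : S = T :=
  Set.Subset.antisymm ((cv_subset_iff H p1 d).mp e.subset) ((cv_subset_iff H p1 c).mp e.superset)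

/-- The dimension of the hull of a set of vertices. -/
noncomputable def dm (p : V → Fin 5 → ℝ) (S : Set V) : ℕ :=
  Module.finrank ℝ (vectorSpan ℝ (cv p S))

theorem dm_eq (S : Set V) :
    dm p S = Module.finrank ℝ (vectorSpan ℝ ((fun v => pt (p v)) '' S)) := by
  rw [dm, cv, ← direction_affineSpan, affineSpan_convexHull, direction_affineSpan]

theorem dm_mono {S T : Set V} (e : S ⊆ T) : dm p S ≤ dm p T :=
  Submodule.finrank_mono (vectorSpan_mono ℝ (cv_mono e))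

theorem dm_le (S : Set V) : dm p S ≤ 4 := by
  have := Submodule.finrank_le (vectorSpan ℝ (cv p S))
  rwa [finrank_euclideanSpace_fin] at this

theorem dm_tri (p1 : ∀ v, p v 0 = 1) {n : ℕ} (b : Fin (n + 1) → V) (a : Fin (n + 1) → Fin 5 → ℝ)
    (hd : ∀ i, a i ⬝ᵥ p (b i) ≠ 0) (hl : ∀ i j, j < i → a i ⬝ᵥ p (b j) = 0) :
    dm p (Set.range b) = n := by
  have hi : AffineIndependent ℝ fun i => pt (p (b i)) := by
    rw [affineIndependent_iff]
    intro s w h0 h1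
    have h2 : ∀ i, ∑ j ∈ s, w j * (a i ⬝ᵥ p (b j)) = 0 := by
      intro i
      simp_rw [← lin_pt (a i) _ (p1 _), mul_add]
      rw [Finset.sum_add_distrib, ← Finset.sum_mul, h0, zero_mul, zero_add]
      have := congrArg (lin (a i)) h1
      simpa using this
    intro e
    induction e using WellFoundedGT.induction with
    | ind e ih =>
      intro he
      have := h2 e
      rw [Finset.sum_eq_single_of_mem e he] at this
      · exact (mul_eq_zero.mp this).resolve_right (hd e)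
      · intro j hj hje
        rcases lt_or_gt_of_ne hje with q | q
        · rw [hl e j q, mul_zero]
        · rw [ih j q hj, zero_mul]
  rw [dm_eq, ← Set.range_comp]
  exact hi.finrank_vectorSpan (Fintype.card_fin _)

end Pool.Agent.Lib.MP_087efe_co
end
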