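import Pool.Agent.Lib.MP_087efe_co.Geo

/-! A realized pattern gives a 2-simple 2-simplicial polytope with the expected f-vector. -/

namespace Pool.Agent.Lib.MP_087efe_co

open Matrix

variable {V F : Type} {I : V → F → Prop} {p : V → Fin 5 → ℝ} {h : F → Fin 5 → ℝ}

theorem dm_vertex (P : Pat I) (H : Fac I p h) (p1 : ∀ v, p v 0 = 1) (v : V) : dm p {v} = 0 := by
  obtain ⟨f, hf⟩ := P.miss v
  have := dm_tri p1 ![v] ![h f] (by
    intro i
    fin_cases i
    exact (H.pos hf).ne') (by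
    intro i j hij
    fin_cases i; fin_cases j; simp at hij)
  simpa using this

theorem dm_edge (P : Pat I) (H : Fac I p h) (p1 : ∀ v, p v 0 = 1) {v w : V} (hvw : v ≠ w) :
    dm p {v, w} = 1 := by
  obtain ⟨f0, h0⟩ := P.miss v
  obtain ⟨f1, h1, h2⟩ := P.anti' hvw
  have := dm_tri p1 ![v, w] ![h f0, h f1] (by
    intro i
    fin_cases i
    exacts [(H.pos h0).ne', (H.pos h2).ne']) (by
    intro i j hij
    fin_cases i <;> fin_cases j <;> simp at hij ⊢
    exact H.zero h1)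
  rwa [Matrix.range_cons, Matrix.range_cons, Matrix.range_empty, Set.union_empty] at this

theorem dm_two (P : Pat I) (H : Fac I p h) (p1 : ∀ v, p v 0 = 1) {f g : F} (a : Adj I f g) :
    dm p {v | I v f ∧ I v g} = 2 := by
  obtain ⟨hfg, v, w, hvw, i1, i2, i3, i4⟩ := a
  obtain ⟨k, x, y, z, e⟩ := P.edge hvw hfg i1 i2 i3 i4
  obtain ⟨f0, h0⟩ := P.miss v
  obtain ⟨f1, h1, h2⟩ := P.anti' hvw
  have := dm_tri p1 (n := 2) ![v, w, z] ![h f0, h f1, h k] (by
    intro i
    fin_cases i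
    exacts [(H.pos h0).ne', (H.pos h2).ne', (H.pos e.zk).ne']) (by
    intro i j hij
    fin_cases i <;> fin_cases j <;> simp at hij ⊢
    exacts [H.zero h1, H.zero e.vk, H.zero e.wk])
  rw [← this]
  congr 1
  ext u
  simp only [Set.mem_ofPred_eq, Matrix.range_cons, Matrix.range_empty, Set.union_empty,
    Set.mem_union, Set.mem_singleton_iff]
  constructor
  · rintro ⟨u1, u2⟩
    exact P.a3 ⟨p, h, H⟩ hfg hvw (fun q => e.zk (q ▸ e.vk)) (fun q => e.zk (q ▸ e.wk))
      i1 i3 e.zf i2 i4 e.zg u1 u2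
  · rintro (rfl | rfl | rfl)
    exacts [⟨i1, i2⟩, ⟨i3, i4⟩, ⟨e.zf, e.zg⟩]

theorem dm_univ (P : Pat I) (H : Fac I p h) (p1 : ∀ v, p v 0 = 1) [Nonempty V] :
    dm p Set.univ = 4 := by
  obtain ⟨w, hvw, f, g, hfg, i1, i2, i3, i4⟩ := P.r.nb (Classical.arbitrary V)
  set v := Classical.arbitrary V
  obtain ⟨k, x, y, z, e⟩ := P.edge hvw hfg i1 i3 i2 i4
  obtain ⟨f0, h0⟩ := P.miss v
  obtain ⟨f1, h1, h2⟩ := P.anti' hvw
  have := dm_tri p1 (n := 4) ![v, w, x, y, z] ![h f0, h f1, h f, h g, h k] (by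
    intro i
    fin_cases i
    exacts [(H.pos h0).ne', (H.pos h2).ne', (H.pos e.xf).ne', (H.pos e.yg).ne',
      (H.pos e.zk).ne']) (by
    intro i j hij
    fin_cases i <;> fin_cases j <;> simp at hij ⊢
    exacts [H.zero h1, H.zero e.vf, H.zero e.wf, H.zero e.vg, H.zero e.wg, H.zero e.xg,
      H.zero e.vk, H.zero e.wk, H.zero e.xk, H.zero e.yk])
  exact le_antisymm (dm_le _) (this ▸ dm_mono (Set.subset_univ _))

theorem dm_facet (P : Pat I) (H : Fac I p h) (p1 : ∀ v, p v 0 = 1) (f : F) :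
    dm p {v | I v f} = 3 := by
  obtain ⟨g, hfg, v, w, hvw, i1, i2, i3, i4⟩ := P.l.nb f
  obtain ⟨k, x, y, z, e⟩ := P.edge hvw hfg i1 i2 i3 i4
  obtain ⟨f0, h0⟩ := P.miss v
  obtain ⟨f1, h1, h2⟩ := P.anti' hvw
  have := dm_tri p1 (n := 3) ![v, w, y, z] ![h f0, h f1, h g, h k] (by
    intro i
    fin_cases i
    exacts [(H.pos h0).ne', (H.pos h2).ne', (H.pos e.yg).ne', (H.pos e.zk).ne']) (by
    intro i j hij
    fin_cases i <;> fin_cases j <;> simp at hij ⊢
    exacts [H.zero h1, H.zero e.vg, H.zero e.wg, H.zero e.vk, H.zero e.wk, H.zero e.yk])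
  have h3 : 3 ≤ dm p {v | I v f} := by
    rw [← this]
    refine dm_mono ?_
    rintro _ ⟨i, rfl⟩
    fin_cases i
    exacts [e.vf, e.wf, e.yf, e.zf]
  have h4 : dm p {v | I v f} ≠ 4 := by
    intro q
    have q2 : vectorSpan ℝ (cv p {v | I v f}) = ⊤ :=
      Submodule.eq_top_of_finrank_eq (by rw [finrank_euclideanSpace_fin]; exact q)
    have q3 : vectorSpan ℝ (cv p {v | I v f}) ≤ LinearMap.ker (lin (h f)).toLinearMap := by
      rw [vectorSpan_def, Submodule.span_le]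
      rintro _ ⟨a, ha, b, hb, rfl⟩
      have e1 := cv_zero p1 (φ := h f) (fun v hv => H.zero hv) ha
      have e2 := cv_zero p1 (φ := h f) (fun v hv => H.zero hv) hb
      show lin (h f) (a - b) = 0
      rw [map_sub]
      linarith
    rw [q2] at q3
    have q4 : ∀ a, lin (h f) a = 0 := fun a => q3 (Submodule.mem_top (x := a))
    have e1 := lin_pt (h f) _ (p1 v)
    have e2 := lin_pt (h f) _ (p1 x)
    rw [q4, H.zero e.vf] at e1
    rw [q4] at e2
    have := H.pos e.xf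
    linarith
  have := dm_le (p := p) {v | I v f}
  omega

section
variable [Fintype V] [Fintype F] [Nonempty V]

theorem face_iff (P : Pat I) (H : Fac I p h) (p1 : ∀ v, p v 0 = 1) (G : Set E4) (i : ℕ) :
    IsFace (cv p Set.univ) G i ↔ (i = 4 ∧ G = cv p Set.univ) ∨
      (i = 3 ∧ ∃ f, G = cv p {v | I v f}) ∨
      (i = 2 ∧ ∃ f g, Adj I f g ∧ G = cv p {v | I v f ∧ I v g}) ∨
      (i = 1 ∧ ∃ v w, Adj (flip I) v w ∧ G = cv p {v, w}) ∨ (i = 0 ∧ ∃ v, G = cv p {v}) := by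
  rw [IsFace, ← and_assoc, exposed_iff P H p1]
  constructor
  · rintro ⟨⟨S, c, hS, rfl⟩, rfl⟩
    rcases c.cases P hS with rfl | ⟨f, rfl⟩ | ⟨f, g, a, rfl⟩ | ⟨v, w, a, rfl⟩ | ⟨v, rfl⟩
    · exact Or.inl ⟨dm_univ P H p1, rfl⟩
    · exact Or.inr (Or.inl ⟨dm_facet P H p1 f, f, rfl⟩)
    · exact Or.inr (Or.inr (Or.inl ⟨dm_two P H p1 a, f, g, a, rfl⟩))
    · exact Or.inr (Or.inr (Or.inr (Or.inl ⟨dm_edge P H p1 a.1, v, w, a, rfl⟩)))
    · exact Or.inr (Or.inr (Or.inr (Or.inr ⟨dm_vertex P H p1 v, v, rfl⟩)))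
  · rintro (⟨rfl, rfl⟩ | ⟨rfl, f, rfl⟩ | ⟨rfl, f, g, a, rfl⟩ | ⟨rfl, v, w, a, rfl⟩ |
      ⟨rfl, v, rfl⟩)
    · exact ⟨⟨_, fun _ _ => trivial, Set.univ_nonempty, rfl⟩, dm_univ P H p1⟩
    · obtain ⟨g, -, v, -, -, hv, -⟩ := P.l.nb f
      exact ⟨⟨_, cl_facet f, ⟨v, hv⟩, rfl⟩, dm_facet P H p1 f⟩
    · have := dm_two P H p1 a
      obtain ⟨-, v, -, -, h1, h2, -⟩ := a
      exact ⟨⟨_, cl_two f g, ⟨v, h1, h2⟩, rfl⟩, this⟩
    · exact ⟨⟨_, cl_edge P a, ⟨v, Or.inl rfl⟩, rfl⟩, dm_edge P H p1 a.1⟩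
    · exact ⟨⟨_, cl_vertex P v, ⟨v, rfl⟩, rfl⟩, dm_vertex P H p1 v⟩

omit [Fintype V] [Nonempty V] in
theorem facet_inj (P : Pat I) (H : Fac I p h) (p1 : ∀ v, p v 0 = 1) :
    Function.Injective fun f => cv p {v | I v f} := by
  intro f g e
  have := cv_inj H p1 (cl_facet f) (cl_facet g) e
  by_contra q
  obtain ⟨v, h1, h2⟩ := P.anti q
  exact h2 (this.subset h1)

/-- Counting unordered pairs. -/
theorem ncard_pairs {α β : Type} [Fintype α] (R : α → α → Prop) (c : α → α → β)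
    (hs : ∀ a b, R a b → R b a) (hne : ∀ a b, R a b → a ≠ b) (hc : ∀ a b, c a b = c b a)
    (hi : ∀ a b a' b', R a b → R a' b' → c a b = c a' b' → (a' = a ∧ b' = b) ∨ (a' = b ∧ b' = a))
    [DecidablePred fun x : α × α => R x.1 x.2] :
    (Finset.univ.filter fun x : α × α => R x.1 x.2).card =
      2 * {G | ∃ a b, R a b ∧ G = c a b}.ncard := by
  classical
  have e : {G | ∃ a b, R a b ∧ G = c a b} =
      ↑((Finset.univ.filter fun x : α × α => R x.1 x.2).image fun x => c x.1 x.2) := by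
    ext G
    simp [eq_comm]
  rw [e, Set.ncard_coe_finset]
  rw [Finset.card_eq_sum_card_image (fun x : α × α => c x.1 x.2), mul_comm, ← smul_eq_mul,
    ← Finset.sum_const]
  refine Finset.sum_congr rfl fun G hG => ?_
  obtain ⟨⟨a, b⟩, hab, rfl⟩ := Finset.mem_image.mp hG
  have hab : R a b := (Finset.mem_filter.mp hab).2
  rw [Finset.card_eq_two]
  refine ⟨(a, b), (b, a), fun q => hne a b hab (Prod.ext_iff.mp q).1, ?_⟩
  ext ⟨a', b'⟩
  simp only [Finset.mem_filter, Finset.mem_univ, true_and, Finset.mem_insert, Prod.mk.injEq,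
    Finset.mem_singleton]
  constructor
  · rintro ⟨h1, h2⟩
    exact hi a b a' b' hab h1 h2.symm
  · rintro (⟨rfl, rfl⟩ | ⟨rfl, rfl⟩)
    exacts [⟨hab, rfl⟩, ⟨hs _ _ hab, hc _ _⟩]

theorem polytope (P : Pat I) (H : Real I) {m : ℕ} (hm : nadj I = 2 * m) :
    ∃ Q : Set E4, IsPolytope Q ∧ TwoSimple Q ∧ TwoSimplicial Q ∧ fnum Q 0 = Fintype.card V ∧
      fnum Q 1 = m ∧ fnum Q 2 = m ∧ fnum Q 3 = Fintype.card F := by
  classical
  obtain ⟨p, h, H', p1⟩ := H.normal P
  have fi := face_iff P H' p1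
  refine ⟨cv p Set.univ, ⟨⟨Finset.univ.image fun v => pt (p v), by simp [cv]⟩, ?_⟩, ?_, ?_, ?_,
    ?_, ?_, ?_⟩
  · rw [AffineSubspace.affineSpan_eq_top_iff_vectorSpan_eq_top_of_nonempty ℝ E4 E4
      ⟨_, mem_cv (Set.mem_univ (Classical.arbitrary V))⟩]
    exact Submodule.eq_top_of_finrank_eq
      (by rw [finrank_euclideanSpace_fin]; exact dm_univ P H' p1)
  · intro G hG
    rw [fi] at hG
    simp only [OfNat.one_ne_ofNat, false_and, false_or, true_and, one_ne_zero, or_false] at hG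
    obtain ⟨v, w, ⟨hvw, f, g, hfg, i1, i2, i3, i4⟩, rfl⟩ := hG
    obtain ⟨k, x, y, z, e⟩ := P.edge hvw hfg i1 i3 i2 i4
    rw [Set.ncard_eq_three]
    refine ⟨cv p {v | I v f}, cv p {v | I v g}, cv p {v | I v k},
      fun q => e.fg (facet_inj P H' p1 q), fun q => e.fk (facet_inj P H' p1 q),
      fun q => e.gk (facet_inj P H' p1 q), ?_⟩
    ext G
    simp only [Set.mem_ofPred_eq, fi, Set.mem_insert_iff, Set.mem_singleton_iff]
    constructor
    · rintro ⟨hG, hs⟩
      simp only [Nat.reduceEqDiff, false_and, false_or, true_and, OfNat.ofNat_ne_one,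
        OfNat.ofNat_ne_zero, or_false] at hG
      obtain ⟨l, rfl⟩ := hG
      rw [cv_subset_iff H' p1 (cl_facet l)] at hs
      rcases e.only P H (l := l) (hs (Or.inl rfl)) (hs (Or.inr rfl)) with rfl | rfl | rfl <;> simp
    · have t : ∀ l, I v l → I w l → cv p {v, w} ⊆ cv p {u | I u l} := fun l h1 h2 => cv_mono (by
        rintro _ (rfl | rfl)
        exacts [h1, h2])
      rintro (rfl | rfl | rfl)
      exacts [⟨Or.inr (Or.inl ⟨trivial, _, rfl⟩), t _ e.vf e.wf⟩,
        ⟨Or.inr (Or.inl ⟨trivial, _, rfl⟩), t _ e.vg e.wg⟩,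
        ⟨Or.inr (Or.inl ⟨trivial, _, rfl⟩), t _ e.vk e.wk⟩]
  · intro G hG
    rw [fi] at hG
    simp only [Nat.reduceEqDiff, false_and, false_or, true_and, OfNat.ofNat_ne_one,
      OfNat.ofNat_ne_zero, or_false] at hG
    obtain ⟨f, g, a, rfl⟩ := hG
    obtain ⟨a, b, c, -, -, -, e⟩ := a.three P H
    exact ⟨pt (p a), pt (p b), pt (p c), by rw [e, cv, Set.image_insert_eq, Set.image_pair]⟩
  · have e : {G | IsFace (cv p Set.univ) G 0} = Set.range fun v => cv p {v} := by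
      ext G
      simp [fi, eq_comm]
    rw [fnum, e, Set.ncard_range_of_injective, Nat.card_eq_fintype_card]
    intro v w q
    simpa using cv_inj H' p1 (cl_vertex P v) (cl_vertex P w) q
  · have e : {G | IsFace (cv p Set.univ) G 1} =
        {G | ∃ v w, Adj (flip I) v w ∧ G = cv p {v, w}} := by
      ext G
      simp [fi]
    have := ncard_pairs (Adj (flip I)) (fun v w => cv p {v, w}) (fun _ _ => Adj.symm)
      (fun _ _ a => a.1) (fun a b => by rw [Set.pair_comm]) (by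
        intro a b a' b' h1 h2 q
        have := cv_inj H' p1 (cl_edge P h1) (cl_edge P h2) q
        rcases Set.pair_eq_pair_iff.mp this with ⟨rfl, rfl⟩ | ⟨rfl, rfl⟩ <;> simp)
    have h2 := nadj_flip P H
    rw [nadj] at h2
    rw [fnum, e]
    have h3 := this.symm.trans (by convert h2)
    omega
  · have e : {G | IsFace (cv p Set.univ) G 2} =
        {G | ∃ f g, Adj I f g ∧ G = cv p {v | I v f ∧ I v g}} := by
      ext G
      simp [fi]
    have := ncard_pairs (Adj I) (fun f g => cv p {v | I v f ∧ I v g}) (fun _ _ => Adj.symm)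
      (fun _ _ a => a.1) (fun a b => by simp only [and_comm]) (by
        intro f g f' g' h1 h2 q
        have q2 := cv_inj H' p1 (cl_two f g) (cl_two f' g') q
        obtain ⟨a, b, c, n1, n2, n3, e⟩ := h1.three P H
        have t : ∀ l, (∀ v, I v f ∧ I v g → I v l) → l = f ∨ l = g := by
          intro l hl
          by_contra r
          push Not at r
          have ha : I a f ∧ I a g := e.superset (Or.inl rfl)
          have hb : I b f ∧ I b g := e.superset (Or.inr (Or.inl rfl))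
          have hc : I c f ∧ I c g := e.superset (Or.inr (Or.inr rfl))
          rcases P.k f g l h1.1 r.1.symm r.2.symm a b c ha.1 ha.2 (hl _ ha) hb.1 hb.2 (hl _ hb)
            hc.1 hc.2 (hl _ hc) with s | s | s <;> contradiction
        have t1 := t f' fun v hv => (q2.subset hv).1
        have t2 := t g' fun v hv => (q2.subset hv).2
        have := h2.1
        rcases t1 with rfl | rfl <;> rcases t2 with rfl | rfl <;> simp at this ⊢)
    rw [nadj] at hm
    rw [fnum, e]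
    have h3 := this.symm.trans (by convert hm)
    omega
  · have e : {G | IsFace (cv p Set.univ) G 3} = Set.range fun f => cv p {v | I v f} := by
      ext G
      simp [fi, eq_comm]
    rw [fnum, e, Set.ncard_range_of_injective (facet_inj P H' p1), Nat.card_eq_fintype_card]

end

end Pool.Agent.Lib.MP_087efe_co
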