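import Pool.Agent.Lib.MP_087efe_co.Small
import Pool.Agent.Lib.MP_087efe_co.Poly

/-! The region of realized f-vectors. -/

namespace Pool.Agent.Lib.MP_087efe_co

theorem Gd.steps {a g} (h : Gd a g SV) (j : ℕ) : Gd (a + 4 * j) g SV := by
  induction j with
  | zero => exact h
  | succ j ih =>
    have := x9_26S.glueV ih
    rwa [zero_add, show 4 + (a + 4 * j) = a + 4 * (j + 1) by ring] at this

theorem Gd.all {a g} (h0 : Gd a g SV) (h1 : Gd (a + 1) g SV) (h2 : Gd (a + 2) g SV)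
    (h3 : Gd (a + 3) g SV) {k : ℕ} (hk : a ≤ k) : Gd k g SV := by
  rcases (by omega : k = a + 4 * ((k - a) / 4) ∨ k = a + 1 + 4 * ((k - a) / 4) ∨
    k = a + 2 + 4 * ((k - a) / 4) ∨ k = a + 3 + 4 * ((k - a) / 4)) with e | e | e | e <;> rw [e]
  exacts [h0.steps _, h1.steps _, h2.steps _, h3.steps _]

theorem sv0 {k : ℕ} (hk : 8 ≤ k) : Gd k 0 SV :=
  Gd.all (x5_10V.steps 2) (x10_30V.steps 1) (x11_34V.steps 1) (x10_30S.glueV x11_34V) hk

theorem sv1 {k : ℕ} (hk : 7 ≤ k) : Gd k 1 SV := Gd.all x12_39V x13_43V x14_47V x15_51V hk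

theorem sv2 {k : ℕ} (hk : 8 ≤ k) : Gd k 2 SV := Gd.all x13_44V x14_48V x15_52V x16_56V hk

theorem Gd.fill {a g} (h : Gd a g OC) {a' g' : ℕ} (hg : g + 3 ≤ g')
    (ha : a + 2 * g' + 5 ≤ a' + 2 * g) : Gd a' g' TT := by
  obtain ⟨t, e | e⟩ : ∃ t, g' = g + 2 * (t + 1) + 1 ∨ g' = g + 2 * (t + 1) + 2 :=
    ⟨(g' - g - 3) / 2, by omega⟩
  · have := (h.stacks t).glue (sv1 (k := a' - (a + 4 * (t + 1))) (by omega))
    rwa [← e, Nat.add_sub_cancel' (by omega)] at this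
  · have := (h.stacks t).glue (sv2 (k := a' - (a + 4 * (t + 1))) (by omega))
    rwa [← e, Nat.add_sub_cancel' (by omega)] at this

theorem gd_low {a g : ℕ} (hg : g ≤ 2) (ha : 8 ≤ a) : Gd a g TT := by
  interval_cases g
  exacts [(sv0 ha).mono fun _ _ _ _ => trivial, (sv1 (by omega)).mono fun _ _ _ _ => trivial,
    (sv2 ha).mono fun _ _ _ _ => trivial]

theorem gd_lin {a g : ℕ} (ha : 2 * g + 9 ≤ a) : Gd a g TT := by
  by_cases hg : g ≤ 2
  · exact gd_low hg (by omega)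
  · exact x9_26O.fill (by omega) (by omega)

theorem approx {N : ℕ} (hN : 3 ≤ N) : ∃ s t R u w : ℕ, N = (s + 1) * (t + 1) + R ∧
    s + t = 2 * u ∧ u * u < N ∧ R ≤ 2 * w ∧ w * w ≤ 2 * u := by
  set u := Nat.sqrt (N - 1) with hu
  have u1 : u * u ≤ N - 1 := Nat.sqrt_le _
  have u2 : N - 1 < (u + 1) * (u + 1) := Nat.lt_succ_sqrt _
  obtain ⟨D, hD⟩ : ∃ D, (u + 1) * (u + 1) = N + D := ⟨(u + 1) * (u + 1) - N, by omega⟩
  have d1 : D ≤ 2 * u := by
    have : (u + 1) * (u + 1) = u * u + 2 * u + 1 := by ring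
    omega
  have d2 : D ≤ u * u := by
    rcases (by omega : u ≤ 1 ∨ 2 ≤ u) with h | h
    · interval_cases u <;> omega
    · nlinarith
  rcases Nat.eq_zero_or_pos D with rfl | hD0
  · exact ⟨u, u, 0, u, 0, by omega, by omega, by omega, by omega, by omega⟩
  set w := Nat.sqrt (D - 1) with hw
  have w1 : w * w ≤ D - 1 := Nat.sqrt_le _
  have w2 : D - 1 < (w + 1) * (w + 1) := Nat.lt_succ_sqrt _
  have w3 : w < u := by
    by_contra q
    have := Nat.mul_self_le_mul_self (not_lt.mp q)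
    omega
  obtain ⟨s, hs⟩ : ∃ s, u = s + (w + 1) := ⟨u - (w + 1), by omega⟩
  obtain ⟨R, hR⟩ : ∃ R, (w + 1) * (w + 1) = D + R := ⟨(w + 1) * (w + 1) - D, by omega⟩
  refine ⟨s, u + (w + 1), R, u, w, ?_, by omega, by omega, ?_, by omega⟩
  · have : (u + 1) * (u + 1) = (s + 1) * (u + (w + 1) + 1) + (w + 1) * (w + 1) := by
      rw [hs]
      ring
    omega
  · have : (w + 1) * (w + 1) = w * w + 2 * w + 1 := by ring
    omega

theorem gd_big {a g : ℕ} {q : ℝ} (hq : 0 ≤ q) (h4 : q ^ 4 = a + 5)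
    (h : g + 12 * q ^ 2 + 70 * q ≤ 2 * a + 20) : Gd a g TT := by
  have a0 : (0 : ℝ) ≤ a := Nat.cast_nonneg a
  have g0 : (0 : ℝ) ≤ g := Nat.cast_nonneg g
  have q1 : 1 ≤ q := by
    by_contra e
    have := pow_lt_one₀ hq (not_le.mp e) (show 4 ≠ 0 by norm_num)
    linarith
  by_cases hq4 : q ≤ 4
  · refine gd_lin ?_
    have : (2 * g + 9 : ℝ) ≤ a := by
      have e2 : q ^ 2 ≤ 4 * q := by nlinarith
      have e1 : q ^ 4 ≤ 16 * q ^ 2 := by
        have := pow_le_pow_left₀ (by positivity) e2 2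
        nlinarith
      nlinarith
    exact_mod_cast this
  push Not at hq4
  have a1 : 251 ≤ a := by
    have := pow_le_pow_left₀ (by norm_num) hq4.le 4
    have : (251 : ℝ) ≤ a := by linarith
    exact_mod_cast this
  by_cases hg : g ≤ 28
  · exact gd_lin (by omega)
  obtain ⟨s, t, R, u, w, e1, e2, e3, e4, e5⟩ := approx (N := (g - 5) / 8) (by omega)
  refine (gd_prod s t).fill (by omega) ?_
  have b1 : 8 * (u * u) ≤ g := by omega
  have b2 : (2 * u : ℝ) ≤ q ^ 2 := by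
    have : (8 * (u * u) : ℝ) ≤ g := by exact_mod_cast b1
    by_contra e
    have := mul_self_lt_mul_self (by positivity) (not_le.mp e)
    nlinarith
  have b3 : (w : ℝ) ≤ q := by
    have : (w * w : ℝ) ≤ 2 * u := by exact_mod_cast e5
    by_contra e
    have := mul_self_lt_mul_self hq (not_le.mp e)
    nlinarith
  have b4 : g + 24 * u + 48 * w + 88 ≤ 2 * a + 20 := by
    have : (g + 24 * u + 48 * w + 88 : ℝ) ≤ 2 * a + 20 := by linarith
    exact_mod_cast this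
  generalize (s + 1) * (t + 1) = P at *
  omega

theorem Gd.poly {a g Φ} (h : Gd a g Φ) :
    ∃ P : Set E4, IsPolytope P ∧ TwoSimple P ∧ TwoSimplicial P ∧ fnum P 0 = a + 5 ∧
      fnum P 1 = 4 * a + 10 + g ∧ fnum P 2 = 4 * a + 10 + g ∧ fnum P 3 = a + 5 := by
  obtain ⟨V, F, i1, i2, I, h1, h2, h3, h4, h5, -⟩ := h
  have : Nonempty V := Fintype.card_pos_iff.mp (by omega)
  rw [← h3]
  conv => enter [1, P, 2, 2, 2, 2, 2, 2]; rw [h3, ← h4]
  exact polytope h1 h2 h5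

end Pool.Agent.Lib.MP_087efe_co
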