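import Pool.Agent.Lib.MP_087efe_co.Geo

/-! An octahedral facet is replaced by four octahedra and a simplex: the combinatorics. -/

namespace Pool.Agent.Lib.MP_087efe_co

open Matrix Sum

variable {V F : Type}

/-- The six two-element subsets of `Fin 4`. -/
def tb : Fin 6 → Fin 4 → Bool :=
  ![![true, true, false, false], ![true, false, true, false], ![true, false, false, true],
    ![false, true, true, false], ![false, true, false, true], ![false, false, true, true]]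

/-- An octahedral facet with its six vertices and eight neighbours. -/
structure Oct (I : V → F → Prop) where
  O : F
  P : Fin 6 → V
  N : Fin 4 → F
  M : Fin 4 → F
  hO : ∀ v, I v O ↔ ∃ a, v = P a
  hN : ∀ a k, I (P a) (N k) ↔ tb a k = true
  hM : ∀ a k, I (P a) (M k) ↔ tb a k = false

abbrev LV := Fin 6 ⊕ Fin 4
abbrev LF := Fin 4 ⊕ Fin 4 ⊕ Option (Fin 4)

/-- The local picture after the operation. -/
def li : LV → LF → Bool
  | inl a, inl k => tb a k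
  | inl a, inr (inl k) => !tb a k
  | inl _, inr (inr none) => false
  | inl a, inr (inr (some l)) => !tb a l
  | inr i, inl k => i == k
  | inr _, inr (inl _) => false
  | inr _, inr (inr none) => true
  | inr i, inr (inr (some l)) => i != l

def ladj (b c : LF) : Bool :=
  decide (b ≠ c ∧ ∃ x y, x ≠ y ∧ li x b ∧ li x c ∧ li y b ∧ li y c)

theorem li_sepV : ∀ x y : LV, (∀ b, li x b = li y b) → x = y := by decide +kernel
theorem li_sepF : ∀ b c : LF, (∀ x, li x b = li x c) → b = c := by decide +kernel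
theorem li_a2 (l : Option (Fin 4)) : ∀ (c : LF) (x y : LV), inr (inr l) ≠ c → x ≠ y →
    li x (inr (inr l)) → li x c → li y (inr (inr l)) → li y c →
    ∃ u, u ≠ x ∧ u ≠ y ∧ li u (inr (inr l)) ∧ li u c := by
  intro c x y h1 h2 h3 h4 h5 h6
  have : ∀ (l : Option (Fin 4)) (c : LF) (x y : LV),
      (decide (inr (inr l) ≠ c) && decide (x ≠ y) && li x (inr (inr l)) && li x c &&
        li y (inr (inr l)) && li y c) = true →
      ∃ u, (decide (u ≠ x) && decide (u ≠ y) && li u (inr (inr l)) && li u c) = true := by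
    decide +kernel
  simpa [and_assoc] using this l c x y (by simp [h1, h2, h3, h4, h5, h6])
theorem li_b2 : ∀ (x y : LV) (b c : LF), x ≠ y → b ≠ c → li x b → li y b → li x c → li y c →
    ∃ d, d ≠ b ∧ d ≠ c ∧ li x d ∧ li y d := by decide +kernel
theorem li_nb : ∀ b : LF, ∃ c, b ≠ c ∧ ∃ x y, x ≠ y ∧ li x b ∧ li x c ∧ li y b ∧ li y c := by
  decide +kernel
theorem li_nb' : ∀ x : LV, ∃ y, x ≠ y ∧ ∃ b c, b ≠ c ∧ li x b ∧ li y b ∧ li x c ∧ li y c := by
  decide +kernel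
theorem li_k33 : ∀ x y z : LV, x ≠ y → x ≠ z → y ≠ z → ∀ b, li x b → li y b → li z b →
    ∀ c, li x c → li y c → li z c → ∀ d, li x d → li y d → li z d → b = c ∨ b = d ∨ c = d := by
  intro x y z h1 h2 h3 b b1 b2 b3 c c1 c2 c3 d d1 d2 d3
  have : ∀ x y z : LV, (decide (x ≠ y) && decide (x ≠ z) && decide (y ≠ z)) = true →
      ∀ b, (li x b && li y b && li z b) = true → ∀ c, (li x c && li y c && li z c) = true →
      ∀ d, (li x d && li y d && li z d) = true →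
      (decide (b = c) || decide (b = d) || decide (c = d)) = true := by
    decide +kernel
  simpa [or_assoc] using this x y z (by simp [h1, h2, h3]) b (by simp [b1, b2, b3]) c
    (by simp [c1, c2, c3]) d (by simp [d1, d2, d3])

namespace Oct

variable {I : V → F → Prop} (ω : Oct I)

/-- The incidences after the operation; the name of `O` is reused for the new simplex. -/
def stack : V ⊕ Fin 4 → F ⊕ Fin 4 → Prop
  | inl v, inl f => f ≠ ω.O ∧ I v f
  | inr i, inl f => f = ω.O ∨ f = ω.N i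
  | inl v, inr l => I v ω.O ∧ I v (ω.M l)
  | inr i, inr l => i ≠ l

def iV : LV → V ⊕ Fin 4
  | inl a => inl (ω.P a)
  | inr i => inr i

def iF : LF → F ⊕ Fin 4
  | inl k => inl (ω.N k)
  | inr (inl k) => inl (ω.M k)
  | inr (inr none) => inl ω.O
  | inr (inr (some l)) => inr l

theorem PO (a : Fin 6) : I (ω.P a) ω.O := (ω.hO _).mpr ⟨a, rfl⟩

theorem N_ne (k : Fin 4) : ω.N k ≠ ω.O := by
  intro e
  have : ∀ a, tb a k = true := fun a => (ω.hN a k).mp (e ▸ ω.PO a)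
  clear e
  revert k
  decide

theorem M_ne (k : Fin 4) : ω.M k ≠ ω.O := by
  intro e
  have : ∀ a, tb a k = false := fun a => (ω.hM a k).mp (e ▸ ω.PO a)
  clear e
  revert k
  decide

theorem N_inj : Function.Injective ω.N := by
  intro i k e
  have : ∀ a, tb a i = true ↔ tb a k = true := fun a => by rw [← ω.hN, ← ω.hN, e]
  clear e
  revert i k
  decide

theorem M_ne_N (k i : Fin 4) : ω.M k ≠ ω.N i := by
  intro e
  have : ∀ a, tb a k = false ↔ tb a i = true := fun a => by rw [← ω.hN, ← ω.hM, e]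
  clear e
  revert i k
  decide

theorem inc (x : LV) (b : LF) : ω.stack (ω.iV x) (ω.iF b) ↔ li x b = true := by
  rcases x with a | i <;> rcases b with k | k | _ | l <;>
    simp [stack, iV, iF, li, ω.N_ne, ω.M_ne, ω.hN, ω.hM, ω.PO, ω.M_ne_N, ω.N_inj.eq_iff]
  exact eq_comm

theorem iV_inj : Function.Injective ω.iV := fun x y e => li_sepV x y fun b => by
  rw [Bool.eq_iff_iff, ← ω.inc, ← ω.inc, e]

theorem iF_inj : Function.Injective ω.iF := fun b c e => li_sepF b c fun x => by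
  rw [Bool.eq_iff_iff, ← ω.inc, ← ω.inc, e]

theorem P_inj : Function.Injective ω.P := fun a b e =>
  inl.inj (ω.iV_inj (a₁ := inl a) (a₂ := inl b) (congrArg inl e))

theorem M_inj : Function.Injective ω.M := fun a b e =>
  inl.inj (inr.inj (ω.iF_inj (a₁ := inr (inl a)) (a₂ := inr (inl b)) (congrArg inl e)))

theorem two (P : Pat I) (H : Real I) {f : F} (hf : f ≠ ω.O) {a b : Fin 6} (hab : a ≠ b)
    (ha : I (ω.P a) f) (hb : I (ω.P b) f) : (∃ k, f = ω.N k) ∨ ∃ k, f = ω.M k := by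
  have key : ∀ a b : Fin 6, a ≠ b → I (ω.P a) f → I (ω.P b) f →
      (∃ i l, tb a i = true ∧ tb b i = true ∧ tb a l = false ∧ tb b l = false) →
      (∃ k, f = ω.N k) ∨ ∃ k, f = ω.M k := by
    rintro a b hab ha hb ⟨i, l, h1, h2, h3, h4⟩
    rcases P.b3 H (fun e => hab (ω.P_inj e)) (ω.N_ne i).symm (ω.M_ne l).symm (ω.M_ne_N l i).symm
      (ω.PO a) ((ω.hN _ _).mpr h1) ((ω.hM _ _).mpr h3) (ω.PO b) ((ω.hN _ _).mpr h2)
      ((ω.hM _ _).mpr h4) ha hb with e | e | e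
    exacts [(hf e).elim, Or.inl ⟨_, e⟩, Or.inr ⟨_, e⟩]
  obtain ⟨u, u1, u2, u3, u4⟩ := P.l.a2 f ω.O _ _ hf (fun e => hab (ω.P_inj e)) ha (ω.PO a) hb
    (ω.PO b)
  obtain ⟨c, rfl⟩ := (ω.hO u).mp u4
  have hca : c ≠ a := fun e => u1 (e ▸ rfl)
  have hcb : c ≠ b := fun e => u2 (e ▸ rfl)
  have : ∀ a b c : Fin 6, a ≠ b → c ≠ a → c ≠ b →
      (∃ i l, tb a i = true ∧ tb b i = true ∧ tb a l = false ∧ tb b l = false) ∨
      ∃ i l, tb c i = true ∧ tb a i = true ∧ tb c l = false ∧ tb a l = false := by decide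
  rcases this a b c hab hca hcb with q | q
  exacts [key a b hab ha hb q, key c a hca u3 ha q]

/-- A facet with two local vertices is local. -/
theorem loc (P : Pat I) (H : Real I) {x y : LV} (hxy : x ≠ y) {f'} (hx : ω.stack (ω.iV x) f')
    (hy : ω.stack (ω.iV y) f') : ∃ b, f' = ω.iF b := by
  rcases f' with f | l
  swap
  · exact ⟨inr (inr (some l)), rfl⟩
  have t : ∀ i, ω.stack (inr i) (inl f) → ∃ b, inl f = ω.iF b := by
    rintro i (rfl | rfl)
    exacts [⟨inr (inr none), rfl⟩, ⟨inl i, rfl⟩]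
  rcases x with a | i
  swap
  · exact t i hx
  rcases y with b | i
  swap
  · exact t i hy
  rcases ω.two P H hx.1 (fun e => hxy (congrArg inl e)) hx.2 hy.2 with ⟨k, rfl⟩ | ⟨k, rfl⟩
  exacts [⟨inl k, rfl⟩, ⟨inr (inl k), rfl⟩]

/-- The vertices of a new facet are local. -/
theorem new_loc (l : Option (Fin 4)) {v'} (h : ω.stack v' (ω.iF (inr (inr l)))) :
    ∃ x, v' = ω.iV x := by
  rcases v' with v | i
  · rcases l with _ | l
    · exact (h.1 rfl).elim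
    · obtain ⟨a, rfl⟩ := (ω.hO v).mp h.1
      exact ⟨inl a, rfl⟩
  · exact ⟨inr i, rfl⟩

theorem old_or (f' : F ⊕ Fin 4) :
    (∃ f, f ≠ ω.O ∧ f' = inl f) ∨ ∃ l, f' = ω.iF (inr (inr l)) := by
  rcases f' with f | l
  · by_cases e : f = ω.O
    · exact Or.inr ⟨none, e ▸ rfl⟩
    · exact Or.inl ⟨f, e, rfl⟩
  · exact Or.inr ⟨some l, rfl⟩

theorem old_or' (v' : V ⊕ Fin 4) : (∃ v, ¬ I v ω.O ∧ v' = inl v) ∨ ∃ x, v' = ω.iV x := by
  rcases v' with v | i
  · by_cases e : I v ω.O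
    · obtain ⟨a, rfl⟩ := (ω.hO v).mp e
      exact Or.inr ⟨inl a, rfl⟩
    · exact Or.inl ⟨v, e, rfl⟩
  · exact Or.inr ⟨inr i, rfl⟩

theorem old_vertex {f g : F} (hf : f ≠ ω.O) (hg : g ≠ ω.O) (e : f ≠ g) {v'}
    (h1 : ω.stack v' (inl f)) (h2 : ω.stack v' (inl g)) : ∃ v, v' = inl v := by
  rcases v' with v | i
  · exact ⟨v, rfl⟩
  · exact (e ((h1.resolve_left hf).trans (h2.resolve_left hg).symm)).elim

theorem old_facet {v : V} (hv : ¬ I v ω.O) {f'} (h1 : ω.stack (inl v) f') :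
    ∃ f, f ≠ ω.O ∧ f' = inl f := by
  rcases f' with f | l
  · exact ⟨f, h1.1, rfl⟩
  · exact (hv h1.1).elim

theorem adj_old {f g : F} (hf : f ≠ ω.O) (hg : g ≠ ω.O) :
    Adj ω.stack (inl f) (inl g) ↔ Adj I f g := by
  constructor
  · rintro ⟨e, v', w', hvw, h1, h2, h3, h4⟩
    have e' : f ≠ g := fun q => e (q ▸ rfl)
    obtain ⟨v, rfl⟩ := ω.old_vertex hf hg e' h1 h2
    obtain ⟨w, rfl⟩ := ω.old_vertex hf hg e' h3 h4
    exact ⟨e', v, w, fun q => hvw (q ▸ rfl), h1.2, h2.2, h3.2, h4.2⟩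
  · rintro ⟨e, v, w, hvw, h1, h2, h3, h4⟩
    exact ⟨fun q => e (inl.inj q), inl v, inl w, fun q => hvw (inl.inj q), ⟨hf, h1⟩, ⟨hg, h2⟩,
      ⟨hf, h3⟩, ⟨hg, h4⟩⟩

theorem adj_new (P : Pat I) (H : Real I) (l : Option (Fin 4)) (g' : F ⊕ Fin 4) :
    Adj ω.stack (ω.iF (inr (inr l))) g' ↔ ∃ c, ladj (inr (inr l)) c = true ∧ ω.iF c = g' := by
  constructor
  · rintro ⟨e, v', w', hvw, h1, h2, h3, h4⟩
    obtain ⟨x, rfl⟩ := ω.new_loc l h1
    obtain ⟨y, rfl⟩ := ω.new_loc l h3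
    have hxy : x ≠ y := fun q => hvw (q ▸ rfl)
    obtain ⟨c, rfl⟩ := ω.loc P H hxy h2 h4
    refine ⟨c, ?_, rfl⟩
    simp only [ladj, decide_eq_true_eq]
    exact ⟨fun q => e (q ▸ rfl), x, y, hxy, (ω.inc _ _).mp h1, (ω.inc _ _).mp h2,
      (ω.inc _ _).mp h3, (ω.inc _ _).mp h4⟩
  · rintro ⟨c, hc, rfl⟩
    simp only [ladj, decide_eq_true_eq] at hc
    obtain ⟨e, x, y, hxy, h1, h2, h3, h4⟩ := hc
    exact ⟨fun q => e (ω.iF_inj q), ω.iV x, ω.iV y, fun q => hxy (ω.iV_inj q),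
      (ω.inc _ _).mpr h1, (ω.inc _ _).mpr h2, (ω.inc _ _).mpr h3, (ω.inc _ _).mpr h4⟩

theorem adj_O (P : Pat I) (H : Real I) (f : F) :
    Adj I ω.O f ↔ ∃ c : Fin 4 ⊕ Fin 4, Sum.elim ω.N ω.M c = f := by
  constructor
  · rintro ⟨e, v, w, hvw, h1, h2, h3, h4⟩
    obtain ⟨a, rfl⟩ := (ω.hO v).mp h1
    obtain ⟨b, rfl⟩ := (ω.hO w).mp h3
    rcases ω.two P H e.symm (fun q => hvw (congrArg ω.P q)) h2 h4 with ⟨k, rfl⟩ | ⟨k, rfl⟩
    exacts [⟨inl k, rfl⟩, ⟨inr k, rfl⟩]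
  · rintro ⟨k | k, rfl⟩
    · obtain ⟨a, b, hab, h1, h2⟩ : ∃ a b, a ≠ b ∧ tb a k = true ∧ tb b k = true := by
        revert k
        decide
      exact ⟨(ω.N_ne k).symm, _, _, fun q => hab (ω.P_inj q), ω.PO a, (ω.hN _ _).mpr h1, ω.PO b,
        (ω.hN _ _).mpr h2⟩
    · obtain ⟨a, b, hab, h1, h2⟩ : ∃ a b, a ≠ b ∧ tb a k = false ∧ tb b k = false := by
        revert k
        decide
      exact ⟨(ω.M_ne k).symm, _, _, fun q => hab (ω.P_inj q), ω.PO a, (ω.hM _ _).mpr h1, ω.PO b,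
        (ω.hM _ _).mpr h2⟩

theorem half (P : Pat I) (H : Real I) : Half ω.stack := by
  have key : ∀ l g' v' w', ω.iF (inr (inr l)) ≠ g' → v' ≠ w' → ω.stack v' (ω.iF (inr (inr l))) →
      ω.stack v' g' → ω.stack w' (ω.iF (inr (inr l))) → ω.stack w' g' →
      ∃ u, u ≠ v' ∧ u ≠ w' ∧ ω.stack u (ω.iF (inr (inr l))) ∧ ω.stack u g' := by
    intro l g' v' w' e hvw h1 h2 h3 h4
    obtain ⟨x, rfl⟩ := ω.new_loc l h1
    obtain ⟨y, rfl⟩ := ω.new_loc l h3
    have hxy : x ≠ y := fun q => hvw (q ▸ rfl)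
    obtain ⟨c, rfl⟩ := ω.loc P H hxy h2 h4
    obtain ⟨u, u1, u2, u3, u4⟩ := li_a2 l c x y (fun q => e (q ▸ rfl)) hxy ((ω.inc _ _).mp h1)
      ((ω.inc _ _).mp h2) ((ω.inc _ _).mp h3) ((ω.inc _ _).mp h4)
    exact ⟨ω.iV u, fun q => u1 (ω.iV_inj q), fun q => u2 (ω.iV_inj q), (ω.inc _ _).mpr u3,
      (ω.inc _ _).mpr u4⟩
  constructor
  · intro f' g' v' w' e hvw h1 h2 h3 h4
    rcases ω.old_or f' with ⟨f, hf, rfl⟩ | ⟨l, rfl⟩
    swap
    · exact key l g' v' w' e hvw h1 h2 h3 h4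
    rcases ω.old_or g' with ⟨g, hg, rfl⟩ | ⟨l, rfl⟩
    swap
    · obtain ⟨u, u1, u2, u3, u4⟩ := key l _ v' w' e.symm hvw h2 h1 h4 h3
      exact ⟨u, u1, u2, u4, u3⟩
    have e' : f ≠ g := fun q => e (q ▸ rfl)
    obtain ⟨v, rfl⟩ := ω.old_vertex hf hg e' h1 h2
    obtain ⟨w, rfl⟩ := ω.old_vertex hf hg e' h3 h4
    obtain ⟨u, u1, u2, u3, u4⟩ := P.l.a2 f g v w e' (fun q => hvw (q ▸ rfl)) h1.2 h2.2 h3.2 h4.2
    exact ⟨inl u, fun q => u1 (inl.inj q), fun q => u2 (inl.inj q), ⟨hf, u3⟩, ⟨hg, u4⟩⟩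
  · have t : ∀ b, ∃ g', Adj ω.stack (ω.iF b) g' := by
      intro b
      obtain ⟨c, e, x, y, hxy, h1, h2, h3, h4⟩ := li_nb b
      exact ⟨ω.iF c, fun q => e (ω.iF_inj q), ω.iV x, ω.iV y, fun q => hxy (ω.iV_inj q),
        (ω.inc _ _).mpr h1, (ω.inc _ _).mpr h2, (ω.inc _ _).mpr h3, (ω.inc _ _).mpr h4⟩
    intro f'
    rcases ω.old_or f' with ⟨f, hf, rfl⟩ | ⟨l, rfl⟩
    swap
    · exact t _
    obtain ⟨g, a⟩ := P.l.nb f
    by_cases hg : g = ω.O
    · obtain ⟨k | k, rfl⟩ := (ω.adj_O P H f).mp (hg ▸ a.symm)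
      exacts [t (inl k), t (inr (inl k))]
    · exact ⟨inl g, (ω.adj_old hf hg).mpr a⟩

theorem half' (P : Pat I) (H : Real I) : Half (flip ω.stack) := by
  have key : ∀ v w' f' g', ¬ I v ω.O → inl v ≠ w' → f' ≠ g' → ω.stack (inl v) f' →
      ω.stack w' f' → ω.stack (inl v) g' → ω.stack w' g' →
      ∃ u, u ≠ f' ∧ u ≠ g' ∧ ω.stack (inl v) u ∧ ω.stack w' u := by
    intro v w' f' g' hv hvw e h1 h2 h3 h4
    obtain ⟨f, hf, rfl⟩ := ω.old_facet hv h1
    obtain ⟨g, hg, rfl⟩ := ω.old_facet hv h3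
    have e' : f ≠ g := fun q => e (q ▸ rfl)
    obtain ⟨w, rfl⟩ := ω.old_vertex hf hg e' h2 h4
    obtain ⟨u, u1, u2, u3, u4⟩ := P.r.a2 v w f g (fun q => hvw (q ▸ rfl)) e' h1.2 h2.2 h3.2 h4.2
    have hu : u ≠ ω.O := fun q => hv (q ▸ u3)
    exact ⟨inl u, fun q => u1 (inl.inj q), fun q => u2 (inl.inj q), ⟨hu, u3⟩, ⟨hu, u4⟩⟩
  constructor
  · intro v' w' f' g' hvw e h1 h2 h3 h4
    rcases ω.old_or' v' with ⟨v, hv, rfl⟩ | ⟨x, rfl⟩
    · exact key v w' f' g' hv hvw e h1 h2 h3 h4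
    rcases ω.old_or' w' with ⟨w, hw, rfl⟩ | ⟨y, rfl⟩
    · obtain ⟨u, u1, u2, u3, u4⟩ := key w _ f' g' hw hvw.symm e h2 h1 h4 h3
      exact ⟨u, u1, u2, u4, u3⟩
    have hxy : x ≠ y := fun q => hvw (q ▸ rfl)
    obtain ⟨b, rfl⟩ := ω.loc P H hxy h1 h2
    obtain ⟨c, rfl⟩ := ω.loc P H hxy h3 h4
    obtain ⟨u, u1, u2, u3, u4⟩ := li_b2 x y b c hxy (fun q => e (q ▸ rfl)) ((ω.inc _ _).mp h1)
      ((ω.inc _ _).mp h2) ((ω.inc _ _).mp h3) ((ω.inc _ _).mp h4)
    exact ⟨ω.iF u, fun q => u1 (ω.iF_inj q), fun q => u2 (ω.iF_inj q), (ω.inc _ _).mpr u3,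
      (ω.inc _ _).mpr u4⟩
  · intro v'
    rcases ω.old_or' v' with ⟨v, hv, rfl⟩ | ⟨x, rfl⟩
    · obtain ⟨w, hvw, f, g, e, h1, h2, h3, h4⟩ := P.r.nb v
      have hf : f ≠ ω.O := fun q => hv (q ▸ h1)
      have hg : g ≠ ω.O := fun q => hv (q ▸ h3)
      exact ⟨inl w, fun q => hvw (inl.inj q), inl f, inl g, fun q => e (inl.inj q), ⟨hf, h1⟩,
        ⟨hf, h2⟩, ⟨hg, h3⟩, ⟨hg, h4⟩⟩
    · obtain ⟨y, hxy, b, c, e, h1, h2, h3, h4⟩ := li_nb' x
      exact ⟨ω.iV y, fun q => hxy (ω.iV_inj q), ω.iF b, ω.iF c, fun q => e (ω.iF_inj q),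
        (ω.inc _ _).mpr h1, (ω.inc _ _).mpr h2, (ω.inc _ _).mpr h3, (ω.inc _ _).mpr h4⟩

theorem k33 (P : Pat I) (H : Real I) : K33 ω.stack := by
  have key : ∀ l g' k', ω.iF (inr (inr l)) ≠ g' → ω.iF (inr (inr l)) ≠ k' → g' ≠ k' → ∀ a b c,
      ω.stack a (ω.iF (inr (inr l))) → ω.stack a g' → ω.stack a k' →
      ω.stack b (ω.iF (inr (inr l))) → ω.stack b g' → ω.stack b k' →
      ω.stack c (ω.iF (inr (inr l))) → ω.stack c g' → ω.stack c k' →
      a = b ∨ a = c ∨ b = c := by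
    intro l g' k' e1 e2 e3 a b c h1 h2 h3 h4 h5 h6 h7 h8 h9
    obtain ⟨x, rfl⟩ := ω.new_loc l h1
    obtain ⟨y, rfl⟩ := ω.new_loc l h4
    obtain ⟨z, rfl⟩ := ω.new_loc l h7
    by_contra q
    push Not at q
    have hxy : x ≠ y := fun s => q.1 (s ▸ rfl)
    obtain ⟨g, rfl⟩ := ω.loc P H hxy h2 h5
    obtain ⟨k, rfl⟩ := ω.loc P H hxy h3 h6
    rw [ω.inc] at h1 h2 h3 h4 h5 h6 h7 h8 h9
    rcases li_k33 x y z hxy (fun s => q.2.1 (s ▸ rfl)) (fun s => q.2.2 (s ▸ rfl)) _ h1 h4 h7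
      _ h2 h5 h8 _ h3 h6 h9 with s | s | s
    exacts [e1 (s ▸ rfl), e2 (s ▸ rfl), e3 (s ▸ rfl)]
  intro f' g' k' e1 e2 e3 a b c h1 h2 h3 h4 h5 h6 h7 h8 h9
  rcases ω.old_or f' with ⟨f, hf, rfl⟩ | ⟨l, rfl⟩
  swap
  · exact key l g' k' e1 e2 e3 a b c h1 h2 h3 h4 h5 h6 h7 h8 h9
  rcases ω.old_or g' with ⟨g, hg, rfl⟩ | ⟨l, rfl⟩
  swap
  · exact key l _ k' e1.symm e3 e2 a b c h2 h1 h3 h5 h4 h6 h8 h7 h9
  rcases ω.old_or k' with ⟨k, hk, rfl⟩ | ⟨l, rfl⟩
  swap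
  · exact key l _ _ e2.symm e3.symm e1 a b c h3 h1 h2 h6 h4 h5 h9 h7 h8
  have e' : f ≠ g := fun q => e1 (q ▸ rfl)
  obtain ⟨a, rfl⟩ := ω.old_vertex hf hg e' h1 h2
  obtain ⟨b, rfl⟩ := ω.old_vertex hf hg e' h4 h5
  obtain ⟨c, rfl⟩ := ω.old_vertex hf hg e' h7 h8
  simp only [inl.injEq]
  exact P.k f g k e' (fun q => e2 (q ▸ rfl)) (fun q => e3 (q ▸ rfl)) a b c h1.2 h2.2 h3.2 h4.2
    h5.2 h6.2 h7.2 h8.2 h9.2

theorem pat (P : Pat I) (H : Real I) : Pat ω.stack := ⟨ω.half P H, ω.half' P H, ω.k33 P H⟩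

theorem nadj_stack [Fintype F] (P : Pat I) (H : Real I) : nadj ω.stack = nadj I + 36 := by
  classical
  have c0 : ∀ l, (∑ g', if Adj ω.stack (ω.iF (inr (inr l))) g' then 1 else 0) =
      ∑ c, if ladj (inr (inr l)) c = true then 1 else 0 := by
    intro l
    refine (Fintype.sum_of_injective ω.iF ω.iF_inj _ _ (fun K hK => if_neg fun a => ?_)
      fun c => if_congr ?_ rfl rfl).symm
    · obtain ⟨c, -, rfl⟩ := (ω.adj_new P H l K).mp a
      exact hK ⟨c, rfl⟩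
    · simp only [ω.adj_new P H, ω.iF_inj.eq_iff, exists_eq_right]
  have c1 : ∀ l, (∑ g', if Adj ω.stack (inr l) g' then 1 else 0) = 8 := by
    intro l
    refine (c0 (some l)).trans ?_
    revert l
    decide +kernel
  have c2 : (∑ g', if Adj ω.stack (inl ω.O) g' then 1 else 0) = 4 :=
    (c0 none).trans (by decide +kernel)
  have c3 : ∀ k l : Fin 4, Adj ω.stack (inr k) (inr l) ↔ k ≠ l := by
    intro k l
    have : ∀ k l : Fin 4, ladj (inr (inr (some k))) (inr (inr (some l))) = true ↔ k ≠ l := by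
      decide +kernel
    rw [← this]
    have := ω.adj_new P H (some k) (ω.iF (inr (inr (some l))))
    simp only [ω.iF_inj.eq_iff, exists_eq_right] at this
    exact this
  have c4 : ∀ l, Adj ω.stack (inl ω.O) (inr l) := by
    intro l
    have : ∀ l : Fin 4, ladj (inr (inr none)) (inr (inr (some l))) = true := by decide +kernel
    exact (ω.adj_new P H none _).mpr ⟨_, this l, rfl⟩
  have c5 : (∑ f, if Adj I ω.O f then 1 else 0) = 8 := by
    have hi : Function.Injective (Sum.elim ω.N ω.M) := by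
      rintro (a | a) (b | b) e
      exacts [congrArg _ (ω.N_inj e), (ω.M_ne_N b a e.symm).elim, (ω.M_ne_N a b e).elim,
        congrArg _ (ω.M_inj e)]
    rw [← Fintype.sum_of_injective _ hi (fun _ => 1) _
      (fun K hK => if_neg fun a => hK ((ω.adj_O P H K).mp a))
      fun c => (if_pos ((ω.adj_O P H _).mpr ⟨c, rfl⟩)).symm]
    rfl
  have c6 : ∀ f, ¬ Adj ω.stack (inl ω.O) (inl f) := by
    intro f a
    simp only [Fintype.sum_sum_type, c4, if_true, Finset.sum_const, Finset.card_univ,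
      Fintype.card_fin, smul_eq_mul, mul_one] at c2
    have : (∑ g, if Adj ω.stack (inl ω.O) (inl g) then 1 else 0) = 0 := by omega
    have := Finset.sum_eq_zero_iff.mp this f (Finset.mem_univ _)
    simp [a] at this
  have c7 : ∀ f g, (if Adj I f g then 1 else 0) = (if Adj ω.stack (inl f) (inl g) then 1 else 0) +
      (if f = ω.O then (if Adj I ω.O g then 1 else 0) else 0) +
      (if g = ω.O then (if Adj I ω.O f then 1 else 0) else 0) := by
    intro f g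
    have n0 : ¬ Adj I ω.O ω.O := fun a => a.1 rfl
    by_cases hf : f = ω.O
    · subst hf
      simp [c6, n0]
    by_cases hg : g = ω.O
    · subst hg
      simp [adj_comm.not.mp (c6 f), hf, adj_comm (f := f)]
    simp [hf, hg, ω.adj_old hf hg]
  have c8 : nadj I = (∑ f, ∑ g, if Adj ω.stack (inl f) (inl g) then 1 else 0) + 16 := by
    rw [nadj_eq]
    rw [Finset.sum_congr rfl fun f _ => Finset.sum_congr rfl fun g _ => c7 f g]
    simp only [Finset.sum_add_distrib, Finset.sum_ite_eq', Finset.mem_univ, if_true, c5]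
    rw [Finset.sum_comm (f := fun f g => if f = ω.O then _ else 0)]
    simp only [Finset.sum_ite_eq', Finset.mem_univ, if_true, c5]
  have c9 : ∀ l, (∑ f, if Adj ω.stack (inl f) (inr l) then 1 else 0) = 5 := by
    intro l
    have := c1 l
    have t : ∀ l : Fin 4, (∑ k : Fin 4, if l ≠ k then 1 else 0) = 3 := by decide
    simp only [Fintype.sum_sum_type, c3, t] at this
    simp only [adj_comm (f := inl _)]
    omega
  rw [c8, nadj_eq, Fintype.sum_sum_type]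
  simp only [c1]
  simp only [Fintype.sum_sum_type, Finset.sum_add_distrib]
  rw [Finset.sum_comm (f := fun f l => if Adj ω.stack (inl f) (inr l) then 1 else 0)]
  simp [c9]

/-- The new simplex facet. -/
def sfacet : SFacet ω.stack where
  S := inl ω.O
  s := inr
  A := inr
  hS := by
    rintro (v | i) <;> simp [stack]
  hA := fun _ _ => Iff.rfl

/-- One of the new octahedra. -/
def oct : Oct ω.stack where
  O := inr 3
  P := fun a => ω.iV (![inl 0, inl 1, inr 0, inl 3, inr 1, inr 2] a)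
  N := fun k => ω.iF (![inl 0, inl 1, inl 2, inr (inr none)] k)
  M := fun k =>
    ω.iF (![inr (inr (some 0)), inr (inr (some 1)), inr (inr (some 2)), inr (inl 3)] k)
  hO := by
    intro v
    have t : ∀ x : LV, li x (inr (inr (some 3))) = true ↔
        ∃ a : Fin 6, x = ![inl 0, inl 1, inr 0, inl 3, inr 1, inr 2] a := by decide
    constructor
    · intro h
      obtain ⟨x, rfl⟩ := ω.new_loc (some 3) h
      obtain ⟨a, rfl⟩ := (t x).mp ((ω.inc x (inr (inr (some 3)))).mp h)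
      exact ⟨a, rfl⟩
    · rintro ⟨a, rfl⟩
      exact (ω.inc _ (inr (inr (some 3)))).mpr ((t _).mpr ⟨a, rfl⟩)
  hN := by
    simp only [ω.inc]
    decide
  hM := by
    simp only [ω.inc]
    decide

end Oct

end Pool.Agent.Lib.MP_087efe_co
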