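import Pool.Agent.Lib.MP_087efe_co.Oct

-- part Pool.Agent.Lib.MP_087efe_co.Prod
section

/-! The polytopes `E(C_a × C_b)` built from two plane configurations. -/

namespace Pool.Agent.Lib.MP_087efe_co

open Matrix Sum

variable {ι κ ι' κ' : Type}

/-- The vertex-edge incidences of a union of cycles of length at least three. -/
structure Cyc (r : ι → κ → Prop) : Prop where
  two : ∀ k, ∃ i i', i ≠ i' ∧ ∀ x, r x k ↔ x = i ∨ x = i'
  two' : ∀ i, ∃ k k', k ≠ k' ∧ ∀ y, r i y ↔ y = k ∨ y = k'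
  k22 : ∀ i i' k k', r i k → r i k' → r i' k → r i' k' → i = i' ∨ k = k'

theorem Cyc.flip {r : ι → κ → Prop} (c : Cyc r) : Cyc (flip r) :=
  ⟨c.two', c.two, fun k k' i i' h1 h2 h3 h4 => (c.k22 i i' k k' h1 h3 h2 h4).symm⟩

theorem Cyc.le2 {r : ι → κ → Prop} (c : Cyc r) (k : κ) (x y z : ι) (h1 : r x k) (h2 : r y k)
    (h3 : r z k) : x = y ∨ x = z ∨ y = z := by
  obtain ⟨i, i', -, h⟩ := c.two k
  rw [h] at h1 h2 h3
  rcases h1 with rfl | rfl <;> rcases h2 with rfl | rfl <;> rcases h3 with rfl | rfl <;> simp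

theorem Cyc.oth {r : ι → κ → Prop} (c : Cyc r) {i : ι} {k : κ} (h : r i k) :
    ∃ k', k' ≠ k ∧ ∀ y, r i y ↔ y = k ∨ y = k' := by
  obtain ⟨a, b, hab, h2⟩ := c.two' i
  rcases (h2 k).mp h with rfl | rfl
  · exact ⟨b, hab.symm, h2⟩
  · exact ⟨a, hab, fun y => (h2 y).trans or_comm⟩

def pinc (r : ι → κ → Prop) (r' : ι' → κ' → Prop) :
    (ι × ι') ⊕ κ ⊕ κ' → (κ × κ') ⊕ ι ⊕ ι' → Prop
  | inl x, inl y => r x.1 y.1 ∧ r' x.2 y.2
  | inl x, inr (inl i) => x.1 = i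
  | inl x, inr (inr j) => x.2 = j
  | inr (inl k), inl y => k = y.1
  | inr (inl k), inr (inl i) => r i k
  | inr (inl _), inr (inr _) => False
  | inr (inr l), inl y => l = y.2
  | inr (inr _), inr (inl _) => False
  | inr (inr l), inr (inr j) => r' j l

theorem pinc_flip (r : ι → κ → Prop) (r' : ι' → κ' → Prop) :
    flip (pinc r r') = pinc (flip r) (flip r') := by
  funext a b
  rcases a with a | a | a <;> rcases b with b | b | b <;> first | rfl | exact propext eq_comm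

def padj (r : ι → κ → Prop) (r' : ι' → κ' → Prop) :
    (κ × κ') ⊕ ι ⊕ ι' → (κ × κ') ⊕ ι ⊕ ι' → Prop
  | inl x, inl y => (x.1 = y.1 ∧ x.2 ≠ y.2 ∧ ∃ j, r' j x.2 ∧ r' j y.2) ∨
      (x.2 = y.2 ∧ x.1 ≠ y.1 ∧ ∃ i, r i x.1 ∧ r i y.1)
  | inl x, inr (inl i) => r i x.1
  | inl x, inr (inr j) => r' j x.2
  | inr (inl i), inl x => r i x.1
  | inr (inr j), inl x => r' j x.2
  | inr _, inr _ => False

variable {r : ι → κ → Prop} {r' : ι' → κ' → Prop}

theorem padj_of_adj (c : Cyc r) (c' : Cyc r') {f g} (a : Adj (pinc r r') f g) :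
    padj r r' f g := by
  obtain ⟨e, v, w, hvw, h1, h2, h3, h4⟩ := a
  have k1 := c.k22
  have k2 := c'.k22
  rcases f with ⟨k, l⟩ | i | j <;> rcases g with ⟨k', l'⟩ | i' | j' <;>
    rcases v with ⟨a, b⟩ | a | a <;> rcases w with ⟨a', b'⟩ | a' | a' <;>
    simp only [pinc, padj, ne_eq, inl.injEq, inr.injEq, Prod.mk.injEq] at * <;> grind

theorem three_of_padj (c : Cyc r) (c' : Cyc r') {f g} (a : padj r r' f g) :
    f ≠ g ∧ ∃ x y z, x ≠ y ∧ x ≠ z ∧ y ≠ z ∧ pinc r r' x f ∧ pinc r r' x g ∧ pinc r r' y f ∧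
      pinc r r' y g ∧ pinc r r' z f ∧ pinc r r' z g := by
  rcases f with ⟨k, l⟩ | i | j <;> rcases g with ⟨k', l'⟩ | i' | j' <;>
    simp only [padj] at a
  · rcases a with ⟨rfl, e, j, h1, h2⟩ | ⟨rfl, e, i, h1, h2⟩
    · obtain ⟨i, i', hi, h⟩ := c.two k
      exact ⟨by simpa using e, inr (inl k), inl (i, j), inl (i', j), by simp [pinc, *]⟩
    · obtain ⟨j, j', hj, h⟩ := c'.two l
      exact ⟨by simpa using e, inr (inr l), inl (i, j), inl (i, j'), by simp [pinc, *]⟩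
  · obtain ⟨j, j', hj, h⟩ := c'.two l
    exact ⟨by simp, inr (inl k), inl (i', j), inl (i', j'), by simp [pinc, *]⟩
  · obtain ⟨i, i', hi, h⟩ := c.two k
    exact ⟨by simp, inr (inr l), inl (i, j'), inl (i', j'), by simp [pinc, *]⟩
  · obtain ⟨j, j', hj, h⟩ := c'.two l'
    exact ⟨by simp, inr (inl k'), inl (i, j), inl (i, j'), by simp [pinc, *]⟩
  · obtain ⟨i, i', hi, h⟩ := c.two k'
    exact ⟨by simp, inr (inr l'), inl (i, j), inl (i', j), by simp [pinc, *]⟩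

theorem adj_iff_padj (c : Cyc r) (c' : Cyc r') {f g} : Adj (pinc r r') f g ↔ padj r r' f g := by
  refine ⟨padj_of_adj c c', fun a => ?_⟩
  obtain ⟨e, x, y, z, h1, -, -, h2, h3, h4, h5, -⟩ := three_of_padj c c' a
  exact ⟨e, x, y, h1, h2, h3, h4, h5⟩

theorem pinc_half (c : Cyc r) (c' : Cyc r') [Nonempty κ] [Nonempty κ'] : Half (pinc r r') := by
  constructor
  · intro f g v w e hvw h1 h2 h3 h4
    obtain ⟨-, x, y, z, e1, e2, e3, a1, a2, a3, a4, a5, a6⟩ :=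
      three_of_padj c c' (padj_of_adj c c' ⟨e, v, w, hvw, h1, h2, h3, h4⟩)
    by_cases q1 : x ≠ v ∧ x ≠ w
    · exact ⟨x, q1.1, q1.2, a1, a2⟩
    by_cases q2 : y ≠ v ∧ y ≠ w
    · exact ⟨y, q2.1, q2.2, a3, a4⟩
    refine ⟨z, ?_, ?_, a5, a6⟩ <;> grind
  · simp only [adj_iff_padj c c']
    rintro (⟨k, l⟩ | i | j)
    · obtain ⟨i, i', -, h⟩ := c.two k
      exact ⟨inr (inl i), (h i).mpr (Or.inl rfl)⟩
    · obtain ⟨k, k', -, h⟩ := c.two' i
      exact ⟨inl (k, Classical.arbitrary _), (h k).mpr (Or.inl rfl)⟩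
    · obtain ⟨k, k', -, h⟩ := c'.two' j
      exact ⟨inl (Classical.arbitrary _, k), (h k).mpr (Or.inl rfl)⟩

theorem pinc_k33 (c : Cyc r) (c' : Cyc r') : K33 (pinc r r') := by
  intro f g h e1 e2 e3 x y z h1 h2 h3 h4 h5 h6 h7 h8 h9
  by_contra q
  push Not at q
  obtain ⟨q1, q2, q3⟩ := q
  have a1 := padj_of_adj c c' ⟨e1, x, y, q1, h1, h2, h4, h5⟩
  have a2 := padj_of_adj c c' ⟨e2, x, y, q1, h1, h3, h4, h6⟩
  have a3 := padj_of_adj c c' ⟨e3, x, y, q1, h2, h3, h5, h6⟩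
  have k1 := c.k22
  have k2 := c'.k22
  have k3 := c.le2
  have k4 := c'.le2
  have k5 := c.flip.le2
  have k6 := c'.flip.le2
  simp only [flip] at k5 k6
  rcases f with ⟨k, l⟩ | i | j <;> rcases g with ⟨k', l'⟩ | i' | j' <;>
    rcases h with ⟨k'', l''⟩ | i'' | j'' <;> simp only [padj] at a1 a2 a3 <;>
    clear a1 a2 a3 <;>
    rcases x with ⟨a, b⟩ | a | a <;> rcases y with ⟨a', b'⟩ | a' | a' <;>
    rcases z with ⟨a'', b''⟩ | a'' | a'' <;>
    simp only [pinc, ne_eq, inl.injEq, inr.injEq, Prod.mk.injEq] at * <;> grind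

theorem pinc_pat (c : Cyc r) (c' : Cyc r') [Nonempty ι] [Nonempty ι'] [Nonempty κ] [Nonempty κ'] :
    Pat (pinc r r') :=
  ⟨pinc_half c c', pinc_flip r r' ▸ pinc_half c.flip c'.flip, pinc_k33 c c'⟩

open Classical in
theorem Cyc.sum1 [Fintype ι] (c : Cyc r) (k : κ) : (∑ i, if r i k then 1 else 0) = 2 := by
  obtain ⟨i, i', hi, h⟩ := c.two k
  rw [← Finset.card_filter, Finset.card_eq_two]
  exact ⟨i, i', hi, by ext; simp [h]⟩

open Classical in
theorem Cyc.sum2 [Fintype κ] (c : Cyc r) (k : κ) :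
    (∑ k', if k ≠ k' ∧ ∃ i, r i k ∧ r i k' then 1 else 0) = 2 := by
  obtain ⟨i, i', hi, h⟩ := c.two k
  have h1 := (h i).mpr (Or.inl rfl)
  have h2 := (h i').mpr (Or.inr rfl)
  obtain ⟨a, a1, a2⟩ := c.oth h1
  obtain ⟨b, b1, b2⟩ := c.oth h2
  rw [← Finset.card_filter, Finset.card_eq_two]
  have := c.k22 i i' k a h1 ((a2 a).mpr (Or.inr rfl)) h2
  refine ⟨a, b, by grind, ?_⟩
  ext y
  simp only [Finset.mem_filter, Finset.mem_univ, true_and, Finset.mem_insert,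
    Finset.mem_singleton, h, exists_eq_or_imp, exists_eq_left, a2, b2]
  grind

theorem pinc_nadj [Fintype ι] [Fintype κ] [Fintype ι'] [Fintype κ'] (c : Cyc r) (c' : Cyc r') :
    nadj (pinc r r') = 12 * (Fintype.card κ * Fintype.card κ') := by
  classical
  have t : ∀ k l, (∑ k', ∑ l', if padj r r' (inl (k, l)) (inl (k', l')) then 1 else 0) = 4 := by
    intro k l
    have : ∀ k' l', (if padj r r' (inl (k, l)) (inl (k', l')) then 1 else 0) =
        (if k = k' then (if l ≠ l' ∧ ∃ j, r' j l ∧ r' j l' then 1 else 0) else 0) +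
        (if l = l' then (if k ≠ k' ∧ ∃ i, r i k ∧ r i k' then 1 else 0) else 0) := by
      intro k' l'
      simp only [padj]
      by_cases e1 : k = k' <;> by_cases e2 : l = l' <;> simp [e1, e2]
    simp only [this, Finset.sum_add_distrib, Finset.sum_ite_eq, Finset.mem_univ, if_true]
    rw [Finset.sum_comm]
    simp only [Finset.sum_ite_eq, Finset.mem_univ, if_true]
    have a := c.sum2 k
    have b := c'.sum2 l
    convert congrArg₂ (· + ·) b a
  have s1 : ∀ k, (∑ i, if r i k then 1 else 0) = 2 := fun k => by convert c.sum1 k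
  have s2 : ∀ l, (∑ j, if r' j l then 1 else 0) = 2 := fun l => by convert c'.sum1 l
  rw [nadj_eq]
  simp only [adj_iff_padj c c', Fintype.sum_sum_type, Fintype.sum_prod_type, t]
  have p1 : ∀ k l i, padj r r' (inl (k, l)) (inr (inl i)) ↔ r i k := fun _ _ _ => Iff.rfl
  have p2 : ∀ k l j, padj r r' (inl (k, l)) (inr (inr j)) ↔ r' j l := fun _ _ _ => Iff.rfl
  have p3 : ∀ k l i, padj r r' (inr (inl i)) (inl (k, l)) ↔ r i k := fun _ _ _ => Iff.rfl
  have p4 : ∀ k l j, padj r r' (inr (inr j)) (inl (k, l)) ↔ r' j l := fun _ _ _ => Iff.rfl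
  have p5 : ∀ a b, padj r r' (inr a) (inr b) ↔ False := by
    rintro (a | a) (b | b) <;> rfl
  simp only [p1, p2, p3, p4, p5, s1, s2, if_false, Finset.sum_const_zero, add_zero]
  rw [Finset.sum_comm (f := fun i k => ∑ _l : κ', if r i k then 1 else 0),
    Finset.sum_comm (f := fun j (_k : κ) => ∑ l, if r' j l then 1 else 0)]
  simp only [Finset.sum_comm (f := fun i (_l : κ') => if r i _ then 1 else 0),
    Finset.sum_comm (f := fun j l => if r' j l then 1 else 0), s1, s2]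
  simp
  ring

theorem pinc_oct (c : Cyc r) (c' : Cyc r') [Nonempty κ] [Nonempty κ'] :
    Nonempty (Oct (pinc r r')) := by
  obtain ⟨k⟩ := ‹Nonempty κ›
  obtain ⟨l⟩ := ‹Nonempty κ'›
  obtain ⟨i1, i2, hi, h⟩ := c.two k
  obtain ⟨j1, j2, hj, h'⟩ := c'.two l
  have a1 := (h i1).mpr (Or.inl rfl)
  have a2 := (h i2).mpr (Or.inr rfl)
  have b1 := (h' j1).mpr (Or.inl rfl)
  have b2 := (h' j2).mpr (Or.inr rfl)
  obtain ⟨k1, e1, t1⟩ := c.oth a1
  obtain ⟨k2, e2, t2⟩ := c.oth a2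
  obtain ⟨l1, e3, t3⟩ := c'.oth b1
  obtain ⟨l2, e4, t4⟩ := c'.oth b2
  have e5 : k1 ≠ k2 := by
    have := c.k22 i1 i2 k k1 a1 ((t1 _).mpr (Or.inr rfl)) a2
    grind
  have e6 : l1 ≠ l2 := by
    have := c'.k22 j1 j2 l l1 b1 ((t3 _).mpr (Or.inr rfl)) b2
    grind
  refine ⟨⟨inl (k, l), ![inr (inl k), inl (i1, j1), inl (i1, j2), inl (i2, j1), inl (i2, j2),
    inr (inr l)], ![inr (inl i1), inr (inl i2), inr (inr j1), inr (inr j2)],
    ![inl (k2, l), inl (k1, l), inl (k, l2), inl (k, l1)], ?_, ?_, ?_⟩⟩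
  · rintro (⟨a, b⟩ | a | a) <;> simp [pinc, Fin.exists_fin_succ, h, h']
    tauto
  · intro a b
    fin_cases a <;> fin_cases b <;> simp [pinc, tb, a1, a2, b1, b2, hi, hj, hi.symm, hj.symm]
  · intro a b
    fin_cases a <;> fin_cases b <;> simp [pinc, tb, t1, t2, t3, t4, e1, e2, e3, e4, e5, e6,
      e1.symm, e2.symm, e3.symm, e4.symm, e5.symm, e6.symm]

/-- A plane configuration: a polygon around the origin with vertices `U` and edge functionals
`E`, and an inscribed polygon with vertices `Q` whose edges `A` halve the position vectors `U`. -/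
structure Gon (r : ι → κ → Prop) where
  U : ι → ℝ × ℝ
  Q : κ → ℝ × ℝ
  E : κ → ℝ × ℝ
  A : ι → ℝ × ℝ
  h1 : ∀ i k, (E k).1 * (U i).1 + (E k).2 * (U i).2 ≤ 1 ∧
    ((E k).1 * (U i).1 + (E k).2 * (U i).2 = 1 ↔ r i k)
  h2 : ∀ k k', (E k').1 * (Q k).1 + (E k').2 * (Q k).2 ≤ 1 ∧
    ((E k').1 * (Q k).1 + (E k').2 * (Q k).2 = 1 ↔ k = k')
  h3 : ∀ i i', (A i').1 * (U i).1 + (A i').2 * (U i).2 ≤ 2 ∧
    ((A i').1 * (U i).1 + (A i').2 * (U i).2 = 2 ↔ i = i')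
  h4 : ∀ i k, (A i).1 * (Q k).1 + (A i).2 * (Q k).2 ≤ 1 ∧
    ((A i).1 * (Q k).1 + (A i).2 * (Q k).2 = 1 ↔ r i k)

theorem pinc_real (G : Gon r) (G' : Gon r') : Real (pinc r r') := by
  refine ⟨Sum.elim (fun x => ![2, (G.U x.1).1, (G.U x.1).2, (G'.U x.2).1, (G'.U x.2).2])
      (Sum.elim (fun k => ![1, (G.Q k).1, (G.Q k).2, 0, 0])
        fun l => ![1, 0, 0, (G'.Q l).1, (G'.Q l).2]),
    Sum.elim (fun y => ![1, -(G.E y.1).1, -(G.E y.1).2, -(G'.E y.2).1, -(G'.E y.2).2])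
      (Sum.elim (fun i => ![1, -(G.A i).1, -(G.A i).2, 0, 0])
        fun j => ![1, 0, 0, -(G'.A j).1, -(G'.A j).2]), ?_⟩
  rintro (⟨i, j⟩ | k | l) (⟨k', l'⟩ | i' | j') <;>
    simp only [elim_inl, elim_inr, dotProduct, Fin.sum_univ_five, Matrix.cons_val, pinc]
  · obtain ⟨a1, a2⟩ := G.h1 i k'
    obtain ⟨b1, b2⟩ := G'.h1 j l'
    rw [← a2, ← b2]
    exact ⟨by linarith, fun q => ⟨by linarith, by linarith⟩, fun q => by linarith [q.1, q.2]⟩
  · obtain ⟨a1, a2⟩ := G.h3 i i'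
    rw [← a2]
    exact ⟨by linarith, fun q => by linarith, fun q => by linarith⟩
  · obtain ⟨a1, a2⟩ := G'.h3 j j'
    rw [← a2]
    exact ⟨by linarith, fun q => by linarith, fun q => by linarith⟩
  · obtain ⟨a1, a2⟩ := G.h2 k k'
    rw [← a2]
    exact ⟨by linarith, fun q => by linarith, fun q => by linarith⟩
  · obtain ⟨a1, a2⟩ := G.h4 i' k
    rw [← a2]
    exact ⟨by linarith, fun q => by linarith, fun q => by linarith⟩
  · simp
  · obtain ⟨a1, a2⟩ := G'.h2 l l'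
    rw [← a2]
    exact ⟨by linarith, fun q => by linarith, fun q => by linarith⟩
  · simp
  · obtain ⟨a1, a2⟩ := G'.h4 j' l
    rw [← a2]
    exact ⟨by linarith, fun q => by linarith, fun q => by linarith⟩

end Pool.Agent.Lib.MP_087efe_co
end

-- part Pool.Agent.Lib.MP_087efe_co.Gon
section

/-! Explicit plane configurations with `2 N + 4` vertices. -/

namespace Pool.Agent.Lib.MP_087efe_co

open Sum

abbrev GV (N : ℕ) := (Bool × Fin (N + 1)) ⊕ Bool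
abbrev GE (N : ℕ) := Bool × (Fin N ⊕ Bool)

def gr (N : ℕ) : GV N → GE N → Prop
  | inl x, (s, inl k) => x.1 = s ∧ (x.2.val = k.val ∨ x.2.val = k.val + 1)
  | inl x, (s, inr false) => x.1 = s ∧ x.2.val = 0
  | inl x, (s, inr true) => x.1 = s ∧ x.2.val = N
  | inr _, (_, inl _) => False
  | inr b, (_, inr b') => b = b'

theorem gr_cyc (N : ℕ) : Cyc (gr N) := by
  constructor
  · rintro ⟨s, k | _ | _⟩
    · refine ⟨inl (s, k.castSucc), inl (s, k.succ), by simp [Fin.ext_iff], ?_⟩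
      rintro (⟨s', i⟩ | b) <;> simp [gr, Fin.ext_iff]
      tauto
    · refine ⟨inl (s, 0), inr false, by simp, ?_⟩
      rintro (⟨s', i⟩ | b) <;> simp [gr]
    · refine ⟨inl (s, Fin.last N), inr true, by simp, ?_⟩
      rintro (⟨s', i⟩ | b) <;> simp [gr, Fin.ext_iff]
  · rintro (⟨s, i⟩ | b)
    · have hi := i.2
      refine ⟨(s, if h : i.val = 0 then inr false else inl ⟨i.val - 1, by omega⟩),
        (s, if h : i.val = N then inr true else inl ⟨i.val, by omega⟩), ?_, ?_⟩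
      · split_ifs <;> simp
        omega
      · rintro ⟨s', k | _ | _⟩
        · have := k.2
          split_ifs <;> simp [gr, Fin.ext_iff] <;> grind
        · split_ifs <;> simp only [gr, Prod.mk.injEq] <;> grind
        · split_ifs <;> simp only [gr, Prod.mk.injEq] <;> grind
    · refine ⟨(false, inr b), (true, inr b), by simp, ?_⟩
      rintro ⟨_ | _, k | _ | _⟩ <;> simp [gr, eq_comm]
  · rintro (⟨s, i⟩ | b) (⟨s', i'⟩ | b') ⟨t, k | _ | _⟩ ⟨t', k' | _ | _⟩ <;>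
      simp only [gr, Fin.ext_iff, Prod.mk.injEq, inl.injEq, inr.injEq] <;> grind

theorem rat (i k : ℕ) : ∃ a b : ℝ, 0 < a ∧ 0 < b ∧ (3 : ℝ) ^ i = a * 3 ^ k ∧
    (21 : ℝ) ^ i = a * b * 21 ^ k ∧ ((i + 2 ≤ k ∧ a ≤ 1 / 9 ∧ b ≤ 1 / 49) ∨
      (i + 1 = k ∧ a = 1 / 3 ∧ b = 1 / 7) ∨ (i = k ∧ a = 1 ∧ b = 1) ∨
      (i = k + 1 ∧ a = 3 ∧ b = 7) ∨ (k + 2 ≤ i ∧ 9 ≤ a ∧ 49 ≤ b)) := by
  have e : ∀ n : ℕ, (21 : ℝ) ^ n = 3 ^ n * 7 ^ n := fun n => by rw [← mul_pow]; norm_num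
  refine ⟨3 ^ i / 3 ^ k, 7 ^ i / 7 ^ k, by positivity, by positivity, by field_simp,
    by rw [e, e]; field_simp, ?_⟩
  have m3 : ∀ {x y : ℕ}, x + 2 ≤ y → (9 : ℝ) * 3 ^ x ≤ 3 ^ y := fun {x y} h => by
    have := pow_le_pow_right₀ (show (1 : ℝ) ≤ 3 by norm_num) h
    rw [pow_add] at this
    linarith
  have m7 : ∀ {x y : ℕ}, x + 2 ≤ y → (49 : ℝ) * 7 ^ x ≤ 7 ^ y := fun {x y} h => by
    have := pow_le_pow_right₀ (show (1 : ℝ) ≤ 7 by norm_num) h
    rw [pow_add] at this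
    linarith
  rcases (by omega : i + 2 ≤ k ∨ i + 1 = k ∨ i = k ∨ i = k + 1 ∨ k + 2 ≤ i) with
    h | rfl | rfl | rfl | h
  · refine Or.inl ⟨h, ?_, ?_⟩ <;> rw [div_le_iff₀ (by positivity)]
    exacts [by linarith [m3 h], by linarith [m7 h]]
  · refine Or.inr (Or.inl ⟨rfl, ?_, ?_⟩) <;> field_simp <;> ring
  · refine Or.inr (Or.inr (Or.inl ⟨rfl, ?_, ?_⟩)) <;> field_simp
  · refine Or.inr (Or.inr (Or.inr (Or.inl ⟨rfl, ?_, ?_⟩))) <;> field_simp <;> ring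
  · refine Or.inr (Or.inr (Or.inr (Or.inr ⟨h, ?_, ?_⟩))) <;> rw [le_div_iff₀ (by positivity)]
    exacts [m3 h, m7 h]

theorem tri {x c : ℝ} {r : Prop} (h : (r ∧ x = c) ∨ (¬ r ∧ x < c)) : x ≤ c ∧ (x = c ↔ r) := by
  rcases h with ⟨h1, h2⟩ | ⟨h1, h2⟩
  exacts [⟨h2.le, iff_of_true h2 h1⟩, ⟨h2.le, iff_of_false h2.ne h1⟩]

def sg : Bool → ℝ
  | true => 1
  | false => -1

/-- A point `(± x 3 ^ i, y 21 ^ i)`. -/
noncomputable def gp (s : Bool) (x y : ℝ) (i : ℕ) : ℝ × ℝ := (sg s * x * 3 ^ i, y * 21 ^ i)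

/-- A functional `(± x 3 ^ (-i), y 21 ^ (-i))`. -/
noncomputable def gf (s : Bool) (x y : ℝ) (i : ℕ) : ℝ × ℝ := (sg s * x / 3 ^ i, y / 21 ^ i)

theorem gf_gp (s s' : Bool) (x y x' y' : ℝ) (i k : ℕ) : ∃ a b : ℝ, 0 < a ∧ 0 < b ∧ 0 < a * b ∧
    (gf s x y k).1 * (gp s' x' y' i).1 + (gf s x y k).2 * (gp s' x' y' i).2 =
      sg s * sg s' * x * x' * a + y * y' * (a * b) ∧
    ((i + 2 ≤ k ∧ a ≤ 1 / 9 ∧ a * b ≤ a / 49) ∨
      (i + 1 = k ∧ a = 1 / 3 ∧ a * b = 1 / 21) ∨ (i = k ∧ a = 1 ∧ a * b = 1) ∨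
      (i = k + 1 ∧ a = 3 ∧ a * b = 21) ∨ (k + 2 ≤ i ∧ 9 ≤ a ∧ 49 * a ≤ a * b)) := by
  obtain ⟨a, b, ha, hb, e1, e2, h⟩ := rat i k
  refine ⟨a, b, ha, hb, mul_pos ha hb, ?_, ?_⟩
  · simp only [gf, gp, e1, e2]
    field_simp
  · rcases h with ⟨h, h1, h2⟩ | ⟨h, rfl, rfl⟩ | ⟨h, rfl, rfl⟩ | ⟨h, rfl, rfl⟩ | ⟨h, h1, h2⟩
    · exact Or.inl ⟨h, h1, by nlinarith⟩
    · exact Or.inr (Or.inl ⟨h, rfl, by norm_num⟩)
    · exact Or.inr (Or.inr (Or.inl ⟨h, rfl, by norm_num⟩))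
    · exact Or.inr (Or.inr (Or.inr (Or.inl ⟨h, rfl, by norm_num⟩)))
    · exact Or.inr (Or.inr (Or.inr (Or.inr ⟨h, h1, by nlinarith⟩)))

theorem gf_tri {s s' : Bool} {x y x' y' c : ℝ} {i k : ℕ} {r : Prop}
    (h : ∀ a d : ℝ, 0 < a → 0 < d → ((i + 2 ≤ k ∧ a ≤ 1 / 9 ∧ d ≤ a / 49) ∨
      (i + 1 = k ∧ a = 1 / 3 ∧ d = 1 / 21) ∨ (i = k ∧ a = 1 ∧ d = 1) ∨
      (i = k + 1 ∧ a = 3 ∧ d = 21) ∨ (k + 2 ≤ i ∧ 9 ≤ a ∧ 49 * a ≤ d)) →
      (r ∧ sg s * sg s' * x * x' * a + y * y' * d = c) ∨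
      (¬ r ∧ sg s * sg s' * x * x' * a + y * y' * d < c)) :
    (gf s x y k).1 * (gp s' x' y' i).1 + (gf s x y k).2 * (gp s' x' y' i).2 ≤ c ∧
      ((gf s x y k).1 * (gp s' x' y' i).1 + (gf s x y k).2 * (gp s' x' y' i).2 = c ↔ r) := by
  obtain ⟨a, b, ha, -, hd, e, q⟩ := gf_gp s s' x y x' y' i k
  rw [e]
  exact tri (h a _ ha hd q)

noncomputable def gU (N : ℕ) : GV N → ℝ × ℝ
  | inl x => gp x.1 1 1 x.2
  | inr false => gp true 0 (-1) 0
  | inr true => gp true 0 3 N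

noncomputable def gA (N : ℕ) : GV N → ℝ × ℝ
  | inl x => gf x.1 (8 / 3) (-2 / 3) x.2
  | inr false => gf true 0 (-2) 0
  | inr true => gf true 0 (2 / 3) N

noncomputable def gQ (N : ℕ) : GE N → ℝ × ℝ
  | (s, inl k) => gp s (5 / 4) (7 / 2) k
  | (s, inr false) => gp s (1 / 4) (-1 / 2) 0
  | (s, inr true) => gp s (3 / 4) (3 / 2) N

noncomputable def gE (N : ℕ) : GE N → ℝ × ℝ
  | (s, inl k) => gf s (10 / 9) (-1 / 9) k
  | (s, inr false) => gf s 2 (-1) 0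
  | (s, inr true) => gf s (2 / 3) (1 / 3) N

noncomputable def gon (N : ℕ) : Gon (gr N) where
  U := gU N
  Q := gQ N
  E := gE N
  A := gA N
  h1 := by
    rintro (⟨_ | _, i, hi⟩ | _ | _) ⟨_ | _, ⟨k, hk⟩ | _ | _⟩ <;>
      refine gf_tri fun a d ha hd q => ?_ <;> simp only [gr, sg] <;>
      rcases q with ⟨h, h1, h2⟩ | ⟨h, h1, h2⟩ | ⟨h, h1, h2⟩ | ⟨h, h1, h2⟩ | ⟨h, h1, h2⟩ <;>
      (try simp only at h) <;>
      first
        | omega
        | exact Or.inr ⟨by grind, by linarith⟩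
        | exact Or.inl ⟨by grind, by linarith⟩
  h2 := by
    rintro ⟨_ | _, ⟨i, hi⟩ | _ | _⟩ ⟨_ | _, ⟨k, hk⟩ | _ | _⟩ <;>
      refine gf_tri fun a d ha hd q => ?_ <;> simp only [sg] <;>
      rcases q with ⟨h, h1, h2⟩ | ⟨h, h1, h2⟩ | ⟨h, h1, h2⟩ | ⟨h, h1, h2⟩ | ⟨h, h1, h2⟩ <;>
      (try simp only at h) <;>
      first
        | omega
        | exact Or.inr ⟨by grind, by linarith⟩
        | exact Or.inl ⟨by grind, by linarith⟩
  h3 := by
    rintro (⟨_ | _, i, hi⟩ | _ | _) (⟨_ | _, k, hk⟩ | _ | _) <;>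
      refine gf_tri fun a d ha hd q => ?_ <;> simp only [sg] <;>
      rcases q with ⟨h, h1, h2⟩ | ⟨h, h1, h2⟩ | ⟨h, h1, h2⟩ | ⟨h, h1, h2⟩ | ⟨h, h1, h2⟩ <;>
      (try simp only at h) <;>
      first
        | omega
        | exact Or.inr ⟨by grind, by linarith⟩
        | exact Or.inl ⟨by grind, by linarith⟩
  h4 := by
    rintro (⟨_ | _, i, hi⟩ | _ | _) ⟨_ | _, ⟨k, hk⟩ | _ | _⟩ <;>
      refine gf_tri fun a d ha hd q => ?_ <;> simp only [gr, sg] <;>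
      rcases q with ⟨h, h1, h2⟩ | ⟨h, h1, h2⟩ | ⟨h, h1, h2⟩ | ⟨h, h1, h2⟩ | ⟨h, h1, h2⟩ <;>
      (try simp only at h) <;>
      first
        | omega
        | exact Or.inr ⟨by grind, by linarith⟩
        | exact Or.inl ⟨by grind, by linarith⟩

end Pool.Agent.Lib.MP_087efe_co
end

-- part Pool.Agent.Lib.MP_087efe_co.OctReal
section

/-! An octahedral facet is replaced by four octahedra and a simplex: the geometry. -/

namespace Pool.Agent.Lib.MP_087efe_co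

open Matrix Sum Filter Topology

variable {V F : Type}

theorem small {ι : Type} [Finite ι] (A B : ι → ℝ) (hA : ∀ j, 0 < A j) :
    ∃ ε : ℝ, 0 < ε ∧ ∀ j, ε * B j < A j := by
  have h1 : ∀ᶠ ε in 𝓝 (0 : ℝ), ∀ j, ε * B j < A j := by
    rw [eventually_all]
    intro j
    have : Tendsto (fun ε : ℝ => ε * B j) (𝓝 0) (𝓝 (0 * B j)) := tendsto_id.mul_const _
    rw [zero_mul] at this
    exact this.eventually (gt_mem_nhds (hA j))
  obtain ⟨ε, h2, h3⟩ := ((h1.filter_mono nhdsWithin_le_nhds).and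
    (self_mem_nhdsWithin (s := Set.Ioi (0 : ℝ)))).exists
  exact ⟨ε, h3, h2⟩

namespace Oct

variable {I : V → F → Prop} (ω : Oct I)

theorem normal (H : Real I) (P : Pat I) : ∃ X k, Fac I X k ∧ (∀ v i, 0 ≤ X v i) ∧
    (∀ v, X v 0 = 0 ↔ I v ω.O) ∧ ∀ v i, X v (Fin.succ i) = 0 ↔ I v (ω.M i) := by
  obtain ⟨p, h, H⟩ := H
  have H : Fac I p h := H
  obtain ⟨u, hu⟩ := P.flip.miss ω.O
  have z0 : ∀ a, p (ω.P a) ⬝ᵥ h ω.O = 0 := fun a => H.flip.zero (v := ω.O) (ω.PO a)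
  have z1 : ∀ a k, tb a k = false → p (ω.P a) ⬝ᵥ h (ω.M k) = 0 := fun a k e =>
    H.flip.zero (v := ω.M k) ((ω.hM a k).mpr e)
  have z2 : ∀ a k, tb a k = true → 0 < p (ω.P a) ⬝ᵥ h (ω.M k) := fun a k e =>
    H.flip.pos (v := ω.M k) fun q => by simp [(ω.hM a k).mp q] at e
  set a := p (ω.P 4) ⬝ᵥ h (ω.M 1) with ha
  set c := p (ω.P 5) ⬝ᵥ h (ω.M 2) with hc
  set e := p (ω.P 3) ⬝ᵥ h (ω.M 1) with he
  set f := p (ω.P 3) ⬝ᵥ h (ω.M 2) with hf
  have sp := span5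
    ![p u, p (ω.P 0), p (ω.P 3), p (ω.P 5),
      (e * c) • p (ω.P 4) + (f * a) • p (ω.P 5) - (a * c) • p (ω.P 3)]
    (Fin.cons (h ω.O) fun i => h (ω.M i))
    (by
      intro i
      fin_cases i
      · exact (H.flip.pos hu).ne'
      · exact (z2 0 0 rfl).ne'
      · exact (z2 3 1 rfl).ne'
      · exact (z2 5 2 rfl).ne'
      · show ((e * c) • p (ω.P 4) + (f * a) • p (ω.P 5) - (a * c) • p (ω.P 3)) ⬝ᵥ h (ω.M 3) ≠ 0
        simp only [sub_dotProduct, add_dotProduct, smul_dotProduct, smul_eq_mul, z1 3 3 rfl]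
        have := mul_pos (mul_pos (z2 3 1 rfl) (z2 5 2 rfl)) (z2 4 3 rfl)
        have := mul_pos (mul_pos (z2 3 2 rfl) (z2 4 1 rfl)) (z2 5 3 rfl)
        linarith)
    (by
      intro i j hij
      fin_cases i <;> fin_cases j <;> simp at hij
      · exact z0 0
      · exact z0 3
      · exact z1 3 0 rfl
      · exact z0 5
      · exact z1 5 0 rfl
      · exact z1 5 1 rfl
      · show ((e * c) • p (ω.P 4) + (f * a) • p (ω.P 5) - (a * c) • p (ω.P 3)) ⬝ᵥ h ω.O = 0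
        simp [sub_dotProduct, add_dotProduct, z0]
      · show ((e * c) • p (ω.P 4) + (f * a) • p (ω.P 5) - (a * c) • p (ω.P 3)) ⬝ᵥ h (ω.M 0) = 0
        simp [sub_dotProduct, add_dotProduct, z1 4 0 rfl, z1 5 0 rfl, z1 3 0 rfl]
      · show ((e * c) • p (ω.P 4) + (f * a) • p (ω.P 5) - (a * c) • p (ω.P 3)) ⬝ᵥ h (ω.M 1) = 0
        simp only [sub_dotProduct, add_dotProduct, smul_dotProduct, smul_eq_mul, z1 5 1 rfl,
          ← ha, ← he]
        ring
      · show ((e * c) • p (ω.P 4) + (f * a) • p (ω.P 5) - (a * c) • p (ω.P 3)) ⬝ᵥ h (ω.M 2) = 0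
        simp only [sub_dotProduct, add_dotProduct, smul_dotProduct, smul_eq_mul, z1 4 2 rfl,
          ← hc, ← hf]
        ring)
  choose k hk using sp
  set X : V → Fin 5 → ℝ := fun v => Fin.cons (h ω.O ⬝ᵥ p v) fun i => h (ω.M i) ⬝ᵥ p v with hX
  have e : ∀ v f, k (h f) ⬝ᵥ X v = h f ⬝ᵥ p v := by
    intro v f
    conv_rhs => rw [hk (h f)]
    rw [sum_dotProduct, dotProduct]
    refine Finset.sum_congr rfl fun i _ => ?_
    refine Fin.cases ?_ (fun i => ?_) i <;> simp [hX]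
  exact ⟨X, fun f => k (h f), fun v f => by rw [e]; exact H v f,
    fun v i => Fin.cases (H v _).1 (fun i => (H v _).1) i, fun v => (H v _).2,
    fun v i => (H v _).2⟩

/-- The pair `{i, j}`. -/
def pr : Fin 4 → Fin 4 → Fin 6 := ![![0, 0, 1, 2], ![0, 0, 3, 4], ![1, 3, 0, 5], ![2, 4, 5, 0]]

theorem tb_pr : ∀ i j k : Fin 4, i ≠ j → (tb (pr i j) k = true ↔ k = i ∨ k = j) := by decide

theorem real (H : Real I) (P : Pat I) [Finite F] : Real ω.stack := by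
  classical
  obtain ⟨X, k, H', X0, XO, XM⟩ := ω.normal H P
  have x0 : ∀ a, X (ω.P a) 0 = 0 := fun a => (XO _).mpr (ω.PO a)
  have x1 : ∀ a j, tb a j = false → X (ω.P a) j.succ = 0 := fun a j e =>
    (XM _ _).mpr ((ω.hM a j).mpr e)
  have x2 : ∀ a j, tb a j = true → 0 < X (ω.P a) j.succ := fun a j e =>
    lt_of_le_of_ne (X0 _ _) fun q => by simp [(ω.hM a j).mp ((XM _ _).mp q.symm)] at e
  have n0 : ∀ a i, tb a i = true → k (ω.N i) ⬝ᵥ X (ω.P a) = 0 := fun a i e =>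
    H'.zero ((ω.hN a i).mpr e)
  have n1 : ∀ a i, tb a i = false → 0 < k (ω.N i) ⬝ᵥ X (ω.P a) := fun a i e =>
    H'.pos fun q => by simp [(ω.hN a i).mp q] at e
  -- the value of a functional at the vertex `P {i, j}`
  have val : ∀ (φ : Fin 5 → ℝ) i j, i ≠ j → φ ⬝ᵥ X (ω.P (pr i j)) =
      φ i.succ * X (ω.P (pr i j)) i.succ + φ j.succ * X (ω.P (pr i j)) j.succ := by
    intro φ i j hij
    rw [dotProduct, Fin.sum_univ_succ (n := 4), x0, mul_zero, zero_add]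
    refine Finset.sum_eq_add_of_mem i j (Finset.mem_univ _) (Finset.mem_univ _) hij ?_
    intro l _ hl
    refine mul_eq_zero_of_right _ (x1 _ _ ?_)
    rw [← Bool.not_eq_true, tb_pr i j l hij]
    tauto
  have t1 : ∀ i j, i ≠ j → tb (pr i j) i = true := fun i j e => (tb_pr i j i e).mpr (Or.inl rfl)
  have t2 : ∀ i j, i ≠ j → tb (pr i j) j = true := fun i j e => (tb_pr i j j e).mpr (Or.inr rfl)
  have neg : ∀ i, k (ω.N i) i.succ < 0 := by
    intro i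
    by_contra q
    have q1 : ∀ j, i ≠ j → k (ω.N i) j.succ ≤ 0 := by
      intro j hij
      have := n0 _ i (t1 i j hij)
      rw [val _ i j hij] at this
      have a1 := mul_nonneg (not_lt.mp q) (X0 (ω.P (pr i j)) i.succ)
      by_contra r
      have a2 := mul_pos (not_le.mp r) (x2 _ j (t2 i j hij))
      linarith
    obtain ⟨j, l, h1, h2, h3, h4⟩ : ∃ j l, i ≠ j ∧ i ≠ l ∧ j ≠ l ∧ tb (pr j l) i = false := by
      clear q q1
      revert i
      decide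
    have := n1 _ _ h4
    rw [val _ j l h3] at this
    have a1 := mul_nonpos_of_nonpos_of_nonneg (q1 j h1) (X0 (ω.P (pr j l)) j.succ)
    have a2 := mul_nonpos_of_nonpos_of_nonneg (q1 l h2) (X0 (ω.P (pr j l)) l.succ)
    linarith
  set z : Fin 5 → ℝ := ∑ a, X (ω.P a) with hz
  have z0 : z 0 = 0 := by simp [hz, Finset.sum_apply, x0]
  have zp : ∀ j : Fin 4, 0 < z j.succ := by
    intro j
    obtain ⟨a, ha⟩ : ∃ a, tb a j = true := by
      revert j
      decide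
    rw [hz, Finset.sum_apply]
    exact Finset.sum_pos' (fun a _ => X0 _ _) ⟨a, Finset.mem_univ _, x2 a j ha⟩
  have nz : ∀ i, 0 < k (ω.N i) ⬝ᵥ z := by
    intro i
    obtain ⟨a, ha⟩ : ∃ a, tb a i = false := by
      revert i
      decide
    rw [hz, dotProduct_sum]
    exact Finset.sum_pos' (fun a _ => (H' _ _).1) ⟨a, Finset.mem_univ _, n1 a i ha⟩
  -- the point `y i` in the relative interior of the triangle `O ∩ N i`
  set t : Fin 4 → ℝ := fun i => -(k (ω.N i) ⬝ᵥ z) / k (ω.N i) i.succ with ht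
  have tp : ∀ i, 0 < t i := fun i => div_pos_of_neg_of_neg (neg_neg_of_pos (nz i)) (neg i)
  set y : Fin 4 → Fin 5 → ℝ := fun i => z + Pi.single i.succ (t i) with hy
  have ny : ∀ i, k (ω.N i) ⬝ᵥ y i = 0 := by
    intro i
    simp only [hy, ht, dotProduct_add, dotProduct_single]
    field_simp [(neg i).ne]
    ring
  have yc : ∀ i, y i = ∑ j ∈ Finset.univ.erase i,
      (z j.succ / X (ω.P (pr i j)) j.succ) • X (ω.P (pr i j)) := by
    intro i
    set w := ∑ j ∈ Finset.univ.erase i,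
      (z j.succ / X (ω.P (pr i j)) j.succ) • X (ω.P (pr i j)) with hw
    have w0 : k (ω.N i) ⬝ᵥ w = 0 := by
      rw [hw, dotProduct_sum]
      refine Finset.sum_eq_zero fun j hj => ?_
      rw [dotProduct_smul, n0 _ _ (t1 i j (Finset.ne_of_mem_erase hj).symm), smul_zero]
    have w1 : ∀ l : Fin 5, l ≠ i.succ → y i l = w l := by
      intro l
      refine Fin.cases (fun _ => ?_) (fun l hl => ?_) l
      · simp [hy, hw, z0, Finset.sum_apply, x0]
      · have hl' : l ≠ i := fun e => hl (e ▸ rfl)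
        simp only [hy, hw, Pi.add_apply, Pi.single_eq_of_ne hl, add_zero, Finset.sum_apply,
          Pi.smul_apply, smul_eq_mul]
        rw [Finset.sum_eq_single_of_mem l (by simpa using hl')]
        · field_simp [(x2 _ l (t2 i l hl'.symm)).ne']
        · intro j hj hjl
          refine mul_eq_zero_of_right _ (x1 _ _ ?_)
          rw [← Bool.not_eq_true, tb_pr i j l (Finset.ne_of_mem_erase hj).symm]
          tauto
    have w2 : k (ω.N i) ⬝ᵥ (y i - w) = 0 := by rw [dotProduct_sub, ny, w0, sub_zero]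
    rw [dotProduct, Finset.sum_eq_single i.succ (fun l _ hl => by simp [w1 l hl]) (by simp)] at w2
    have w3 := sub_eq_zero.mp ((mul_eq_zero.mp w2).resolve_left (neg i).ne)
    funext l
    by_cases hl : l = i.succ
    · rw [hl]
      exact w3
    · exact w1 l hl
  have ky : ∀ i f, f ≠ ω.O → f ≠ ω.N i → 0 < k f ⬝ᵥ y i := by
    intro i f h1 h2
    obtain ⟨j, hj, hf⟩ : ∃ j, i ≠ j ∧ ¬ I (ω.P (pr i j)) f := by
      by_contra q
      push Not at q
      obtain ⟨a, b, c, e1, e2, e3, e4, e5, e6⟩ : ∃ a b c, i ≠ a ∧ i ≠ b ∧ i ≠ c ∧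
          pr i a ≠ pr i b ∧ pr i a ≠ pr i c ∧ pr i b ≠ pr i c := by
        clear q h2
        revert i
        decide
      rcases P.k ω.O (ω.N i) f (ω.N_ne i).symm h1.symm h2.symm _ _ _ (ω.PO _)
        ((ω.hN _ _).mpr (t1 i a e1)) (q a e1) (ω.PO _) ((ω.hN _ _).mpr (t1 i b e2)) (q b e2)
        (ω.PO _) ((ω.hN _ _).mpr (t1 i c e3)) (q c e3) with s | s | s
      exacts [e4 (ω.P_inj s), e5 (ω.P_inj s), e6 (ω.P_inj s)]
    rw [yc, dotProduct_sum]
    simp only [dotProduct_smul, smul_eq_mul]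
    exact Finset.sum_pos' (fun j _ => mul_nonneg (div_nonneg (zp j).le (X0 _ _)) (H' _ _).1)
      ⟨j, by simpa using hj.symm, mul_pos (div_pos (zp j) (x2 _ _ (t2 i j hj))) (H'.pos hf)⟩
  set s : Fin 4 → ℝ := fun i => k (ω.N i) 0 / k (ω.N i) i.succ with hs
  set d : Fin 4 → Fin 5 → ℝ := fun i => Pi.single 0 1 - Pi.single i.succ (s i) with hd
  have nd : ∀ i, k (ω.N i) ⬝ᵥ d i = 0 := by
    intro i
    simp only [hd, hs, dotProduct_sub, dotProduct_single]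
    field_simp [(neg i).ne]
    ring
  obtain ⟨ε, hε, hsm⟩ := small
    (fun x : Fin 4 × Option F => x.2.elim (t x.1) fun f =>
      if f ≠ ω.O ∧ f ≠ ω.N x.1 then k f ⬝ᵥ y x.1 else 1)
    (fun x => x.2.elim (-s x.1) fun f => k f ⬝ᵥ d x.1) (by
      rintro ⟨i, _ | f⟩
      · exact tp i
      · simp only [Option.elim]
        split_ifs with q
        exacts [ky i f q.1 q.2, one_pos])
  set τ : Fin 4 → ℝ := fun i => t i + ε * s i with hτ
  have τp : ∀ i, 0 < τ i := by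
    intro i
    have := hsm (i, none)
    simp only [Option.elim] at this
    simp only [hτ]
    linarith
  set q : Fin 4 → Fin 5 → ℝ := fun i => y i - ε • d i with hq
  have q0 : ∀ i, q i 0 = -ε := fun i => by simp [hq, hy, hd, z0]
  have q1 : ∀ i j : Fin 4, q i j.succ = z j.succ + if j = i then τ i else 0 := by
    intro i j
    by_cases e : j = i
    · subst e
      simp [hq, hy, hd, hτ]
      ring
    · simp [hq, hy, hd, e]
  set T : Fin 4 → Fin 5 → ℝ := fun l => Pi.single 0 (z l.succ / ε) + Pi.single l.succ 1 with hT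
  set Z : Fin 5 → ℝ := Fin.cons ((1 + ∑ l : Fin 4, z l.succ / τ l) / ε) fun l => 1 / τ l with hZ
  have Zp : ∀ i, 0 < Z i := by
    intro i
    refine Fin.cases ?_ (fun i => ?_) i
    · exact div_pos (add_pos_of_pos_of_nonneg one_pos
        (Finset.sum_nonneg fun l _ => (div_pos (zp l) (τp l)).le)) hε
    · exact one_div_pos.mpr (τp i)
  refine ⟨Sum.elim X q, Sum.elim (fun f => if f = ω.O then Z else k f) T, ?_⟩
  rintro (v | i) (f | l) <;> simp only [elim_inl, elim_inr, stack]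
  · split_ifs with e
    · obtain ⟨j, hj⟩ : ∃ j, X v j ≠ 0 := by
        by_contra r
        push Not at r
        obtain ⟨g, hg⟩ := P.miss v
        have := H'.pos hg
        simp [dotProduct, r] at this
      have : 0 < Z ⬝ᵥ X v := Finset.sum_pos' (fun i _ => mul_nonneg (Zp i).le (X0 v i))
        ⟨j, Finset.mem_univ _, mul_pos (Zp j) (lt_of_le_of_ne (X0 v j) hj.symm)⟩
      exact ⟨this.le, iff_of_false this.ne' fun r => r.1 e⟩
    · exact ⟨(H' v f).1, by simp [e, (H' v f).2]⟩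
  · simp only [hT, add_dotProduct, single_dotProduct, one_mul]
    have a1 := div_pos (zp l) hε
    have a2 := mul_nonneg a1.le (X0 v 0)
    refine ⟨add_nonneg a2 (X0 v _), ?_⟩
    rw [add_eq_zero_iff_of_nonneg a2 (X0 v _), mul_eq_zero, or_iff_right a1.ne', XO, XM]
  · split_ifs with e
    · have : Z ⬝ᵥ q i = 0 := by
        rw [dotProduct, Fin.sum_univ_succ (n := 4)]
        simp only [hZ, Fin.cons_zero, Fin.cons_succ, q0, q1, mul_add, Finset.sum_add_distrib,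
          mul_ite, mul_zero, Finset.sum_ite_eq', Finset.mem_univ, if_true, one_div_mul_eq_div]
        field_simp [(τp i).ne']
        ring
      exact ⟨this.ge, iff_of_true this (Or.inl e)⟩
    · by_cases e2 : f = ω.N i
      · have : k f ⬝ᵥ q i = 0 := by
          simp only [hq, e2, dotProduct_sub, dotProduct_smul, ny, nd, smul_zero, sub_zero]
        exact ⟨this.ge, iff_of_true this (Or.inr e2)⟩
      · have := hsm (i, some f)
        simp only [Option.elim, ne_eq, e, e2, not_false_eq_true, and_self, if_true] at this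
        have h2 : 0 < k f ⬝ᵥ q i := by
          simp only [hq, dotProduct_sub, dotProduct_smul, smul_eq_mul]
          linarith
        exact ⟨h2.le, iff_of_false h2.ne' (by simp [e, e2])⟩
  · have : T l ⬝ᵥ q i = if l = i then τ i else 0 := by
      simp only [hT, add_dotProduct, single_dotProduct, one_mul, q0, q1]
      field_simp
      ring
    rw [this]
    split_ifs with e
    · exact ⟨(τp i).le, iff_of_false (τp i).ne' fun r => r e.symm⟩
    · exact ⟨le_rfl, iff_of_true rfl fun r => e r.symm⟩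

end Oct

end Pool.Agent.Lib.MP_087efe_co
end

-- part Pool.Agent.Lib.MP_087efe_co.Ops
section

/-! Bookkeeping: the pairs `(n - 5, m - 4 n + 10)` reached by the constructions. -/

namespace Pool.Agent.Lib.MP_087efe_co

open Matrix Sum

/-- There is a realized pattern with `a + 5` vertices, `4 a + 10 + g` edges and property `Φ`. -/
def Gd (a g : ℕ) (Φ : ∀ V F : Type, (V → F → Prop) → Prop) : Prop :=
  ∃ (V F : Type) (_ : Fintype V) (_ : Fintype F) (I : V → F → Prop), Pat I ∧ Real I ∧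
    Fintype.card V = a + 5 ∧ Fintype.card F = a + 5 ∧ nadj I = 2 * (4 * a + 10 + g) ∧ Φ V F I

def SV (V F : Type) (I : V → F → Prop) : Prop := Nonempty (SFacet (flip I))
def SFV (V F : Type) (I : V → F → Prop) : Prop :=
  ∃ (σ : SFacet I) (ρ : SFacet (flip I)), ¬ I ρ.S σ.S
def OC (V F : Type) (I : V → F → Prop) : Prop := Nonempty (Oct I)
def SO (V F : Type) (I : V → F → Prop) : Prop := Nonempty (SFacet I) ∧ Nonempty (Oct I)
def TT (V F : Type) (_ : V → F → Prop) : Prop := True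

theorem Gd.mono {a g Φ Ψ} (h : Gd a g Φ) (e : ∀ V F I, Φ V F I → Ψ V F I) : Gd a g Ψ := by
  obtain ⟨V, F, i1, i2, I, h1, h2, h3, h4, h5, h6⟩ := h
  exact ⟨V, F, i1, i2, I, h1, h2, h3, h4, h5, e _ _ _ h6⟩

theorem Gd.glue' {a g a' g' Φ Ψ} (h : Gd a g Φ) (h' : Gd a' g' SV)
    (e : ∀ V F I, Φ V F I → ∃ σ : SFacet I, ∀ (V' F' : Type) (J : V' → F' → Prop)
      (τ : SFacet (flip J)), Ψ _ _ (glue σ τ)) : Gd (a + a') (g + g') Ψ := by
  obtain ⟨V, F, i1, i2, I, h1, h2, h3, h4, h5, h6⟩ := h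
  obtain ⟨V', F', j1, j2, J, k1, k2, k3, k4, k5, ⟨τ⟩⟩ := h'
  obtain ⟨σ, hσ⟩ := e _ _ _ h6
  refine ⟨_, _, inferInstance, inferInstance, glue σ τ, glue_pat h1 h2 k1 k2,
    glue_real σ τ h1 h2 k1 k2, ?_, ?_, ?_, hσ _ _ _ τ⟩
  · have := τ.card_eq
    rw [Fintype.card_sum]
    omega
  · have := σ.card_eq
    rw [Fintype.card_sum]
    omega
  · have := glue_nadj (σ := σ) (τ := τ) h1 h2 k1 k2
    omega

theorem Gd.glue {a g a' g'} (h : Gd a g SO) (h' : Gd a' g' SV) : Gd (a + a') (g + g') TT :=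
  h.glue' h' fun _ _ _ q => ⟨q.1.some, fun _ _ _ _ => trivial⟩

theorem Gd.glueV {a g a' g'} (h : Gd a g SFV) (h' : Gd a' g' SV) : Gd (a + a') (g + g') SV := by
  refine h.glue' h' ?_
  rintro V F I ⟨σ, ρ, q⟩
  refine ⟨σ, fun V' F' J τ => ?_⟩
  have : ∀ i, ∃ f', Rep σ τ (ρ.s i) f' := fun i => Rep.ex τ fun e => q (e ▸ ρ.sS i)
  choose s hs using this
  refine ⟨⟨inl ρ.S, s, fun i => inl (ρ.A i), fun f' => ⟨fun t => ?_, ?_⟩, fun i j => ?_⟩⟩
  · rcases rep_or (τ := τ) f' with ⟨f, r⟩ | ⟨K, rfl, hK⟩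
    · obtain ⟨i, rfl⟩ := (ρ.hS f).mp ((r.inc _).mp t)
      exact ⟨i, (r.eq_iff (hs i)).mpr rfl⟩
    · obtain ⟨u, ⟨i, -, e⟩ | ⟨r, -, e⟩⟩ := rep_of_pure hK t
      · exact (q (inl.inj e ▸ σ.sS i)).elim
      · exact (inl_ne_inr e).elim
  · rintro ⟨i, rfl⟩
    exact ((hs i).inc _).mpr (ρ.sS i)
  · exact ((hs i).inc _).trans (ρ.hA i j)

theorem Gd.stack {a g} (h : Gd a g OC) : Gd (a + 4) (g + 2) SO := by
  obtain ⟨V, F, i1, i2, I, h1, h2, h3, h4, h5, ⟨ω⟩⟩ := h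
  refine ⟨_, _, inferInstance, inferInstance, ω.stack, ω.pat h1 h2, ω.real h2 h1, ?_, ?_, ?_,
    ⟨ω.sfacet⟩, ⟨ω.oct⟩⟩
  · simp [h3]
  · simp [h4]
  · rw [ω.nadj_stack h1 h2]
    omega

theorem Gd.stacks {a g} (h : Gd a g OC) (t : ℕ) : Gd (a + 4 * (t + 1)) (g + 2 * (t + 1)) SO := by
  induction t with
  | zero => exact h.stack
  | succ t ih => exact (ih.mono fun _ _ _ q => q.2).stack

theorem gd_prod (s t : ℕ) :
    Gd (4 * ((s + 1) * (t + 1)) + 6 * (s + t + 2) + 3) (8 * ((s + 1) * (t + 1)) + 2) OC := by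
  refine ⟨_, _, inferInstance, inferInstance, pinc (gr s) (gr t), pinc_pat (gr_cyc s) (gr_cyc t),
    pinc_real (gon s) (gon t), ?_, ?_, ?_, pinc_oct (gr_cyc s) (gr_cyc t)⟩
  · simp
    ring
  · simp
    ring
  · rw [pinc_nadj (gr_cyc s) (gr_cyc t)]
    simp
    ring

/-- A pattern stored in the bits of a number. -/
abbrev bit (n t : ℕ) (v f : Fin n) : Prop := t.testBit (v * n + f) = true

def Ok (n m : ℕ) (I : Fin n → Fin n → Prop) : Prop := Pat I ∧ Real I ∧ nadj I = 2 * m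

theorem Ok.gd {a g Φ} {I : Fin (a + 5) → Fin (a + 5) → Prop} (h : Ok (a + 5) (4 * a + 10 + g) I)
    (e : Φ _ _ I) : Gd a g Φ :=
  ⟨_, _, inferInstance, inferInstance, I, h.1, h.2.1, by simp, by simp, h.2.2, e⟩

theorem adj_card {n : ℕ} (I : Fin n → Fin n → Prop) [DecidableRel I] (f g : Fin n) :
    Adj I f g ↔ f ≠ g ∧ 1 < (Finset.univ.filter fun v => I v f ∧ I v g).card := by
  simp only [Adj, Finset.one_lt_card, Finset.mem_filter, Finset.mem_univ, true_and]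
  grind

theorem half_of {n : ℕ} (I : Fin n → Fin n → Prop) [DecidableRel I]
    (h1 : ∀ f g, f ≠ g → (Finset.univ.filter fun v => I v f ∧ I v g).card ≠ 2)
    (h2 : ∀ f, ∃ g, f ≠ g ∧ 1 < (Finset.univ.filter fun v => I v f ∧ I v g).card) : Half I := by
  refine ⟨fun f g v w e hvw a1 a2 a3 a4 => ?_, fun f => by simpa only [adj_card] using h2 f⟩
  by_contra q
  refine h1 f g e (Finset.card_eq_two.mpr ⟨v, w, hvw, ?_⟩)
  ext u
  simp only [Finset.mem_filter, Finset.mem_univ, true_and, Finset.mem_insert, Finset.mem_singleton]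
  grind

theorem ok_of {n m t : ℕ} (p h : Fin n → Fin 5 → ℤ)
    (h0 : ∀ v f, 0 ≤ h f ⬝ᵥ p v ∧ (h f ⬝ᵥ p v = 0 ↔ bit n t v f))
    (h1 : ∀ f g, f ≠ g → (Finset.univ.filter fun v => bit n t v f ∧ bit n t v g).card ≠ 2)
    (h2 : ∀ f, ∃ g, f ≠ g ∧ 1 < (Finset.univ.filter fun v => bit n t v f ∧ bit n t v g).card)
    (h3 : ∀ f g, f ≠ g → (Finset.univ.filter fun v => bit n t f v ∧ bit n t g v).card ≠ 2)
    (h4 : ∀ f, ∃ g, f ≠ g ∧ 1 < (Finset.univ.filter fun v => bit n t f v ∧ bit n t g v).card)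
    (h5 : ∀ f g, f ≠ g → 2 < (Finset.univ.filter fun v => bit n t v f ∧ bit n t v g).card →
      ∀ k, f ≠ k → g ≠ k →
      (Finset.univ.filter fun v => bit n t v f ∧ bit n t v g ∧ bit n t v k).card ≤ 2)
    (h6 : (∑ f, ∑ g, if f ≠ g ∧
      1 < (Finset.univ.filter fun v => bit n t v f ∧ bit n t v g).card then 1 else 0) = 2 * m) :
    Ok n m (bit n t) := by
  refine ⟨⟨half_of _ h1 h2, half_of (fun f v => bit n t v f) h3 h4, ?_⟩,
    ⟨fun v i => p v i, fun f i => h f i, fun v f => ?_⟩, ?_⟩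
  · intro f g k e1 e2 e3 a b c a1 a2 a3 a4 a5 a6 a7 a8 a9
    by_contra q
    push Not at q
    have m := fun (s : Fin n → Prop) [DecidablePred s] (x : Fin n) (hx : s x) =>
      Finset.mem_filter.mpr ⟨Finset.mem_univ x, hx⟩
    have := h5 f g e1 (Finset.two_lt_card_iff.mpr ⟨a, b, c, m _ _ ⟨a1, a2⟩, m _ _ ⟨a4, a5⟩,
      m _ _ ⟨a7, a8⟩, q⟩) k e2 e3
    exact absurd (Finset.two_lt_card_iff.mpr ⟨a, b, c, m _ _ ⟨a1, a2, a3⟩, m _ _ ⟨a4, a5, a6⟩,
      m _ _ ⟨a7, a8, a9⟩, q⟩) (not_lt.mpr this)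
  · have e : (fun i => (h f i : ℝ)) ⬝ᵥ (fun i => (p v i : ℝ)) = ((h f ⬝ᵥ p v : ℤ) : ℝ) := by
      simp [dotProduct]
    rw [e]
    exact ⟨by exact_mod_cast (h0 v f).1, by rw [← (h0 v f).2]; exact_mod_cast Iff.rfl⟩
  · rw [nadj_eq, ← h6]
    simp only [adj_card]

end Pool.Agent.Lib.MP_087efe_co
end
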