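import Pool.Agent.Lib.MP_087efe_co.Ops

/-! Explicit small 2-simple 2-simplicial 4-polytopes in homogeneous integer coordinates. -/

namespace Pool.Agent.Lib.MP_087efe_co

instance {n t : ℕ} : DecidableRel (flip (bit n t)) := fun f v =>
  inferInstanceAs (Decidable (bit n t v f))

instance {n t : ℕ} : DecidableRel (flip (flip (bit n t))) := fun v f =>
  inferInstanceAs (Decidable (bit n t v f))

def x5_10p : Fin 5 → Fin 5 → ℤ :=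
  ![![1, 0, 0, 0, 0], ![0, 1, 0, 0, 0], ![0, 0, 1, 0, 0], ![0, 0, 0, 1, 0], ![0, 0, 0, 0, 1]]

def x5_10h : Fin 5 → Fin 5 → ℤ :=
  ![![1, 0, 0, 0, 0], ![0, 1, 0, 0, 0], ![0, 0, 1, 0, 0], ![0, 0, 0, 1, 0], ![0, 0, 0, 0, 1]]

theorem x5_10 : Ok 5 10 (bit 5 16510910) :=
  ok_of x5_10p x5_10h (by decide +kernel) (by decide +kernel) (by decide +kernel)
    (by decide +kernel) (by decide +kernel) (by decide +kernel) (by decide +kernel)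

theorem x5_10V : Gd 0 0 SV :=
  x5_10.gd ⟨⟨0, ![1, 2, 3, 4], ![1, 2, 3, 4], by decide +kernel, by decide +kernel⟩⟩

def x9_26p : Fin 9 → Fin 5 → ℤ :=
  ![![1, 0, 0, 0, 0], ![3, 2, -3, 1, 0], ![0, 0, 0, 0, 1], ![0, 1, 0, 0, 0], ![-1, 0, 1, 0, 1],
    ![1, 0, -1, 1, 0], ![0, 0, 1, 0, 0], ![0, -1, 1, 0, 1], ![-1, -2, 3, 1, 2]]

def x9_26h : Fin 9 → Fin 5 → ℤ :=
  ![![0, 0, 1, 3, 0], ![1, 0, 1, 0, 0], ![0, 0, 0, 1, 0], ![0, 0, 0, 0, 1], ![0, 1, 1, 1, 0],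
    ![0, 1, 0, 0, 1], ![1, 1, 1, 0, 0], ![1, 0, 0, -1, 1], ![1, 1, 0, 1, 1]]

theorem x9_26 : Ok 9 26 (bit 9 2270174725165012618065469) :=
  ok_of x9_26p x9_26h (by decide +kernel) (by decide +kernel) (by decide +kernel)
    (by decide +kernel) (by decide +kernel) (by decide +kernel) (by decide +kernel)

theorem x9_26V : Gd 4 0 SV :=
  x9_26.gd ⟨⟨1, ![0, 1, 3, 4], ![5, 0, 2, 3], by decide +kernel, by decide +kernel⟩⟩

theorem x9_26S : Gd 4 0 SFV :=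
  x9_26.gd ⟨⟨0, ![0, 1, 2, 3], ![1, 2, 3, 4], by decide +kernel, by decide +kernel⟩,
    ⟨8, ![5, 6, 7, 8], ![4, 6, 7, 5], by decide +kernel, by decide +kernel⟩, by decide +kernel⟩

theorem x9_26O : Gd 4 0 OC :=
  x9_26.gd ⟨⟨2, ![0, 2, 3, 7, 6, 4], ![0, 5, 6, 7], ![8, 1, 3, 4], by decide +kernel, by decide +kernel,
    by decide +kernel⟩⟩

def x10_30p : Fin 10 → Fin 5 → ℤ :=
  ![![0, 0, 0, 1, 0], ![-4, 4, 26, 1, -12], ![-4, 4, 16, 1, -7], ![0, 1, 0, 0, 0],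
    ![-1, 1, 9, 0, -4], ![1, 0, -4, 1, 2], ![0, 0, 0, 0, 1], ![1, 0, 1, 0, 0], ![0, 0, 1, 0, 0],
    ![-2, 6, 8, 0, -3]]

def x10_30h : Fin 10 → Fin 5 → ℤ :=
  ![![1, 0, 2, 0, 4], ![1, 0, 1, 2, 2], ![4, 0, 1, 0, 0], ![-2, 0, 2, 0, 5], ![1, 1, 0, 0, 0],
    ![0, 4, 0, 0, 1], ![0, 1, 0, 0, 0], ![23, 5, 2, 40, 0], ![0, 0, 0, 1, 0], ![-1, 0, 1, 5, 0]]

theorem x10_30 : Ok 10 30 (bit 10 483242530629335346814578093181) :=
  ok_of x10_30p x10_30h (by decide +kernel) (by decide +kernel) (by decide +kernel)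
    (by decide +kernel) (by decide +kernel) (by decide +kernel) (by decide +kernel)

theorem x10_30V : Gd 5 0 SV :=
  x10_30.gd ⟨⟨1, ![0, 1, 3, 4], ![4, 0, 2, 3], by decide +kernel, by decide +kernel⟩⟩

theorem x10_30S : Gd 5 0 SFV :=
  x10_30.gd ⟨⟨0, ![0, 1, 2, 3], ![1, 2, 3, 4], by decide +kernel, by decide +kernel⟩,
    ⟨5, ![2, 3, 6, 9], ![7, 6, 3, 0], by decide +kernel, by decide +kernel⟩, by decide +kernel⟩

def x11_34p : Fin 11 → Fin 5 → ℤ :=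
  ![![-2, 1, 6, 1, -3], ![1, 0, 0, 0, 0], ![-2, 1, 3, 3, -3], ![-2, 3, 3, 1, -3],
    ![0, 1, -3, 1, 3], ![0, 1, 0, 0, 0], ![0, 0, 0, 1, 0], ![-1, 2, 3, -1, 3],
    ![-1, -1, 3, 2, 3], ![0, 1, -3, 1, 6], ![0, 0, 1, 0, 0]]

def x11_34h : Fin 11 → Fin 5 → ℤ :=
  ![![0, 3, 2, 3, 6], ![0, 0, 1, 0, 1], ![9, 3, 2, 3, 0], ![0, 0, 0, 3, 1], ![0, 3, 0, 0, 1],
    ![1, 1, 0, 1, 0], ![0, 0, 1, 3, 0], ![0, 3, 1, 0, 0], ![0, 3, 0, 3, -1], ![6, 6, 3, 0, 1],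
    ![6, 0, 3, 6, 1]]

theorem x11_34 : Ok 11 34 (bit 11 405285937602954666628915189657819197) :=
  ok_of x11_34p x11_34h (by decide +kernel) (by decide +kernel) (by decide +kernel)
    (by decide +kernel) (by decide +kernel) (by decide +kernel) (by decide +kernel)

theorem x11_34V : Gd 6 0 SV :=
  x11_34.gd ⟨⟨5, ![1, 3, 6, 10], ![7, 4, 3, 1], by decide +kernel, by decide +kernel⟩⟩

def x12_39p : Fin 12 → Fin 5 → ℤ :=
  ![![0, 1, 0, 0, 0], ![-35, 45, 0, 25, -12], ![1, 0, 0, 0, 0], ![0, 0, 0, 0, 1],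
    ![-31, 38, 0, 24, -11], ![0, 0, 0, 1, 0], ![-9, 10, 0, 40, -5], ![4, 2, 20, -10, -11],
    ![-9, 10, 4, 8, -7], ![1, 0, 4, -2, -2], ![-7, 8, 2, 8, -5], ![0, 0, 1, 0, 0]]

def x12_39h : Fin 12 → Fin 5 → ℤ :=
  ![![0, 0, 1, 0, 0], ![0, 0, 79, 48, 100], ![10, 0, 5, 14, 0], ![0, 0, 1, 2, 0],
    ![0, 1, 9, 3, 10], ![2, 1, 0, 1, 0], ![0, 1, 0, 0, 0], ![0, 4, 20, 1, 16], ![0, 1, 1, 0, 2],
    ![40, 32, 8, 1, 0], ![10, 9, 0, 0, 0], ![4, 5, 0, 0, 2]]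

theorem x12_39 : Ok 12 39 (bit 12 17249445652169565291584805188814228420784143) :=
  ok_of x12_39p x12_39h (by decide +kernel) (by decide +kernel) (by decide +kernel)
    (by decide +kernel) (by decide +kernel) (by decide +kernel) (by decide +kernel)

theorem x12_39V : Gd 7 1 SV :=
  x12_39.gd ⟨⟨0, ![0, 1, 2, 3], ![7, 3, 2, 1], by decide +kernel, by decide +kernel⟩⟩

def x13_43p : Fin 13 → Fin 5 → ℤ :=
  ![![0, 0, 0, 0, 1], ![-159, 220, 1288, -220, 0], ![0, 0, 1, 0, 0], ![1, 0, 0, 0, 0],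
    ![-36, 23, 64, 64, 0], ![2, -4, -5, 8, 1], ![0, 1, 0, 0, 0], ![285, -152, -608, 304, 104],
    ![14, -7, -16, 14, 0], ![168, -224, -282, 448, 35], ![7, 1, -8, 4, 0], ![-2, 1, 3, 8, 0],
    ![0, 4, 8, -4, 1]]

def x13_43h : Fin 13 → Fin 5 → ℤ :=
  ![![0, 1, 0, 1, 0], ![220, 208, 0, 49, 0], ![16, 0, 3, 6, 0], ![0, 2, 0, 1, 0],
    ![0, 0, 1, 2, 0], ![16, 0, 8, 1, 0], ![0, 0, 0, 0, 1], ![0, 0, 55, 322, 848],
    ![12, 16, 0, 1, 32], ![1, 2, 0, 0, 8], ![0, 104, 91, 156, 228], ![8, 0, 7, 0, 19],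
    ![17, 0, 14, -1, 44]]

theorem x13_43 : Ok 13 43 (bit 13 13665544136826128596773715984533876174821940322367) :=
  ok_of x13_43p x13_43h (by decide +kernel) (by decide +kernel) (by decide +kernel)
    (by decide +kernel) (by decide +kernel) (by decide +kernel) (by decide +kernel)

theorem x13_43V : Gd 8 1 SV :=
  x13_43.gd ⟨⟨9, ![3, 8, 9, 12], ![11, 8, 5, 2], by decide +kernel, by decide +kernel⟩⟩

def x13_44p : Fin 13 → Fin 5 → ℤ :=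
  ![![0, 0, 2, -1, 2], ![16, 4, 2, -1, 0], ![0, 0, 1, 0, 0], ![1, 0, 0, 0, 0],
    ![-4, -4, 6, -1, 4], ![0, -8, 2, 1, 2], ![0, 1, 0, 0, 0], ![-4, 4, 2, -1, 4],
    ![0, 0, 0, 0, 1], ![-4, 12, 2, 1, 0], ![-4, -4, 2, 1, 4], ![0, 0, 0, 1, 0], ![4, -4, 0, 1, 1]]

def x13_44h : Fin 13 → Fin 5 → ℤ :=
  ![![0, 1, 0, 4, 2], ![1, 0, 0, 16, 8], ![0, 0, 1, 2, 0], ![1, 0, 0, 4, 2], ![0, 1, 2, 4, 0],
    ![1, 1, 2, 4, 0], ![0, 0, 0, 0, 1], ![0, 1, 0, 0, 4], ![3, 1, 0, 0, 4], ![0, 0, 1, 0, 0],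
    ![5, 1, 2, 4, 4], ![1, 1, 4, 0, 0], ![1, 0, 2, 0, 0]]

theorem x13_44 : Ok 13 44 (bit 13 247072999105354425332210216010769045557884165349439) :=
  ok_of x13_44p x13_44h (by decide +kernel) (by decide +kernel) (by decide +kernel)
    (by decide +kernel) (by decide +kernel) (by decide +kernel) (by decide +kernel)

theorem x13_44V : Gd 8 2 SV :=
  x13_44.gd ⟨⟨1, ![0, 1, 2, 6], ![6, 3, 2, 0], by decide +kernel, by decide +kernel⟩⟩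

def x14_47p : Fin 14 → Fin 5 → ℤ :=
  ![![0, 0, 0, 0, 1], ![3, 0, 0, 1, -2], ![0, 1, 0, 0, 0], ![1, 0, 0, 0, 0],
    ![0, 14, 0, -12, 21], ![3, 2, 0, -3, -2], ![3, 2, 0, 0, -3], ![0, -2, 1, 4, 0],
    ![0, -2, 1, 3, -1], ![171, -324, 162, 405, -230], ![0, 2, 75, 9, -3],
    ![105, -170, 96, 207, -142], ![1, 0, 3, 0, -1], ![3, 1, 1, -2, -2]]

def x14_47h : Fin 14 → Fin 5 → ℤ :=
  ![![0, 0, 1, 0, 0], ![1, 0, 12, -3, 0], ![0, 1, 2, 0, 0], ![1, 0, 0, 0, 0], ![0, 3, 1, 2, 0],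
    ![3, 6, -1, 7, 0], ![9, 27, -3, 19, 0], ![399, 2094, -133, 1579, 0], ![1, 0, 4, -1, 1],
    ![0, 324, 358, 162, 81], ![5, 6, 12, 3, 9], ![725, 0, -51, 525, 300], ![3, 0, 0, 1, 3],
    ![1, 1, 0, 1, 1]]

theorem x14_47 : Ok 14 47 (bit 14 51300372254050345312703291506777376028327595676094125162751) :=
  ok_of x14_47p x14_47h (by decide +kernel) (by decide +kernel) (by decide +kernel)
    (by decide +kernel) (by decide +kernel) (by decide +kernel) (by decide +kernel)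

theorem x14_47V : Gd 9 1 SV :=
  x14_47.gd ⟨⟨3, ![0, 2, 4, 9], ![9, 5, 1, 0], by decide +kernel, by decide +kernel⟩⟩

def x14_48p : Fin 14 → Fin 5 → ℤ :=
  ![![1, 0, 0, 0, 0], ![0, 0, 0, 0, 1], ![4, 2, 0, -1, 2], ![1, 26, 0, 2, -4],
    ![340, 0, 0, 1356, -255], ![1, -6, 0, 6, 0], ![-1, 4, 0, 1, 2], ![-2, -8, 3, 4, 1],
    ![0, 0, 1, 0, 0], ![-4, -4, 3, 2, 2], ![-68, -116, 57, 58, 37], ![-1, 14, 56, 2, -4],
    ![-26, 4, 48, 16, -5], ![8, -16, 0, 12, 1]]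

def x14_48h : Fin 14 → Fin 5 → ℤ :=
  ![![0, 0, 1, 0, 0], ![0, 1, 0, 2, 0], ![0, 9, 8, 12, 0], ![0, 0, 0, 2, 1],
    ![0, 126, 27, 170, 904], ![0, 255, 35, 255, 1356], ![0, 1, 0, 1, 4], ![10, -3, 0, 34, 0],
    ![6, -1, 0, 10, 0], ![30, 7, 48, 2, 0], ![18, 27, 52, 24, 0], ![6, 1, 4, 0, 8],
    ![114, 5, 132, -14, 54], ![1, 1, 0, 2, 2]]

theorem x14_48 : Ok 14 48 (bit 14 6704039436524651220883206700998671970558742130387780223103) :=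
  ok_of x14_48p x14_48h (by decide +kernel) (by decide +kernel) (by decide +kernel)
    (by decide +kernel) (by decide +kernel) (by decide +kernel) (by decide +kernel)

theorem x14_48V : Gd 9 2 SV :=
  x14_48.gd ⟨⟨2, ![0, 1, 3, 7], ![8, 3, 1, 0], by decide +kernel, by decide +kernel⟩⟩

def x15_51p : Fin 15 → Fin 5 → ℤ :=
  ![![2, -6, 3, 8, -4], ![12, -24, 9, 32, -12], ![1, 0, 0, 0, 0], ![28, -96, 51, 72, -36],
    ![0, 0, 0, 1, 0], ![0, 1, 0, 0, 0], ![0, 40, -9, -11, 12], ![0, -68, 51, 72, -36],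
    ![28, -40, 9, 30, 4], ![0, 0, 0, 0, 1], ![0, 0, 1, 0, 0], ![76, 132, -5, -99, 108],
    ![0, 4, 1, -3, 5], ![330, 880, -198, -407, 444], ![8, -4, 1, 3, 0]]

def x15_51h : Fin 15 → Fin 5 → ℤ :=
  ![![0, 16, 28, 12, 21], ![0, 0, 4, 0, 3], ![3, 3, 4, 0, 0], ![0, 0, 0, 1, 2],
    ![16, 0, 12, 0, 17], ![0, 1, 4, 0, 1], ![63, 1327, 2212, 864, 1372], ![0, 3, 0, 4, 0],
    ![0, 9, 40, 0, 0], ![0, 0, 0, 12, 11], ![0, 1597, 3036, 1976, 0], ![18, 18, 0, 17, 0],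
    ![1, 0, 0, 0, 0], ![1, 1, 2, 2, 0], ![3, 1, 0, 8, 4]]

theorem x15_51 : Ok 15 51 (bit 15 370739934204178968161848740467315594422925806388855576840430125087) :=
  ok_of x15_51p x15_51h (by decide +kernel) (by decide +kernel) (by decide +kernel)
    (by decide +kernel) (by decide +kernel) (by decide +kernel) (by decide +kernel)

theorem x15_51V : Gd 10 1 SV :=
  x15_51.gd ⟨⟨12, ![7, 12, 13, 14], ![6, 11, 10, 9], by decide +kernel, by decide +kernel⟩⟩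

def x15_52p : Fin 15 → Fin 5 → ℤ :=
  ![![0, 1, 0, 0, 0], ![-468, 856, 273, -52, 156], ![-3, 4, 1, -1, 3], ![-3, 1, 0, 2, 1],
    ![0, 18, -3, -1, 6], ![-552, 886, 39, -139, 730], ![0, 0, 1, 0, 0], ![21, 284, -35, -21, 63],
    ![6, 4, -1, 0, 0], ![0, 0, 0, 1, 0], ![0, 0, -1, 3, 2], ![18, -6, -1, 4, 0],
    ![-108, 36, 90, -18, 161], ![0, 0, 0, 0, 1], ![486, -108, -25, 72, 0]]

def x15_52h : Fin 15 → Fin 5 → ℤ :=
  ![![17, 0, 24, 18, 15], ![0, 0, 0, 3, 1], ![1, 0, 0, 0, 3], ![2, 0, 3, 3, 2], ![1, 0, 6, 0, 3],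
    ![0, 0, 0, 0, 1], ![27, 13, 0, 25, 18], ![8, 6, 9, 9, 0], ![-2, 21, 72, 162, 0],
    ![-2, 3, 0, 18, 0], ![23, 15, 81, 27, 0], ![1, 3, 0, 0, 0], ![7, 30, 162, 54, 0],
    ![0, 2, 0, 3, 0], ![5, 6, 54, 0, 27]]

theorem x15_52 : Ok 15 52 (bit 15 21115930808291065473240883144920854312093421866441025920815876767807) :=
  ok_of x15_52p x15_52h (by decide +kernel) (by decide +kernel) (by decide +kernel)
    (by decide +kernel) (by decide +kernel) (by decide +kernel) (by decide +kernel)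

theorem x15_52V : Gd 10 2 SV :=
  x15_52.gd ⟨⟨1, ![0, 1, 2, 6], ![6, 3, 2, 0], by decide +kernel, by decide +kernel⟩⟩

def x16_56p : Fin 16 → Fin 5 → ℤ :=
  ![![0, 0, 0, 1, 0], ![0, 1, 0, 0, 0], ![-168, 123, 168, 588, 28], ![168, 3, -24, 24, -28],
    ![-42, 12, 56, 126, 7], ![84, -1, -6, 12, -14], ![0, 0, 1, 0, 0], ![12, 2, -1, 0, -2],
    ![1122, -11, -75, 132, -187], ![-24, -1, -24, 72, 20], ![-24, -5, 0, 72, 12],
    ![-240, -60, 33, 720, 115], ![20, -20, 31, 240, 5], ![0, 0, 0, 0, 1],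
    ![4356, 0, 519, 0, -242], ![-72, 2, -84, 216, 67]]

def x16_56h : Fin 16 → Fin 5 → ℤ :=
  ![![1, 0, 0, 0, 6], ![3, 0, 2, 0, 6], ![3, 0, 7, 0, 12], ![1079, 336, 450, 0, 2298],
    ![2, 12, 5, 0, 9], ![4, 7, 0, 0, 12], ![57, 140, 0, 0, 332], ![12, 0, 3, 2, 12],
    ![1, 0, 12, 5, 0], ![3, 0, 0, 1, 0], ![0, 0, 0, 1, 0], ![5, 264, 110, 42, 0],
    ![-346, 3528, 2904, 4885, 0], ![0, 12, 0, 1, 0], ![655, 48048, 8800, 3819, 0],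
    ![1, 12, 0, 18, 18]]

theorem x16_56 : Ok 16 56 (bit 16 4983751050392179280274528286036699253362236034161551253961553861797086691455) :=
  ok_of x16_56p x16_56h (by decide +kernel) (by decide +kernel) (by decide +kernel)
    (by decide +kernel) (by decide +kernel) (by decide +kernel) (by decide +kernel)

theorem x16_56V : Gd 11 2 SV :=
  x16_56.gd ⟨⟨2, ![0, 1, 3, 7], ![10, 4, 1, 0], by decide +kernel, by decide +kernel⟩⟩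

end Pool.Agent.Lib.MP_087efe_co
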