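import Pool.Agent.Lib.MP_087efe_co.Main

/-! Gluing two products of polygons: the region up to an error of order `n^(1/8)`. -/

namespace Pool.Agent.Lib.MP_087efe_co

theorem Gd.cast {a g a' g' Φ} (h : Gd a g Φ) (e : a = a') (e' : g = g') : Gd a' g' Φ := by
  subst e e'
  exact h

theorem Gd.flipSV {a g} (h : Gd a g SO) : Gd a g SV := by
  obtain ⟨V, F, i1, i2, I, h1, h2, h3, h4, h5, h6, -⟩ := h
  exact ⟨F, V, i2, i1, flip I, h1.flip, h2.flip, h4, h3, (nadj_flip h1 h2).trans h5, h6⟩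

theorem x12_39S : Gd 7 1 SFV :=
  x12_39.gd ⟨⟨2, ![0, 1, 3, 7], ![5, 3, 1, 0], by decide +kernel, by decide +kernel⟩,
    ⟨10, ![4, 7, 8, 9], ![6, 8, 4, 2], by decide +kernel, by decide +kernel⟩, by decide +kernel⟩

theorem x13_43S : Gd 8 1 SFV :=
  x13_43.gd ⟨⟨7, ![1, 3, 6, 12], ![4, 2, 0, 6], by decide +kernel, by decide +kernel⟩,
    ⟨9, ![3, 8, 9, 12], ![11, 8, 5, 2], by decide +kernel, by decide +kernel⟩, by decide +kernel⟩

theorem x13_44S : Gd 8 2 SFV :=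
  x13_44.gd ⟨⟨1, ![0, 1, 2, 6], ![6, 3, 2, 0], by decide +kernel, by decide +kernel⟩,
    ⟨12, ![4, 7, 9, 11], ![11, 8, 5, 3], by decide +kernel, by decide +kernel⟩, by decide +kernel⟩

theorem x14_47S : Gd 9 1 SFV :=
  x14_47.gd ⟨⟨1, ![0, 1, 2, 7], ![8, 3, 2, 0], by decide +kernel, by decide +kernel⟩,
    ⟨3, ![0, 2, 4, 9], ![9, 5, 1, 0], by decide +kernel, by decide +kernel⟩, by decide +kernel⟩

theorem x14_48S : Gd 9 2 SFV :=
  x14_48.gd ⟨⟨2, ![0, 1, 7, 13], ![10, 6, 0, 1], by decide +kernel, by decide +kernel⟩,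
    ⟨2, ![0, 1, 3, 7], ![8, 3, 1, 0], by decide +kernel, by decide +kernel⟩, by decide +kernel⟩

theorem x15_51S : Gd 10 1 SFV :=
  x15_51.gd ⟨⟨4, ![0, 4, 5, 7], ![12, 3, 2, 1], by decide +kernel, by decide +kernel⟩,
    ⟨12, ![7, 12, 13, 14], ![6, 11, 10, 9], by decide +kernel, by decide +kernel⟩, by decide +kernel⟩

theorem x15_52S : Gd 10 2 SFV :=
  x15_52.gd ⟨⟨3, ![0, 2, 4, 7], ![8, 4, 1, 0], by decide +kernel, by decide +kernel⟩,
    ⟨1, ![0, 1, 2, 6], ![6, 3, 2, 0], by decide +kernel, by decide +kernel⟩, by decide +kernel⟩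

theorem x16_56S : Gd 11 2 SFV :=
  x16_56.gd ⟨⟨6, ![0, 5, 6, 12], ![13, 5, 4, 0], by decide +kernel, by decide +kernel⟩,
    ⟨2, ![0, 1, 3, 7], ![10, 4, 1, 0], by decide +kernel, by decide +kernel⟩, by decide +kernel⟩

theorem Gd.add1 {a g k} (h : Gd a g SV) (hk : 7 + a ≤ k) : Gd k (1 + g) SV :=
  Gd.all (x12_39S.glueV h) ((x13_43S.glueV h).cast (by omega) rfl)
    ((x14_47S.glueV h).cast (by omega) rfl) ((x15_51S.glueV h).cast (by omega) rfl) hk

theorem Gd.add2 {a g k} (h : Gd a g SV) (hk : 8 + a ≤ k) : Gd k (2 + g) SV :=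
  Gd.all (x13_44S.glueV h) ((x14_48S.glueV h).cast (by omega) rfl)
    ((x15_52S.glueV h).cast (by omega) rfl) ((x16_56S.glueV h).cast (by omega) rfl) hk

theorem Gd.fill2 {a g b f} (h : Gd a g OC) (h' : Gd b f OC) {a' g' : ℕ} (hg : g + f + 5 ≤ g')
    (ha : a + b + 2 * g' + 5 ≤ a' + 2 * (g + f)) : Gd a' g' TT := by
  have B := h'.stack.flipSV
  obtain ⟨t, e | e⟩ : ∃ t, g' = g + f + 2 * (t + 1) + 3 ∨ g' = g + f + 2 * (t + 1) + 4 :=
    ⟨(g' - g - f - 5) / 2, by omega⟩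
  · exact ((h.stacks t).glue (B.add1 (k := a' - (a + 4 * (t + 1))) (by omega))).cast (by omega)
      (by omega)
  · exact ((h.stacks t).glue (B.add2 (k := a' - (a + 4 * (t + 1))) (by omega))).cast (by omega)
      (by omega)

theorem approx2 (R : ℕ) : ∃ y z T : ℕ, R + 1 = (y + 1) * (z + 1) + T ∧ z ≤ y + 1 ∧ T ≤ y + 1 ∧
    (y + 1) * (y + 1) ≤ R + 1 := by
  obtain ⟨y, hy⟩ : ∃ y, Nat.sqrt (R + 1) = y + 1 :=
    ⟨Nat.sqrt (R + 1) - 1, by have := Nat.sqrt_pos.2 (show 0 < R + 1 by omega); omega⟩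
  have u1 : (y + 1) * (y + 1) ≤ R + 1 := by
    have := Nat.sqrt_le (R + 1)
    rwa [hy] at this
  have u2 : R + 1 < (y + 1 + 1) * (y + 1 + 1) := by
    have := Nat.lt_succ_sqrt (R + 1)
    rwa [hy] at this
  have e1 : (y + 1 + 1) * (y + 1 + 1) = (y + 1) * (y + 1) + 2 * (y + 1) + 1 := by ring
  have e2 : (y + 1) * (y + 1 + 1) = (y + 1) * (y + 1) + (y + 1) := by ring
  by_cases h : R + 1 < (y + 1) * (y + 1 + 1)
  · exact ⟨y, y, R + 1 - (y + 1) * (y + 1), by omega, by omega, by omega, u1⟩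
  · exact ⟨y, y + 1, R + 1 - (y + 1) * (y + 1 + 1), by omega, by omega, by omega, u1⟩

theorem gd_big2 {a g : ℕ} {q : ℝ} (hq : 0 ≤ q) (h8 : q ^ 8 = a + 5)
    (h : g + 12 * q ^ 4 + 113 * q ≤ 2 * a + 20) : Gd a g TT := by
  have a0 : (0 : ℝ) ≤ a := Nat.cast_nonneg a
  have g0 : (0 : ℝ) ≤ g := Nat.cast_nonneg g
  have q1 : 1 ≤ q := by
    by_contra e
    have := pow_lt_one₀ hq (not_le.mp e) (show 8 ≠ 0 by norm_num)
    linarith
  have e8 : q ^ 8 = q ^ 4 * q ^ 4 := by ring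
  by_cases hq2 : q ≤ 2
  · refine gd_lin ?_
    have : (2 * g + 9 : ℝ) ≤ a := by
      have e3 : q ^ 3 ≤ 8 := (pow_le_pow_left₀ hq hq2 3).trans (by norm_num)
      have e4 : q ^ 4 ≤ 8 * q := by nlinarith
      have e5 : q ^ 4 * q ^ 4 ≤ 16 * q ^ 4 :=
        mul_le_mul_of_nonneg_right (by linarith) (by positivity)
      linarith
    exact_mod_cast this
  push Not at hq2
  have q4 : (16 : ℝ) ≤ q ^ 4 := le_trans (by norm_num) (pow_le_pow_left₀ (by norm_num) hq2.le 4)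
  have a1 : 251 ≤ a := by
    have : (251 : ℝ) ≤ a := by nlinarith
    exact_mod_cast this
  by_cases hg : g ≤ 60
  · exact gd_lin (by omega)
  obtain ⟨s, t, R, u, w, e1, e2, e3, e4, e5⟩ := approx (N := (g - 9) / 8 - 1) (by omega)
  obtain ⟨y, z, T, f1, f2, f3, f4⟩ := approx2 R
  have b1 : 8 * (u * u) ≤ g := by omega
  have b2 : (2 * u : ℝ) ≤ q ^ 4 - 3 := by
    have : (8 * (u * u) : ℝ) ≤ g := by exact_mod_cast b1
    by_contra e
    have := mul_self_lt_mul_self (by linarith) (not_le.mp e)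
    nlinarith
  have b3 : (w : ℝ) ≤ q ^ 2 := by
    have : (w * w : ℝ) ≤ 2 * u := by exact_mod_cast e5
    by_contra e
    have := mul_self_lt_mul_self (by positivity) (not_le.mp e)
    nlinarith
  have b4 : (y + 1 : ℝ) ≤ 3 / 2 * q := by
    have : ((y + 1) * (y + 1) : ℝ) ≤ 2 * w + 1 := by
      exact_mod_cast f4.trans (by omega : R + 1 ≤ 2 * w + 1)
    by_contra e
    have := mul_self_lt_mul_self (by positivity) (not_le.mp e)
    nlinarith
  have b5 : g + 24 * u + 48 * (y + 1) + 110 ≤ 2 * a + 20 := by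
    have : (g + 24 * u + 48 * (y + 1) + 110 : ℝ) ≤ 2 * a + 20 := by linarith
    exact_mod_cast this
  refine (gd_prod s t).fill2 (gd_prod y z) ?_ ?_ <;>
    generalize (s + 1) * (t + 1) = P at * <;> generalize (y + 1) * (z + 1) = P' at * <;> omega

end Pool.Agent.Lib.MP_087efe_co
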